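import Mathlib

/-! Flag complexes as clique complexes of graphs; the Charney-Davis quantity. -/

namespace Pool.Agent.Lib.MP_fd533b_co

open Finset

variable {V : Type*} [Fintype V] [DecidableEq V] (G : SimpleGraph V) [DecidableRel G.Adj]

/-- The faces of the full subcomplex, on the vertex set `W`, of the clique complex of `G`
(the empty face included). -/
def faces (W : Finset V) : Finset (Finset V) :=
  W.powerset.filter (fun s => ∀ x ∈ s, ∀ y ∈ s, x ≠ y → G.Adj x y)

/-- The vertices joined to all vertices of `s`. If `s` is a face, the link of `s` is the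
full subcomplex on this set. -/
def lk (s : Finset V) : Finset V :=
  univ.filter (fun w => ∀ x ∈ s, G.Adj w x)

/-- The Charney-Davis quantity of the full subcomplex on `W`. -/
def lam (W : Finset V) : ℚ :=
  ∑ s ∈ faces G W, (-1 / 2 : ℚ) ^ s.card

variable {G}

lemma mem_faces {W s : Finset V} :
    s ∈ faces G W ↔ s ⊆ W ∧ ∀ x ∈ s, ∀ y ∈ s, x ≠ y → G.Adj x y := by
  simp [faces]

lemma mem_lk {s : Finset V} {w : V} : w ∈ lk G s ↔ ∀ x ∈ s, G.Adj w x := by
  simp [lk]

lemma lk_empty : lk G (∅ : Finset V) = univ := by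
  ext w; simp [mem_lk]

lemma lk_union (s t : Finset V) : lk G (s ∪ t) = lk G s ∩ lk G t := by
  ext w
  simp only [mem_lk, mem_inter, mem_union]
  constructor
  · intro h
    exact ⟨fun x hx => h x (Or.inl hx), fun x hx => h x (Or.inr hx)⟩
  · rintro ⟨h1, h2⟩ x (hx | hx)
    · exact h1 x hx
    · exact h2 x hx

lemma empty_mem_faces (W : Finset V) : (∅ : Finset V) ∈ faces G W := by
  simp [mem_faces]

lemma faces_mono {W W' : Finset V} (h : W ⊆ W') : faces G W ⊆ faces G W' := by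
  intro s hs
  rw [mem_faces] at hs ⊢
  exact ⟨hs.1.trans h, hs.2⟩

lemma subset_mem_faces {W s t : Finset V} (hs : s ∈ faces G W) (h : t ⊆ s) :
    t ∈ faces G W := by
  rw [mem_faces] at hs ⊢
  exact ⟨h.trans hs.1, fun x hx y hy => hs.2 x (h hx) y (h hy)⟩

/-- If `s` is a face of `W` and `t` is a face in the link of `s` in `W`, then `s ∪ t` is a
face and `s`, `t` are disjoint. -/
lemma disj_of_lk {W s t : Finset V} (ht : t ∈ faces G (W ∩ lk G s)) : Disjoint s t := by
  rw [Finset.disjoint_left]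
  intro x hxs hxt
  have h := (mem_faces.1 ht).1 hxt
  rw [mem_inter, mem_lk] at h
  exact (G.loopless.irrefl x) (h.2 x hxs)

lemma union_mem_faces {W s t : Finset V} (hs : s ∈ faces G W)
    (ht : t ∈ faces G (W ∩ lk G s)) : s ∪ t ∈ faces G W := by
  rw [mem_faces] at hs ht ⊢
  refine ⟨union_subset hs.1 (ht.1.trans inter_subset_left), ?_⟩
  have hst : ∀ x ∈ s, ∀ y ∈ t, G.Adj y x := by
    intro x hx y hy
    have := ht.1 hy
    rw [mem_inter, mem_lk] at this
    exact this.2 x hx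
  intro x hx y hy hxy
  rw [mem_union] at hx hy
  rcases hx with hx | hx <;> rcases hy with hy | hy
  · exact hs.2 x hx y hy hxy
  · exact (hst x hx y hy).symm
  · exact hst y hy x hx
  · exact ht.2 x hx y hy hxy

lemma sdiff_mem_link {W s r : Finset V} (hr : r ∈ faces G W) (hs : s ⊆ r) :
    r \ s ∈ faces G (W ∩ lk G s) := by
  rw [mem_faces] at hr ⊢
  refine ⟨?_, fun x hx y hy hxy => hr.2 x (sdiff_subset hx) y (sdiff_subset hy) hxy⟩
  intro x hx
  rw [mem_sdiff] at hx
  rw [mem_inter, mem_lk]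
  refine ⟨hr.1 hx.1, fun y hy => hr.2 x hx.1 y (hs hy) ?_⟩
  rintro rfl
  exact hx.2 hy

/-- Summation over pairs (face of `A`, face of its link in `W`), `A ⊆ W`. -/
lemma sum_pairs {R : Type*} [AddCommMonoid R] {W A : Finset V} (hA : A ⊆ W)
    (F : Finset V → Finset V → R) :
    ∑ s ∈ faces G A, ∑ t ∈ faces G (W ∩ lk G s), F s t =
      ∑ r ∈ faces G W, ∑ s ∈ (r ∩ A).powerset, F s (r \ s) := by
  rw [Finset.sum_sigma', Finset.sum_sigma']
  refine Finset.sum_bij' (fun p _ => (⟨p.1 ∪ p.2, p.1⟩ : Σ _ : Finset V, Finset V))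
    (fun p _ => (⟨p.2, p.1 \ p.2⟩ : Σ _ : Finset V, Finset V)) ?_ ?_ ?_ ?_ ?_
  · rintro ⟨s, t⟩ h
    simp only [mem_sigma] at h ⊢
    refine ⟨union_mem_faces (faces_mono hA h.1) h.2, ?_⟩
    rw [mem_powerset]
    exact subset_inter subset_union_left (mem_faces.1 h.1).1
  · rintro ⟨r, s⟩ h
    simp only [mem_sigma, mem_powerset] at h ⊢
    refine ⟨?_, sdiff_mem_link h.1 (h.2.trans inter_subset_left)⟩
    have := subset_mem_faces h.1 (h.2.trans inter_subset_left)
    rw [mem_faces] at this ⊢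
    exact ⟨h.2.trans inter_subset_right, this.2⟩
  · rintro ⟨s, t⟩ h
    simp only [mem_sigma] at h
    have hd := disj_of_lk h.2
    simp only [Sigma.mk.injEq, heq_eq_eq, true_and]
    rw [union_sdiff_left, sdiff_eq_self_of_disjoint hd.symm]
  · rintro ⟨r, s⟩ h
    simp only [mem_sigma, mem_powerset] at h
    simp only [Sigma.mk.injEq, heq_eq_eq, and_true]
    exact union_sdiff_of_subset (h.2.trans inter_subset_left)
  · rintro ⟨s, t⟩ h
    simp only [mem_sigma] at h
    have hd := disj_of_lk h.2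
    simp only
    rw [union_sdiff_left, sdiff_eq_self_of_disjoint hd.symm]

/-- Removing the vertex set `A`. -/
lemma lam_sdiff {W A : Finset V} (hA : A ⊆ W) :
    lam G (W \ A) = ∑ s ∈ faces G A, (1 / 2 : ℚ) ^ s.card * lam G (W ∩ lk G s) := by
  have h1 : ∑ s ∈ faces G A, (1 / 2 : ℚ) ^ s.card * lam G (W ∩ lk G s) =
      ∑ r ∈ faces G W, ∑ s ∈ (r ∩ A).powerset,
        (1 / 2 : ℚ) ^ s.card * (-1 / 2 : ℚ) ^ (r \ s).card := by
    rw [← sum_pairs hA (fun s t => (1 / 2 : ℚ) ^ s.card * (-1 / 2 : ℚ) ^ t.card)]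
    refine sum_congr rfl fun s _ => ?_
    rw [lam, mul_sum]
  rw [h1]
  have h2 : ∀ r ∈ faces G W, ∑ s ∈ (r ∩ A).powerset,
        (1 / 2 : ℚ) ^ s.card * (-1 / 2 : ℚ) ^ (r \ s).card =
        if r ∩ A = ∅ then (-1 / 2 : ℚ) ^ r.card else 0 := by
    intro r _
    have h3 : ∀ s ∈ (r ∩ A).powerset,
        (1 / 2 : ℚ) ^ s.card * (-1 / 2 : ℚ) ^ (r \ s).card =
          (-1 / 2 : ℚ) ^ r.card * (-1 : ℚ) ^ s.card := by
      intro s hs
      rw [mem_powerset] at hs
      have hsr := hs.trans inter_subset_left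
      have hc : r.card = (r \ s).card + s.card := (card_sdiff_add_card_eq_card hsr).symm
      rw [hc, pow_add, mul_assoc, ← mul_pow, mul_comm]
      norm_num
    rw [sum_congr rfl h3, ← mul_sum]
    have h4 : ∑ s ∈ (r ∩ A).powerset, (-1 : ℚ) ^ s.card =
        ((∑ s ∈ (r ∩ A).powerset, (-1 : ℤ) ^ s.card : ℤ) : ℚ) := by
      push_cast
      rfl
    rw [h4, Finset.sum_powerset_neg_one_pow_card]
    split_ifs <;> simp
  rw [sum_congr rfl h2, ← sum_filter]
  refine (sum_congr ?_ fun _ _ => rfl)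
  ext s
  rw [mem_filter, mem_faces, mem_faces]
  constructor
  · rintro ⟨h, h'⟩
    refine ⟨⟨h.trans sdiff_subset, h'⟩, ?_⟩
    rw [← disjoint_iff_inter_eq_empty]
    exact disjoint_of_subset_left h sdiff_disjoint
  · rintro ⟨⟨h, h'⟩, h''⟩
    rw [← disjoint_iff_inter_eq_empty] at h''
    exact ⟨subset_sdiff.2 ⟨h, h''⟩, h'⟩

/-- `W` spans a complex whose face links all have the Euler characteristic of spheres of
dimension `d - 1 - |s|`; only the parity of `d` enters. -/
def EulerOn (G : SimpleGraph V) [DecidableRel G.Adj] (W : Finset V) (d : ℕ) : Prop :=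
  ∀ s ∈ faces G W, ∑ t ∈ faces G (W ∩ lk G s), (-1 : ℤ) ^ t.card = (-1) ^ (d + s.card)

lemma lam_eq_zero {W : Finset V} {d : ℕ} (h : EulerOn G W d) (hd : Odd d) :
    lam G W = 0 := by
  have h1 := sum_pairs (G := G) (subset_refl W)
    (fun s t => (1 / 2 : ℚ) ^ s.card * (-1 : ℚ) ^ t.card)
  have h2 : ∑ s ∈ faces G W, ∑ t ∈ faces G (W ∩ lk G s),
      (1 / 2 : ℚ) ^ s.card * (-1 : ℚ) ^ t.card = - lam G W := by
    rw [lam, ← sum_neg_distrib]
    refine sum_congr rfl fun s hs => ?_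
    rw [← mul_sum]
    have h3 : ∑ t ∈ faces G (W ∩ lk G s), (-1 : ℚ) ^ t.card =
        ((∑ t ∈ faces G (W ∩ lk G s), (-1 : ℤ) ^ t.card : ℤ) : ℚ) := by
      push_cast
      rfl
    rw [h3, h s hs]
    push_cast
    rw [pow_add, hd.neg_one_pow, show (-1 / 2 : ℚ) = (1 / 2) * (-1) by norm_num, mul_pow]
    ring
  have h3 : ∑ r ∈ faces G W, ∑ s ∈ (r ∩ W).powerset,
      (1 / 2 : ℚ) ^ s.card * (-1 : ℚ) ^ (r \ s).card = lam G W := by
    rw [lam]
    refine sum_congr rfl fun r hr => ?_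
    rw [inter_eq_left.2 (mem_faces.1 hr).1]
    have h4 := Finset.sum_pow_mul_eq_add_pow (1 / 2 : ℚ) (-1 : ℚ) r
    rw [show (-1 / 2 : ℚ) = 1 / 2 + -1 by norm_num, ← h4]
    refine sum_congr rfl fun s hs => ?_
    rw [card_sdiff_of_subset (mem_powerset.1 hs)]
  rw [h2, h3] at h1
  linarith

end Pool.Agent.Lib.MP_fd533b_co
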