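import Mathlib
import Pool.Agent.Lib.MP_fd533b_co.Basic

/-! Flag Eulerian complexes with connected links (spheres): suspension criterion, rigidity. -/

set_option linter.unusedSectionVars false
set_option linter.style.longLine false

namespace Pool.Agent.Lib.MP_fd533b_co

open Finset

variable {V : Type*} [Fintype V] [DecidableEq V]

/-- `W` is nonempty and connected in `G`. -/
def Conn (G : SimpleGraph V) (W : Finset V) : Prop :=
  W.Nonempty ∧ ∀ A ⊆ W, A.Nonempty → (∀ x ∈ A, ∀ y ∈ W, G.Adj x y → y ∈ A) → A = W

/-- The full subcomplex on `W` is Eulerian of rank `n` (dimension `n - 1`) with connected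
links. -/
structure Sph (G : SimpleGraph V) [DecidableRel G.Adj] (W : Finset V) (n : ℕ) : Prop where
  le : ∀ s ∈ faces G W, s.card ≤ n
  eul : ∀ s ∈ faces G W, ∑ t ∈ faces G (W ∩ lk G s), (-1 : ℤ) ^ t.card = (-1) ^ (n - s.card)
  con : ∀ s ∈ faces G W, s.card + 2 ≤ n → Conn G (W ∩ lk G s)

/-- The vertices of `W` other than `v` which are not joined to `v`. -/
def non (G : SimpleGraph V) [DecidableRel G.Adj] (W : Finset V) (v : V) : Finset V :=
  W.filter (fun w => w ≠ v ∧ ¬ G.Adj v w)

/-- Every vertex of `W` has at least two non-neighbours in `W`. -/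
def SF (G : SimpleGraph V) [DecidableRel G.Adj] (W : Finset V) : Prop :=
  ∀ x ∈ W, 2 ≤ (non G W x).card

variable {G : SimpleGraph V} [DecidableRel G.Adj]

lemma mem_non {W : Finset V} {v w : V} : w ∈ non G W v ↔ w ∈ W ∧ w ≠ v ∧ ¬ G.Adj v w := by
  simp [non]

lemma non_symm {W : Finset V} {v w : V} (hv : v ∈ W) (h : w ∈ non G W v) : v ∈ non G W w := by
  rw [mem_non] at h ⊢
  exact ⟨hv, fun e => h.2.1 e.symm, fun e => h.2.2 e.symm⟩

lemma mem_lk1 {v w : V} : w ∈ lk G {v} ↔ G.Adj w v := by
  simp [mem_lk]

lemma notMem_lk1 (v : V) : v ∉ lk G {v} := by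
  simp [mem_lk]

lemma single_mem_faces {W : Finset V} {v : V} (hv : v ∈ W) : ({v} : Finset V) ∈ faces G W := by
  rw [mem_faces]
  refine ⟨singleton_subset_iff.2 hv, ?_⟩
  intro x hx y hy hxy
  rw [mem_singleton] at hx hy
  exact absurd (hx.trans hy.symm) hxy

lemma pair_mem_faces {W : Finset V} {x y : V} (hx : x ∈ W) (hy : y ∈ W) (h : G.Adj x y) :
    ({x, y} : Finset V) ∈ faces G W := by
  rw [mem_faces]
  refine ⟨by intro z hz; rw [mem_insert, mem_singleton] at hz; rcases hz with rfl | rfl <;>
    assumption, ?_⟩
  intro a ha b hb hab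
  rw [mem_insert, mem_singleton] at ha hb
  rcases ha with rfl | rfl <;> rcases hb with rfl | rfl
  · exact absurd rfl hab
  · exact h
  · exact h.symm
  · exact absurd rfl hab

/-- Links of spheres are spheres. -/
lemma Sph.link {W : Finset V} {n : ℕ} (h : Sph G W n) {s : Finset V} (hs : s ∈ faces G W) :
    Sph G (W ∩ lk G s) (n - s.card) := by
  have key : ∀ t ∈ faces G (W ∩ lk G s), (s ∪ t) ∈ faces G W ∧
      (s ∪ t).card = s.card + t.card ∧ W ∩ lk G s ∩ lk G t = W ∩ lk G (s ∪ t) := by
    intro t ht
    refine ⟨union_mem_faces hs ht, card_union_of_disjoint (disj_of_lk ht), ?_⟩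
    rw [lk_union, inter_assoc]
  refine ⟨?_, ?_, ?_⟩
  · intro t ht
    obtain ⟨h1, h2, -⟩ := key t ht
    have := h.le _ h1
    omega
  · intro t ht
    obtain ⟨h1, h2, h3⟩ := key t ht
    rw [h3, h.eul _ h1, h2, Nat.sub_add_eq]
  · intro t ht hc
    obtain ⟨h1, h2, h3⟩ := key t ht
    rw [h3]
    exact h.con _ h1 (by omega)

lemma Sph.link1 {W : Finset V} {n : ℕ} (h : Sph G W n) {v : V} (hv : v ∈ W) :
    Sph G (W ∩ lk G {v}) (n - 1) := by
  simpa using h.link (single_mem_faces hv)

lemma Sph.zero {W : Finset V} (h : Sph G W 0) : W = ∅ := by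
  rw [eq_empty_iff_forall_notMem]
  intro v hv
  have := h.le _ (single_mem_faces hv)
  simp at this

lemma Sph.pos {W : Finset V} {n : ℕ} (h : Sph G W n) {v : V} (hv : v ∈ W) : 1 ≤ n := by
  have := h.le _ (single_mem_faces hv)
  simpa using this

lemma faces_empty_eq : faces G (∅ : Finset V) = {∅} := by
  ext t
  rw [mem_faces, mem_singleton]
  constructor
  · exact fun ht => subset_empty.1 ht.1
  · rintro rfl
    simp

lemma Sph.nonempty {W : Finset V} {n : ℕ} (h : Sph G W n) (hn : 1 ≤ n) : W.Nonempty := by
  rcases Nat.lt_or_ge n 2 with h2 | h2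
  · have hn1 : n = 1 := by omega
    subst hn1
    by_contra hne
    rw [not_nonempty_iff_eq_empty] at hne
    have := h.eul ∅ (empty_mem_faces _)
    rw [hne, empty_inter, faces_empty_eq] at this
    simp at this
  · have := (h.con ∅ (empty_mem_faces _) (by simpa using h2)).1
    rwa [lk_empty, inter_univ] at this

/-- A sphere is not a cone. -/
lemma Sph.non_nonempty {W : Finset V} {n : ℕ} (h : Sph G W n) {v : V} (hv : v ∈ W) :
    (non G W v).Nonempty := by
  by_contra hne
  rw [not_nonempty_iff_eq_empty] at hne
  have hadj : ∀ w ∈ W, w ≠ v → G.Adj v w := by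
    intro w hw hwv
    by_contra hna
    have : w ∈ non G W v := mem_non.2 ⟨hw, hwv, hna⟩
    rw [hne] at this
    simp at this
  have h1 := h.eul ∅ (empty_mem_faces _)
  rw [lk_empty, inter_univ] at h1
  have h0 : ∑ t ∈ faces G W, (-1 : ℤ) ^ t.card = 0 := by
    refine Finset.sum_involution (fun t _ => if v ∈ t then t.erase v else insert v t) ?_ ?_ ?_ ?_
    · intro t ht
      by_cases hvt : v ∈ t
      · simp only [hvt, if_true]
        have := card_erase_add_one hvt
        rw [← this, pow_succ]
        ring
      · simp only [hvt, if_false]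
        rw [card_insert_of_notMem hvt, pow_succ]
        ring
    · intro t ht _
      by_cases hvt : v ∈ t
      · simp only [hvt, if_true]
        intro e
        have := notMem_erase v t
        rw [e] at this
        exact this hvt
      · simp only [hvt, if_false]
        intro e
        have := mem_insert_self v t
        rw [e] at this
        exact hvt this
    · intro t ht
      by_cases hvt : v ∈ t
      · simp only [hvt, if_true]
        exact subset_mem_faces ht (erase_subset _ _)
      · simp only [hvt, if_false]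
        rw [mem_faces] at ht ⊢
        refine ⟨insert_subset hv ht.1, ?_⟩
        intro x hx y hy hxy
        rw [mem_insert] at hx hy
        rcases hx with rfl | hx <;> rcases hy with rfl | hy
        · exact absurd rfl hxy
        · exact hadj y (ht.1 hy) hxy.symm
        · exact (hadj x (ht.1 hx) hxy).symm
        · exact ht.2 x hx y hy hxy
    · intro t ht
      by_cases hvt : v ∈ t
      · simp [hvt, insert_erase hvt]
      · simp [hvt]
  rw [h0, card_empty, Nat.sub_zero] at h1
  exact pow_ne_zero n (by norm_num : (-1 : ℤ) ≠ 0) h1.symm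

lemma Sph.one_card {W : Finset V} (h : Sph G W 1) : W.card = 2 := by
  have h1 := h.eul ∅ (empty_mem_faces _)
  rw [lk_empty, inter_univ] at h1
  have hf : faces G W = insert ∅ (W.image (fun x => ({x} : Finset V))) := by
    ext s
    rw [mem_insert, mem_image]
    constructor
    · intro hs
      have := h.le s hs
      rcases Nat.lt_or_ge s.card 1 with h0 | h0
      · left
        exact card_eq_zero.1 (by omega)
      · right
        obtain ⟨x, hx⟩ := card_eq_one.1 (le_antisymm this h0)
        refine ⟨x, ?_, hx.symm⟩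
        have := (mem_faces.1 hs).1
        rw [hx] at this
        exact singleton_subset_iff.1 this
    · rintro (rfl | ⟨x, hx, rfl⟩)
      · exact empty_mem_faces _
      · exact single_mem_faces hx
  rw [hf, sum_insert (by simp), sum_image (by simp)] at h1
  simp at h1
  omega

/-- A unique non-neighbour is a symmetric relation. -/
lemma Sph.non_single {W : Finset V} {n : ℕ} (h : Sph G W n) {v w : V} (hv : v ∈ W)
    (hw : non G W v = {w}) : non G W w = {v} := by
  have hwv : w ∈ non G W v := by rw [hw]; exact mem_singleton_self w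
  have hwW := (mem_non.1 hwv).1
  ext x
  rw [mem_singleton]
  constructor
  · intro hx
    by_contra hxv
    have hxW := (mem_non.1 hx).1
    have hxn : x ∉ non G W v := by
      rw [hw, mem_singleton]
      exact (mem_non.1 hx).2.1
    have hadj : G.Adj v x := by
      by_contra hna
      exact hxn (mem_non.2 ⟨hxW, hxv, hna⟩)
    have hL := h.link1 hxW
    have hvL : v ∈ W ∩ lk G {x} := mem_inter.2 ⟨hv, mem_lk1.2 hadj⟩
    obtain ⟨y, hy⟩ := hL.non_nonempty hvL
    rw [mem_non, mem_inter, mem_lk1] at hy
    have hyv : y ∈ non G W v := mem_non.2 ⟨hy.1.1, hy.2⟩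
    rw [hw, mem_singleton] at hyv
    subst hyv
    exact (mem_non.1 hx).2.2 hy.1.2
  · rintro rfl
    exact non_symm hv hwv

/-- Rigidity: a full subcomplex which is a sphere of the same dimension is everything. -/
lemma Sph.eq_of_subset : ∀ {n : ℕ} {W W' : Finset V}, Sph G W n → Sph G W' n → W' ⊆ W →
    W' = W := by
  intro n
  induction n with
  | zero =>
    intro W W' h h' _
    rw [h.zero, h'.zero]
  | succ n ih =>
    intro W W' h h' hsub
    rcases Nat.eq_zero_or_pos n with rfl | hn
    · exact eq_of_subset_of_card_le hsub (by rw [h.one_card, h'.one_card])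
    · have hcon := h.con ∅ (empty_mem_faces _) (by simp; omega)
      rw [lk_empty, inter_univ] at hcon
      refine hcon.2 W' hsub (h'.nonempty (by omega)) ?_
      intro x hx y hy hxy
      have h1 := h.link1 (hsub hx)
      have h2 := h'.link1 hx
      have h3 := ih h1 h2 (inter_subset_inter_right hsub)
      have : y ∈ W ∩ lk G {x} := mem_inter.2 ⟨hy, mem_lk1.2 hxy.symm⟩
      rw [← h3] at this
      exact (mem_inter.1 this).1

/-- Two vertices with the same link: a suspension. -/
lemma Sph.eq_susp : ∀ {n : ℕ} {W : Finset V} {v w : V}, Sph G W n → v ∈ W → w ∈ W → v ≠ w →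
    W ∩ lk G {v} = W ∩ lk G {w} → W = insert v (insert w (W ∩ lk G {v})) := by
  intro n
  induction n with
  | zero =>
    intro W v w h hv _ _ _
    rw [h.zero] at hv
    simp at hv
  | succ n ih =>
    intro W v w h hv hw hvw he
    symm
    have hsub : insert v (insert w (W ∩ lk G {v})) ⊆ W := by
      refine insert_subset hv (insert_subset hw inter_subset_left)
    rcases Nat.eq_zero_or_pos n with rfl | hn
    · refine eq_of_subset_of_card_le hsub ?_
      rw [h.one_card]
      have : ({v, w} : Finset V) ⊆ insert v (insert w (W ∩ lk G {v})) := by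
        intro x hx
        rw [mem_insert, mem_singleton] at hx
        rcases hx with rfl | rfl <;> simp
      have hc := card_le_card this
      rwa [card_pair hvw] at hc
    · have hcon := h.con ∅ (empty_mem_faces _) (by simp; omega)
      rw [lk_empty, inter_univ] at hcon
      refine hcon.2 _ hsub ⟨v, mem_insert_self _ _⟩ ?_
      intro x hx y hy hxy
      rw [mem_insert, mem_insert] at hx
      have hyx : y ∈ W ∩ lk G {x} := mem_inter.2 ⟨hy, mem_lk1.2 hxy.symm⟩
      rcases hx with rfl | rfl | hx
      · exact mem_insert_of_mem (mem_insert_of_mem hyx)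
      · rw [he]
        exact mem_insert_of_mem (mem_insert_of_mem hyx)
      · have hxW := (mem_inter.1 hx).1
        have hxv := mem_lk1.1 (mem_inter.1 hx).2
        have hx' := hx
        rw [he] at hx'
        have hxw := mem_lk1.1 (mem_inter.1 hx').2
        have hL := h.link1 hxW
        have hvL : v ∈ W ∩ lk G {x} := mem_inter.2 ⟨hv, mem_lk1.2 hxv.symm⟩
        have hwL : w ∈ W ∩ lk G {x} := mem_inter.2 ⟨hw, mem_lk1.2 hxw.symm⟩
        have he' : W ∩ lk G {x} ∩ lk G {v} = W ∩ lk G {x} ∩ lk G {w} := by
          rw [inter_right_comm, he, inter_right_comm]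
        have h5 := ih hL hvL hwL hvw he'
        rw [h5, mem_insert, mem_insert, mem_inter, mem_inter] at hyx
        rcases hyx with rfl | rfl | hyx
        · exact mem_insert_self _ _
        · exact mem_insert_of_mem (mem_insert_self _ _)
        · exact mem_insert_of_mem (mem_insert_of_mem (mem_inter.2 ⟨hyx.1.1, hyx.2⟩))

/-- Counting the vertices around `v`. -/
lemma card_split {W : Finset V} {v : V} (hv : v ∈ W) :
    W.card = 1 + (W ∩ lk G {v}).card + (non G W v).card := by
  have h1 : W = insert v ((W ∩ lk G {v}) ∪ non G W v) := by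
    ext x
    rw [mem_insert, mem_union, mem_inter, mem_lk1, mem_non]
    constructor
    · intro hx
      by_cases hxv : x = v
      · exact Or.inl hxv
      · by_cases ha : G.Adj v x
        · exact Or.inr (Or.inl ⟨hx, ha.symm⟩)
        · exact Or.inr (Or.inr ⟨hx, hxv, ha⟩)
    · rintro (rfl | h | h)
      · exact hv
      · exact h.1
      · exact h.1
  have hd : Disjoint (W ∩ lk G {v}) (non G W v) := by
    rw [Finset.disjoint_left]
    intro x hx hx'
    exact (mem_non.1 hx').2.2 (mem_lk1.1 (mem_inter.1 hx).2).symm
  have hn : v ∉ (W ∩ lk G {v}) ∪ non G W v := by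
    rw [mem_union, mem_inter, mem_lk1, mem_non]
    rintro (h | h)
    · exact G.loopless.irrefl v h.2
    · exact h.2.1 rfl
  conv_lhs => rw [h1]
  rw [card_insert_of_notMem hn, card_union_of_disjoint hd]
  ring

lemma Sph.two_mul_le : ∀ {n : ℕ} {W : Finset V}, Sph G W n → 2 * n ≤ W.card := by
  intro n
  induction n with
  | zero => intro W _; simp
  | succ n ih =>
    intro W h
    obtain ⟨v, hv⟩ := h.nonempty (by omega)
    have h1 := ih (h.link1 hv)
    have h2 := card_pos.2 (h.non_nonempty hv)
    rw [card_split (G := G) hv]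
    omega

end Pool.Agent.Lib.MP_fd533b_co
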