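import Mathlib
import Pool.Agent.Lib.MP_fd533b_co.Sphere

/-! A vertex with the fewest non-neighbours, and the bound `2 f_0 ≥ 5 n`. -/

set_option linter.unusedSectionVars false
set_option linter.style.longLine false

namespace Pool.Agent.Lib.MP_fd533b_co

open Finset

variable {V : Type*} [Fintype V] [DecidableEq V] {G : SimpleGraph V} [DecidableRel G.Adj]

lemma non_link_eq {W : Finset V} {v x : V} (hx : x ∈ W ∩ lk G {v}) :
    non G W x = non G (W ∩ lk G {v}) x ∪ (non G W v \ lk G {x}) := by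
  have hvx := mem_lk1.1 (mem_inter.1 hx).2
  ext y
  rw [mem_union, mem_sdiff, mem_non, mem_non, mem_non, mem_inter, mem_lk1, mem_lk1]
  constructor
  · rintro ⟨h1, h2, h3⟩
    by_cases hy : G.Adj y v
    · exact Or.inl ⟨⟨h1, hy⟩, h2, h3⟩
    · refine Or.inr ⟨⟨h1, ?_, fun e => hy e.symm⟩, fun e => h3 e.symm⟩
      rintro rfl
      exact h3 hvx
  · rintro (⟨⟨h1, -⟩, h2, h3⟩ | ⟨⟨h1, h2, h3⟩, h4⟩)
    · exact ⟨h1, h2, h3⟩
    · refine ⟨h1, ?_, fun e => h4 e.symm⟩
      rintro rfl
      exact h3 hvx.symm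

lemma non_link_card {W : Finset V} {v x : V} (hx : x ∈ W ∩ lk G {v}) :
    (non G W x).card = (non G (W ∩ lk G {v}) x).card + (non G W v \ lk G {x}).card := by
  rw [non_link_eq hx]
  refine card_union_of_disjoint ?_
  rw [Finset.disjoint_left]
  intro y hy hy'
  rw [mem_non, mem_inter, mem_lk1] at hy
  rw [mem_sdiff, mem_non] at hy'
  exact hy'.1.2.2 hy.1.2.symm

lemma non_sdiff_card (W : Finset V) (v x : V) :
    (non G W v \ lk G {x}).card + (non G W v ∩ lk G {x}).card = (non G W v).card := by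
  exact card_sdiff_add_card_inter _ _

lemma non_link1 {W : Finset V} {v x : V} :
    non G (W ∩ lk G {x}) v = non G W v ∩ lk G {x} := by
  ext y
  simp only [mem_non, mem_inter]
  tauto

lemma Sph.T_nonempty {W : Finset V} {n : ℕ} (h : Sph G W n) {v x : V} (hv : v ∈ W)
    (hx : x ∈ W ∩ lk G {v}) : (non G W v ∩ lk G {x}).Nonempty := by
  have hx' := mem_inter.1 hx
  have hL := h.link1 hx'.1
  have hvL : v ∈ W ∩ lk G {x} := mem_inter.2 ⟨hv, mem_lk1.2 (mem_lk1.1 hx'.2).symm⟩
  rw [← non_link1]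
  exact hL.non_nonempty hvL

/-- One half of the analysis of a suspension pair `a, b` in the link of `v`. -/
lemma half {W : Finset V} {n : ℕ} (h : Sph G W n) {v a b : V} (hv : v ∈ W)
    (hmin : ∀ x ∈ W, (non G W v).card ≤ (non G W x).card)
    (ha : a ∈ W ∩ lk G {v}) (hab : non G (W ∩ lk G {v}) a = {b}) :
    ∃ w ∈ non G W v, non G W v ∩ lk G {a} = {w} ∧
      non G W a = insert b ((non G W v).erase w) ∧ G.Adj a w ∧
      (∀ y ∈ W ∩ lk G {v}, y ≠ b → y ≠ a → G.Adj w y) ∧
      non G W w ⊆ insert v (insert b ((non G W v).erase w)) := by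
  have h1 := non_link_card ha
  have h2 := non_sdiff_card W v a (G := G)
  have h3 := h.T_nonempty hv ha
  have h4 := hmin a (mem_inter.1 ha).1
  rw [hab, card_singleton] at h1
  have h5 : (non G W v ∩ lk G {a}).card = 1 := by
    have := card_pos.2 h3
    omega
  obtain ⟨w, hw⟩ := card_eq_one.1 h5
  have hwmem : w ∈ non G W v ∩ lk G {a} := by rw [hw]; exact mem_singleton_self w
  have hwD := (mem_inter.1 hwmem).1
  have hwa : G.Adj w a := mem_lk1.1 (mem_inter.1 hwmem).2
  have hav : G.Adj a v := mem_lk1.1 (mem_inter.1 ha).2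
  have haW := (mem_inter.1 ha).1
  have hL := h.link1 haW
  have hvL : v ∈ W ∩ lk G {a} := mem_inter.2 ⟨hv, mem_lk1.2 hav.symm⟩
  have hnon : non G (W ∩ lk G {a}) v = {w} := by rw [non_link1, hw]
  have hnon' := hL.non_single hvL hnon
  have hadj : ∀ y ∈ W ∩ lk G {v}, y ≠ b → y ≠ a → G.Adj w y := by
    intro y hy hyb hya
    have hyW := (mem_inter.1 hy).1
    have hay : G.Adj a y := by
      by_contra hna
      have : y ∈ non G (W ∩ lk G {v}) a := mem_non.2 ⟨hy, hya, hna⟩
      rw [hab, mem_singleton] at this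
      exact hyb this
    by_contra hna
    have hyw : y ≠ w := by
      rintro rfl
      exact (mem_non.1 hwD).2.2 (mem_lk1.1 (mem_inter.1 hy).2).symm
    have : y ∈ non G (W ∩ lk G {a}) w :=
      mem_non.2 ⟨mem_inter.2 ⟨hyW, mem_lk1.2 hay.symm⟩, hyw, hna⟩
    rw [hnon', mem_singleton] at this
    subst this
    exact G.loopless.irrefl y (mem_lk1.1 (mem_inter.1 hy).2)
  refine ⟨w, hwD, hw, ?_, hwa.symm, hadj, ?_⟩
  · rw [non_link_eq ha, hab]
    have : non G W v \ lk G {a} = (non G W v).erase w := by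
      rw [← sdiff_inter_self_left, hw, sdiff_singleton_eq_erase]
    rw [this]
    rfl
  · intro y hy
    rw [mem_non] at hy
    rw [mem_insert, mem_insert, mem_erase]
    by_cases hyv : y = v
    · exact Or.inl hyv
    by_cases hyb : y = b
    · exact Or.inr (Or.inl hyb)
    right; right
    refine ⟨hy.2.1, ?_⟩
    rw [mem_non]
    refine ⟨hy.1, hyv, fun hvy => ?_⟩
    by_cases hya : y = a
    · subst hya
      exact hy.2.2 hwa
    · exact hy.2.2 (hadj y (mem_inter.2 ⟨hy.1, mem_lk1.2 hvy.symm⟩) hyb hya)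

/-- The data found at a vertex `v` with the fewest non-neighbours whose link is a
suspension. -/
structure Data (G : SimpleGraph V) [DecidableRel G.Adj] (W : Finset V) (n : ℕ)
    (v a b w w' : V) (M : Finset V) : Prop where
  ha : a ∈ W ∩ lk G {v}
  hb : b ∈ W ∩ lk G {v}
  hw : w ∈ non G W v
  hw' : w' ∈ non G W v
  ne : w ≠ w'
  na : non G W a = insert b ((non G W v).erase w)
  nb : non G W b = insert a ((non G W v).erase w')
  nw : non G W w ⊆ insert v (insert b ((non G W v).erase w))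
  nw' : non G W w' ⊆ insert v (insert a ((non G W v).erase w'))
  aw : G.Adj a w
  bw' : G.Adj b w'
  hM : ∀ x, x ∈ W ↔ x = v ∨ x = a ∨ x = b ∨ x ∈ non G W v ∨ x ∈ M
  Mv : ∀ x ∈ M, G.Adj x v
  Ma : ∀ x ∈ M, G.Adj x a
  Mb : ∀ x ∈ M, G.Adj x b
  Mw : ∀ x ∈ M, G.Adj x w
  Mw' : ∀ x ∈ M, G.Adj x w'
  sfM : SF G M
  sph : Sph G M (n - 2)
  two : 2 ≤ n
  card : W.card = (non G W v).card + 3 + M.card
  nM : ∀ x ∈ M, non G W x = non G M x ∪ (non G W v \ lk G {x})

lemma mindeg {W : Finset V} {n : ℕ} (h : Sph G W n) (hSF : SF G W) {v : V} (hv : v ∈ W)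
    (hmin : ∀ x ∈ W, (non G W v).card ≤ (non G W x).card) :
    SF G (W ∩ lk G {v}) ∨ ∃ a b w w' : V, ∃ M : Finset V, Data G W n v a b w w' M := by
  by_cases hS : SF G (W ∩ lk G {v})
  · exact Or.inl hS
  right
  unfold SF at hS
  push Not at hS
  obtain ⟨a, ha, hac⟩ := hS
  have hSs := h.link1 hv
  have hne := hSs.non_nonempty ha
  have h1 : (non G (W ∩ lk G {v}) a).card = 1 := by
    have := card_pos.2 hne
    omega
  obtain ⟨b, hb⟩ := card_eq_one.1 h1
  have hbn : b ∈ non G (W ∩ lk G {v}) a := by rw [hb]; exact mem_singleton_self b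
  have hbS := (mem_non.1 hbn).1
  have hba := hSs.non_single ha hb
  obtain ⟨w, hwD, hTa, hna, haw, hwadj, hnw⟩ := half h hv hmin ha hb
  obtain ⟨w', hwD', hTb, hnb, hbw', hwadj', hnw'⟩ := half h hv hmin hbS hba
  have hWa := mem_inter.1 ha
  have hWb := mem_inter.1 hbS
  have hne' : w ≠ w' := by
    rintro rfl
    have hwW := (mem_non.1 hwD).1
    have hsub : W ∩ lk G {v} ⊆ W ∩ lk G {w} := by
      intro y hy
      refine mem_inter.2 ⟨(mem_inter.1 hy).1, mem_lk1.2 ?_⟩
      by_cases hya : y = a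
      · subst hya; exact haw
      by_cases hyb : y = b
      · subst hyb; exact hbw'
      exact (hwadj y hy hyb hya).symm
    have he := (h.link1 hwW).eq_of_subset (h.link1 hv) hsub
    have hs := h.eq_susp hv hwW (mem_non.1 hwD).2.1.symm he
    have h2 := hSF v hv
    have h3 : non G W v ⊆ {w} := by
      intro y hy
      rw [mem_non] at hy
      have hyW := hy.1
      rw [hs, mem_insert, mem_insert] at hyW
      rcases hyW with e | e | e
      · exact absurd e hy.2.1
      · exact mem_singleton.2 e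
      · exact absurd (mem_lk1.1 (mem_inter.1 e).2).symm hy.2.2
    have := card_le_card h3
    rw [card_singleton] at this
    omega
  -- the rest M
  have hMdef : ∀ x, x ∈ W ∩ lk G {v} ∩ lk G {a} ↔ x ∈ W ∩ lk G {v} ∧ x ≠ a ∧ x ≠ b := by
    intro x
    rw [mem_inter, mem_lk1]
    constructor
    · rintro ⟨hx, hxa⟩
      refine ⟨hx, hxa.ne, ?_⟩
      rintro rfl
      exact (mem_non.1 hbn).2.2 hxa.symm
    · rintro ⟨hx, hxa, hxb⟩
      refine ⟨hx, ?_⟩
      by_contra hn
      have : x ∈ non G (W ∩ lk G {v}) a := mem_non.2 ⟨hx, hxa, fun e => hn e.symm⟩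
      rw [hb, mem_singleton] at this
      exact hxb this
  have hMb : ∀ x ∈ W ∩ lk G {v} ∩ lk G {a}, G.Adj x b := by
    intro x hx
    rw [hMdef] at hx
    by_contra hn
    have : x ∈ non G (W ∩ lk G {v}) b := mem_non.2 ⟨hx.1, hx.2.2, fun e => hn e.symm⟩
    rw [hba, mem_singleton] at this
    exact hx.2.1 this
  have hMw : ∀ x ∈ W ∩ lk G {v} ∩ lk G {a}, G.Adj x w := by
    intro x hx
    rw [hMdef] at hx
    exact (hwadj x hx.1 hx.2.2 hx.2.1).symm
  have hMw' : ∀ x ∈ W ∩ lk G {v} ∩ lk G {a}, G.Adj x w' := by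
    intro x hx
    rw [hMdef] at hx
    exact (hwadj' x hx.1 hx.2.1 hx.2.2).symm
  have hnMS : ∀ x ∈ W ∩ lk G {v} ∩ lk G {a},
      non G (W ∩ lk G {v}) x = non G (W ∩ lk G {v} ∩ lk G {a}) x := by
    intro x hx
    ext y
    rw [mem_non, mem_non]
    constructor
    · rintro ⟨hy, hyx, hn⟩
      refine ⟨(hMdef y).2 ⟨hy, ?_, ?_⟩, hyx, hn⟩
      · rintro rfl
        exact hn (mem_lk1.1 (mem_inter.1 hx).2)
      · rintro rfl
        exact hn (hMb x hx)
    · rintro ⟨hy, hyx, hn⟩
      exact ⟨(mem_inter.1 hy).1, hyx, hn⟩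
  have hsfM : SF G (W ∩ lk G {v} ∩ lk G {a}) := by
    intro x hx
    have hxS := (mem_inter.1 hx).1
    have h2 := non_link_card hxS
    have h3 := non_sdiff_card W v x (G := G)
    have h4 := hmin x (mem_inter.1 hxS).1
    have h5 : ({w, w'} : Finset V) ⊆ non G W v ∩ lk G {x} := by
      intro y hy
      rw [mem_insert, mem_singleton] at hy
      rcases hy with rfl | rfl
      · exact mem_inter.2 ⟨hwD, mem_lk1.2 (hMw x hx).symm⟩
      · exact mem_inter.2 ⟨hwD', mem_lk1.2 (hMw' x hx).symm⟩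
    have h6 := card_le_card h5
    rw [card_pair hne'] at h6
    rw [hnMS x hx] at h2
    omega
  have hn2 : 2 ≤ n := by
    have h2 := hSs.pos ha
    omega
  have hcard : W.card = (non G W v).card + 3 + (W ∩ lk G {v} ∩ lk G {a}).card := by
    have h2 := card_split (G := G) hv
    have h3 := card_split (G := G) ha
    rw [hb, card_singleton] at h3
    omega
  refine ⟨a, b, w, w', W ∩ lk G {v} ∩ lk G {a}, ?_⟩
  refine ⟨ha, hbS, hwD, hwD', hne', hna, hnb, hnw, hnw', haw, hbw', ?_, ?_, ?_, hMb, hMw, hMw',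
    hsfM, ?_, hn2, hcard, ?_⟩
  · intro x
    rw [hMdef]
    constructor
    · intro hx
      by_cases hxv : x = v
      · exact Or.inl hxv
      by_cases hvx : G.Adj v x
      · have hxS : x ∈ W ∩ lk G {v} := mem_inter.2 ⟨hx, mem_lk1.2 hvx.symm⟩
        by_cases hxa : x = a
        · exact Or.inr (Or.inl hxa)
        by_cases hxb : x = b
        · exact Or.inr (Or.inr (Or.inl hxb))
        exact Or.inr (Or.inr (Or.inr (Or.inr ⟨hxS, hxa, hxb⟩)))
      · exact Or.inr (Or.inr (Or.inr (Or.inl (mem_non.2 ⟨hx, hxv, hvx⟩))))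
    · rintro (rfl | rfl | rfl | hx | hx)
      · exact hv
      · exact hWa.1
      · exact hWb.1
      · exact (mem_non.1 hx).1
      · exact (mem_inter.1 hx.1).1
  · intro x hx
    exact mem_lk1.1 (mem_inter.1 (mem_inter.1 hx).1).2
  · intro x hx
    exact mem_lk1.1 (mem_inter.1 hx).2
  · have := hSs.link1 ha
    rwa [Nat.sub_sub] at this
  · intro x hx
    rw [non_link_eq (mem_inter.1 hx).1, hnMS x hx]

end Pool.Agent.Lib.MP_fd533b_co
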