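import Mathlib
import Pool.Agent.Lib.MP_fd533b_co.MinDeg

/-! `2 f_0 ≥ 5 n` for spheres without a unique non-neighbour, and the near-equality cases. -/

set_option linter.unusedSectionVars false
set_option linter.style.longLine false

namespace Pool.Agent.Lib.MP_fd533b_co

open Finset

variable {V : Type*} [Fintype V] [DecidableEq V] {G : SimpleGraph V} [DecidableRel G.Adj]

lemma exists_min {W : Finset V} (hW : W.Nonempty) :
    ∃ v ∈ W, ∀ x ∈ W, (non G W v).card ≤ (non G W x).card :=
  exists_min_image W (fun v => (non G W v).card) hW

lemma sf_empty : SF G (∅ : Finset V) := by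
  intro x hx
  simp at hx

/-- In the case of a suspension pair in the link of `v`, `w` has at most one neighbour among
the non-neighbours of `v`. -/
lemma Data.adj_le {W : Finset V} {n : ℕ} {v a b w w' : V} {M : Finset V}
    (hmin : ∀ x ∈ W, (non G W v).card ≤ (non G W x).card)
    (d : Data G W n v a b w w' M) : ((non G W v).filter (fun y => G.Adj w y)).card ≤ 1 := by
  have hwW := (mem_non.1 d.hw).1
  have h1 := hmin w hwW
  have h2 : non G W w ⊆ insert v (insert b (((non G W v).erase w).filter (fun y => ¬ G.Adj w y))) := by
    intro y hy
    have h3 := d.nw hy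
    rw [mem_insert, mem_insert] at h3 ⊢
    rcases h3 with e | e | e
    · exact Or.inl e
    · exact Or.inr (Or.inl e)
    · exact Or.inr (Or.inr (mem_filter.2 ⟨e, (mem_non.1 hy).2.2⟩))
  have h3 := card_le_card h2
  have h4 := card_insert_le v (insert b (((non G W v).erase w).filter (fun y => ¬ G.Adj w y)))
  have h5 := card_insert_le b (((non G W v).erase w).filter (fun y => ¬ G.Adj w y))
  have h6 := card_filter_add_card_filter_not (s := (non G W v).erase w) (fun y => G.Adj w y)
  have h7 := card_erase_add_one d.hw
  have h8 : (non G W v).filter (fun y => G.Adj w y) = ((non G W v).erase w).filter (fun y => G.Adj w y) := by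
    ext y
    rw [mem_filter, mem_filter, mem_erase]
    constructor
    · rintro ⟨h, h'⟩
      exact ⟨⟨h'.ne.symm, h⟩, h'⟩
    · rintro ⟨⟨-, h⟩, h'⟩
      exact ⟨h, h'⟩
  rw [h8]
  omega

lemma Data.symm {W : Finset V} {n : ℕ} {v a b w w' : V} {M : Finset V}
    (d : Data G W n v a b w w' M) : Data G W n v b a w' w M where
  ha := d.hb
  hb := d.ha
  hw := d.hw'
  hw' := d.hw
  ne := d.ne.symm
  na := d.nb
  nb := d.na
  nw := d.nw'
  nw' := d.nw
  aw := d.bw'
  bw' := d.aw
  hM := by
    intro x
    rw [d.hM]
    tauto
  Mv := d.Mv
  Ma := d.Mb
  Mb := d.Ma
  Mw := d.Mw'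
  Mw' := d.Mw
  sfM := d.sfM
  sph := d.sph
  two := d.two
  card := d.card
  nM := d.nM

/-- If `v` has exactly two non-neighbours, `w` and `w'` are joined. -/
lemma Data.adj_ww {W : Finset V} {n : ℕ} (h : Sph G W n) {v a b w w' : V} {M : Finset V}
    (d : Data G W n v a b w w' M) (h2 : (non G W v).card = 2) : G.Adj w w' := by
  by_contra hn
  have hD : non G W v = {w, w'} := by
    symm
    refine eq_of_subset_of_card_le ?_ ?_
    · intro y hy
      rw [mem_insert, mem_singleton] at hy
      rcases hy with rfl | rfl
      · exact d.hw
      · exact d.hw'
    · rw [h2, card_pair d.ne]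
  have hwW := (mem_non.1 d.hw).1
  have hL := h.link1 hwW
  have haW := (mem_inter.1 d.ha).1
  have haL : a ∈ W ∩ lk G {w} := mem_inter.2 ⟨haW, mem_lk1.2 d.aw⟩
  obtain ⟨y, hy⟩ := hL.non_nonempty haL
  rw [mem_non, mem_inter, mem_lk1] at hy
  obtain ⟨⟨hyW, hyw⟩, hya, hna⟩ := hy
  rw [d.hM] at hyW
  rcases hyW with rfl | rfl | rfl | hyD | hyM
  · exact (mem_non.1 d.hw).2.2 hyw
  · exact hya rfl
  · have h3 := d.nb
    have h4 : w ∈ non G W y := by
      rw [h3, mem_insert, mem_erase]
      exact Or.inr ⟨d.ne, d.hw⟩
    exact (mem_non.1 h4).2.2 hyw
  · rw [hD, mem_insert, mem_singleton] at hyD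
    rcases hyD with rfl | rfl
    · exact G.loopless.irrefl y hyw
    · exact hn hyw.symm
  · exact hna (d.Ma y hyM).symm

lemma Data.nonM {W : Finset V} {n : ℕ} {v a b w w' : V} {M : Finset V}
    (d : Data G W n v a b w w' M) (h2 : (non G W v).card = 2) {x : V} (hx : x ∈ M) :
    non G W x = non G M x := by
  have hD : non G W v = {w, w'} := by
    symm
    refine eq_of_subset_of_card_le ?_ ?_
    · intro y hy
      rw [mem_insert, mem_singleton] at hy
      rcases hy with rfl | rfl
      · exact d.hw
      · exact d.hw'
    · rw [h2, card_pair d.ne]
  rw [d.nM x hx, hD]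
  have : ({w, w'} : Finset V) \ lk G {x} = ∅ := by
    rw [sdiff_eq_empty_iff_subset]
    intro y hy
    rw [mem_insert, mem_singleton] at hy
    rw [mem_lk1]
    rcases hy with rfl | rfl
    · exact (d.Mw x hx).symm
    · exact (d.Mw' x hx).symm
  rw [this, union_empty]

lemma Data.nonw {W : Finset V} {n : ℕ} {v a b w w' : V} {M : Finset V}
    (d : Data G W n v a b w w' M) (h2 : (non G W v).card = 2) :
    non G W w ⊆ {v, b, w'} := by
  have hD : non G W v = {w, w'} := by
    symm
    refine eq_of_subset_of_card_le ?_ ?_
    · intro y hy
      rw [mem_insert, mem_singleton] at hy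
      rcases hy with rfl | rfl
      · exact d.hw
      · exact d.hw'
    · rw [h2, card_pair d.ne]
  intro y hy
  have := d.nw hy
  rw [hD, mem_insert, mem_insert, mem_erase, mem_insert, mem_singleton] at this
  rw [mem_insert, mem_insert, mem_singleton]
  tauto

theorem bound : ∀ (n : ℕ) (W : Finset V), Sph G W n → SF G W →
    5 * n ≤ 2 * W.card ∧ (2 * W.card = 5 * n → ∀ x ∈ W, (non G W x).card = 2) ∧
    (2 * W.card = 5 * n + 1 → (W.filter (fun x => 4 ≤ (non G W x).card)).card ≤ 2) := by
  intro n
  induction n using Nat.strong_induction_on with
  | _ n ih =>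
    intro W h hSF
    rcases Nat.eq_zero_or_pos n with rfl | hn
    · rw [h.zero]
      simp
    obtain ⟨v, hv, hmin⟩ := exists_min (G := G) (h.nonempty hn)
    have hm := hSF v hv
    rcases mindeg h hSF hv hmin with hS | ⟨a, b, w, w', M, d⟩
    · obtain ⟨i1, i2, i3⟩ := ih (n - 1) (by omega) _ (h.link1 hv) hS
      have hc := card_split (G := G) hv
      refine ⟨by omega, fun e => by omega, fun e => ?_⟩
      have hm2 : (non G W v).card = 2 := by omega
      have i4 := i2 (by omega)
      refine le_trans (card_le_card (t := non G W v) ?_) (by omega)
      intro x hx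
      rw [mem_filter] at hx
      by_contra hxn
      by_cases hxv : x = v
      · subst hxv
        omega
      have hxS : x ∈ W ∩ lk G {v} := by
        refine mem_inter.2 ⟨hx.1, mem_lk1.2 ?_⟩
        by_contra hna
        exact hxn (mem_non.2 ⟨hx.1, hxv, fun e' => hna e'.symm⟩)
      have h1 := non_link_card hxS
      have h2 := non_sdiff_card W v x (G := G)
      have h3 := card_pos.2 (h.T_nonempty hv hxS)
      have h4 := i4 x hxS
      omega
    · have htwo := d.two
      obtain ⟨i1, i2, i3⟩ := ih (n - 2) (by omega) _ d.sph d.sfM
      have hc := d.card
      have hca : (non G W a).card ≤ (non G W v).card := by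
        rw [d.na]
        have h1 := card_insert_le b ((non G W v).erase w)
        have h2 := card_erase_add_one d.hw
        omega
      have hcb : (non G W b).card ≤ (non G W v).card := by
        rw [d.nb]
        have h1 := card_insert_le a ((non G W v).erase w')
        have h2 := card_erase_add_one d.hw'
        omega
      refine ⟨by omega, fun e => ?_, fun e => ?_⟩
      · have hm2 : (non G W v).card = 2 := by omega
        have i4 := i2 (by omega)
        have hww := d.adj_ww h hm2
        have hw2 : (non G W w).card ≤ 2 := by
          have h1 : non G W w ⊆ {v, b} := by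
            intro y hy
            have h2 := d.nonw hm2 hy
            rw [mem_insert, mem_insert, mem_singleton] at h2
            rw [mem_insert, mem_singleton]
            rcases h2 with e1 | e1 | e1
            · exact Or.inl e1
            · exact Or.inr e1
            · subst e1
              exact absurd hww (mem_non.1 hy).2.2
          exact le_trans (card_le_card h1) card_le_two
        have hw2' : (non G W w').card ≤ 2 := by
          have h1 : non G W w' ⊆ {v, a} := by
            intro y hy
            have h2 := d.symm.nonw hm2 hy
            rw [mem_insert, mem_insert, mem_singleton] at h2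
            rw [mem_insert, mem_singleton]
            rcases h2 with e1 | e1 | e1
            · exact Or.inl e1
            · exact Or.inr e1
            · subst e1
              exact absurd hww.symm (mem_non.1 hy).2.2
          exact le_trans (card_le_card h1) card_le_two
        intro x hx
        have hx2 := hSF x hx
        refine le_antisymm ?_ hx2
        rw [d.hM] at hx
        rcases hx with rfl | rfl | rfl | hxD | hxM
        · omega
        · omega
        · omega
        · have hD : non G W v = {w, w'} := by
            symm
            refine eq_of_subset_of_card_le ?_ ?_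
            · intro y hy
              rw [mem_insert, mem_singleton] at hy
              rcases hy with rfl | rfl
              · exact d.hw
              · exact d.hw'
            · rw [hm2, card_pair d.ne]
          rw [hD, mem_insert, mem_singleton] at hxD
          rcases hxD with rfl | rfl
          · exact hw2
          · exact hw2'
        · rw [d.nonM hm2 hxM, i4 x hxM]
      · have hm2 : (non G W v).card = 2 := by omega
        have i5 := i3 (by omega)
        refine le_trans (card_le_card ?_) i5
        intro x hx
        rw [mem_filter] at hx ⊢
        obtain ⟨hxW, hx4⟩ := hx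
        rw [d.hM] at hxW
        rcases hxW with rfl | rfl | rfl | hxD | hxM
        · omega
        · omega
        · omega
        · exfalso
          have hD : non G W v = {w, w'} := by
            symm
            refine eq_of_subset_of_card_le ?_ ?_
            · intro y hy
              rw [mem_insert, mem_singleton] at hy
              rcases hy with rfl | rfl
              · exact d.hw
              · exact d.hw'
            · rw [hm2, card_pair d.ne]
          rw [hD, mem_insert, mem_singleton] at hxD
          rcases hxD with rfl | rfl
          · have h1 := card_le_card (d.nonw hm2)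
            have h2 : ({v, b, w'} : Finset V).card ≤ 3 := card_le_three
            omega
          · have h1 := card_le_card (d.symm.nonw hm2)
            have h2 : ({v, a, w} : Finset V).card ≤ 3 := card_le_three
            omega
        · refine ⟨hxM, ?_⟩
          rw [← d.nonM hm2 hxM]
          exact hx4

end Pool.Agent.Lib.MP_fd533b_co
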