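import Mathlib
import Pool.Agent.Lib.MP_fd533b_co.Bound

/-! The Charney-Davis inequality for spheres with at most `5 k + 3` vertices. -/

set_option linter.unusedSectionVars false
set_option linter.style.longLine false

namespace Pool.Agent.Lib.MP_fd533b_co

open Finset

variable {V : Type*} [Fintype V] [DecidableEq V] {G : SimpleGraph V} [DecidableRel G.Adj]

lemma Sph.eulerOn {W : Finset V} {n : ℕ} (h : Sph G W n) : EulerOn G W n := by
  intro s hs
  rw [h.eul s hs]
  obtain ⟨c, hc⟩ := Nat.exists_eq_add_of_le (h.le s hs)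
  rw [hc, show s.card + c - s.card = c by omega, show s.card + c + s.card = c + 2 * s.card by ring,
    pow_add, pow_mul]
  norm_num

lemma Sph.lam_odd {W : Finset V} {n : ℕ} (h : Sph G W n) (hn : Odd n) : lam G W = 0 :=
  lam_eq_zero h.eulerOn hn

lemma lam_formula {W : Finset V} {n : ℕ} (h : Sph G W n) (hn : Even n) {v : V} (hv : v ∈ W) :
    lam G W = - ∑ s ∈ (faces G (non G W v)).erase ∅,
      (1 / 2 : ℚ) ^ s.card * lam G (W ∩ lk G s) := by
  have hsub : insert v (non G W v) ⊆ W := insert_subset hv (filter_subset _ _)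
  have h1 := lam_sdiff (G := G) hsub
  have hS : W \ insert v (non G W v) = W ∩ lk G {v} := by
    ext x
    rw [mem_sdiff, mem_insert, mem_non, mem_inter, mem_lk1]
    constructor
    · rintro ⟨hx, hn⟩
      refine ⟨hx, ?_⟩
      by_contra hna
      refine hn (Or.inr ⟨hx, fun e => hn (Or.inl e), fun e => hna e.symm⟩)
    · rintro ⟨hx, ha⟩
      refine ⟨hx, ?_⟩
      rintro (rfl | e)
      · exact G.loopless.irrefl x ha
      · exact e.2.2 ha.symm
  have hodd : Odd (n - 1) := by
    have := h.pos hv
    obtain ⟨c, hc⟩ := hn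
    exact ⟨c - 1, by omega⟩
  have h0 : lam G (W ∩ lk G {v}) = 0 := (h.link1 hv).lam_odd hodd
  have hf : faces G (insert v (non G W v)) = insert {v} (faces G (non G W v)) := by
    ext s
    rw [mem_insert]
    constructor
    · intro hs
      by_cases hvs : v ∈ s
      · left
        rw [mem_faces] at hs
        ext x
        rw [mem_singleton]
        constructor
        · intro hx
          by_contra hxv
          have h2 := hs.1 hx
          rw [mem_insert] at h2
          rcases h2 with e | e
          · exact hxv e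
          · exact (mem_non.1 e).2.2 (hs.2 v hvs x hx (fun e => hxv e.symm))
        · rintro rfl
          exact hvs
      · right
        rw [mem_faces] at hs ⊢
        refine ⟨?_, hs.2⟩
        intro x hx
        have h2 := hs.1 hx
        rw [mem_insert] at h2
        rcases h2 with rfl | e
        · exact absurd hx hvs
        · exact e
    · rintro (rfl | hs)
      · exact single_mem_faces (mem_insert_self _ _)
      · exact faces_mono (subset_insert _ _) hs
  have hvn : ({v} : Finset V) ∉ faces G (non G W v) := by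
    intro hh
    have h2 := (mem_faces.1 hh).1 (mem_singleton_self v)
    exact (mem_non.1 h2).2.1 rfl
  rw [hS, h0, hf, sum_insert hvn, h0, mul_zero, zero_add,
    ← add_sum_erase _ _ (empty_mem_faces (non G W v)), card_empty, pow_zero, one_mul, lk_empty,
    inter_univ] at h1
  linarith

lemma neg_one_pow_pred {k : ℕ} (hk : 1 ≤ k) : (-1 : ℚ) ^ k = - (-1) ^ (k - 1) := by
  obtain ⟨c, rfl⟩ := Nat.exists_eq_add_of_le hk
  rw [show 1 + c - 1 = c by omega, pow_add]
  ring

lemma non_subset (W : Finset V) (v : V) : non G W v ⊆ W := filter_subset _ _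

lemma Sph.term_odd {W : Finset V} {k : ℕ} (h : Sph G W (2 * k)) {s : Finset V}
    (hs : s ∈ faces G W) (ho : Odd s.card) : lam G (W ∩ lk G s) = 0 := by
  refine (h.link hs).lam_odd ?_
  have := h.le s hs
  obtain ⟨c, hc⟩ := ho
  exact ⟨k - c - 1, by omega⟩

/-- A vertex whose non-neighbours contain no `4`-clique. -/
lemma cd_good {k : ℕ} {W : Finset V} (h : Sph G W (2 * k)) (hk : 1 ≤ k) {v : V} (hv : v ∈ W)
    (hD : ∀ s ∈ faces G (non G W v), s.card < 4)
    (hE : ∀ s ∈ faces G (non G W v), s.card = 2 →
      0 ≤ (-1 : ℚ) ^ (k - 1) * lam G (W ∩ lk G s)) :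
    0 ≤ (-1 : ℚ) ^ k * lam G W := by
  rw [lam_formula h (even_two_mul k) hv, mul_neg, ← neg_mul, neg_one_pow_pred hk, neg_neg, mul_sum]
  refine sum_nonneg ?_
  intro s hs
  rw [mem_erase] at hs
  obtain ⟨hs0, hs⟩ := hs
  have hsW : s ∈ faces G W := faces_mono (non_subset W v) hs
  have h1 := hD s hs
  have h2 : 0 < s.card := card_pos.2 (nonempty_iff_ne_empty.2 hs0)
  rcases Nat.even_or_odd s.card with he | ho
  · have h3 : s.card = 2 := by
      obtain ⟨c, hc⟩ := he
      omega
    have h4 := hE s hs h3
    rw [h3]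
    have : (-1 : ℚ) ^ (k - 1) * ((1 / 2) ^ 2 * lam G (W ∩ lk G s)) =
        (1 / 4) * ((-1 : ℚ) ^ (k - 1) * lam G (W ∩ lk G s)) := by ring
    rw [this]
    exact mul_nonneg (by norm_num) h4
  · rw [h.term_odd hsW ho]
    simp

/-- The link of an edge misses at least five vertices. -/
lemma edge_count {W : Finset V} {n : ℕ} (h : Sph G W n) (hSF : SF G W) {s : Finset V}
    (hs : s ∈ faces G W) (h2 : s.card = 2) : (W ∩ lk G s).card + 5 ≤ W.card := by
  obtain ⟨x, y, hxy, rfl⟩ := card_eq_two.1 h2
  rw [mem_faces] at hs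
  have hx : x ∈ W := hs.1 (by simp)
  have hy : y ∈ W := hs.1 (by simp)
  have hadj : G.Adj x y := hs.2 x (by simp) y (by simp) hxy
  obtain ⟨z, hz⟩ := h.T_nonempty hy (mem_inter.2 ⟨hx, mem_lk1.2 hadj⟩)
  rw [mem_inter, mem_non, mem_lk1] at hz
  obtain ⟨⟨hzW, hzy, hyz⟩, hzx⟩ := hz
  have hx2 := hSF x hx
  have hzn : z ∉ non G W x := by
    rw [mem_non]
    rintro ⟨-, -, h4⟩
    exact h4 hzx.symm
  have hyn : y ∉ insert z (non G W x) := by
    rw [mem_insert, mem_non]
    rintro (e | e)
    · exact hzy e.symm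
    · exact e.2.2 hadj
  have hxn : x ∉ insert y (insert z (non G W x)) := by
    rw [mem_insert, mem_insert, mem_non]
    rintro (e | e | e)
    · exact hxy e
    · subst e
      exact G.loopless.irrefl _ hzx
    · exact e.2.1 rfl
  have hsub : insert x (insert y (insert z (non G W x))) ⊆ W :=
    insert_subset hx (insert_subset hy (insert_subset hzW (non_subset W x)))
  have hdis : Disjoint (W ∩ lk G {x, y}) (insert x (insert y (insert z (non G W x)))) := by
    rw [Finset.disjoint_left]
    intro u hu hu'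
    rw [mem_inter, mem_lk] at hu
    have hux := hu.2 x (by simp)
    have huy := hu.2 y (by simp)
    rw [mem_insert, mem_insert, mem_insert, mem_non] at hu'
    rcases hu' with rfl | rfl | rfl | e
    · exact G.loopless.irrefl _ hux
    · exact G.loopless.irrefl _ huy
    · exact hyz huy.symm
    · exact e.2.2 hux.symm
  have hc := card_le_card (union_subset (inter_subset_left (s₁ := W) (s₂ := lk G {x, y})) hsub)
  rw [card_union_of_disjoint hdis, card_insert_of_notMem hxn, card_insert_of_notMem hyn,
    card_insert_of_notMem hzn] at hc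
  omega

lemma Sph.lam_two {C : Finset V} (h : Sph G C 2) : lam G C = 1 - (C.card : ℚ) / 4 := by
  have h1 := h.eul ∅ (empty_mem_faces _)
  rw [lk_empty, inter_univ, card_empty] at h1
  have h1' : ∑ t ∈ faces G C, (-1 : ℚ) ^ t.card = 1 := by
    have : ((∑ t ∈ faces G C, (-1 : ℤ) ^ t.card : ℤ) : ℚ) = 1 := by rw [h1]; norm_num
    push_cast at this
    exact this
  have h2 : ∑ t ∈ faces G C, ((-1 / 2 : ℚ) ^ t.card - (1 / 4) * (-1) ^ t.card) =
      ∑ t ∈ faces G C, ((if t = ∅ then (3 / 4 : ℚ) else 0) + (if t.card = 1 then (-1 / 4 : ℚ) else 0)) := by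
    refine sum_congr rfl ?_
    intro t ht
    have h3 := h.le t ht
    interval_cases hc : t.card
    · have : t = ∅ := card_eq_zero.1 hc
      simp [this]
      norm_num
    · have : t ≠ ∅ := by
        rintro rfl
        simp at hc
      simp [this]
      norm_num
    · have : t ≠ ∅ := by
        rintro rfl
        simp at hc
      simp [this]
      norm_num
  have h4 : ∑ t ∈ faces G C, (if t.card = 1 then (-1 / 4 : ℚ) else 0) = -(C.card : ℚ) / 4 := by
    rw [← sum_filter]
    have h5 : (faces G C).filter (fun t => t.card = 1) = C.image (fun x => ({x} : Finset V)) := by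
      ext t
      rw [mem_filter, mem_image]
      constructor
      · rintro ⟨ht, hc⟩
        obtain ⟨x, rfl⟩ := card_eq_one.1 hc
        exact ⟨x, singleton_subset_iff.1 (mem_faces.1 ht).1, rfl⟩
      · rintro ⟨x, hx, rfl⟩
        exact ⟨single_mem_faces hx, card_singleton x⟩
    rw [h5, sum_const, card_image_of_injective _ singleton_injective]
    rw [nsmul_eq_mul]
    ring
  have h6 : ∑ t ∈ faces G C, (if t = ∅ then (3 / 4 : ℚ) else 0) = 3 / 4 := by
    rw [sum_ite_eq' (faces G C) ∅ (fun _ => (3 / 4 : ℚ)), if_pos (empty_mem_faces _)]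
  rw [sum_sub_distrib, ← mul_sum, h1', sum_add_distrib, h4, h6] at h2
  have h7 : lam G C = ∑ t ∈ faces G C, (-1 / 2 : ℚ) ^ t.card := rfl
  rw [h7]
  linarith

end Pool.Agent.Lib.MP_fd533b_co
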