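import Mathlib
import Pool.Agent.Lib.MP_fd533b_co.Few

/-! The Charney-Davis inequality for spheres with at most `5 k + 3` vertices: main induction. -/

set_option linter.unusedSectionVars false
set_option linter.style.longLine false

namespace Pool.Agent.Lib.MP_fd533b_co

open Finset

variable {V : Type*} [Fintype V] [DecidableEq V] {G : SimpleGraph V} [DecidableRel G.Adj]

/-- In rank 4, if the non-neighbours of `v` form a `4`-clique, some edge of it has a link
with at least five vertices. -/
lemma long_edge {W : Finset V} (h : Sph G W 4) {v : V} (hv : v ∈ W)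
    (hD : non G W v ∈ faces G W) (hc : (non G W v).card = 4) :
    ∃ s ⊆ non G W v, s.card = 2 ∧ 5 ≤ (W ∩ lk G s).card := by
  by_contra hcon
  push Not at hcon
  have hDW := mem_faces.1 hD
  have key : ∀ d ∈ non G W v, ∃ y ∈ W, G.Adj y v ∧ ¬ G.Adj y d ∧ y ≠ d ∧
      ∀ e ∈ non G W v, e ≠ d → G.Adj y e := by
    intro d hd
    have hdW := (mem_non.1 hd).1
    have hρ : (non G W v).erase d ∈ faces G W := subset_mem_faces hD (erase_subset _ _)
    have hρc : ((non G W v).erase d).card = 3 := by rw [card_erase_of_mem hd, hc]
    have hL := h.link hρ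
    rw [hρc] at hL
    have hL1 : Sph G (W ∩ lk G ((non G W v).erase d)) 1 := hL
    have hdL : d ∈ W ∩ lk G ((non G W v).erase d) := by
      refine mem_inter.2 ⟨hdW, mem_lk.2 ?_⟩
      intro x hx
      rw [mem_erase] at hx
      exact hDW.2 d hd x hx.2 hx.1.symm
    obtain ⟨y, hy⟩ := hL1.non_nonempty hdL
    rw [mem_non, mem_inter, mem_lk] at hy
    obtain ⟨⟨hyW, hyl⟩, hyd, hna⟩ := hy
    have hne : ((non G W v).erase d).Nonempty := by
      rw [← card_pos, hρc]
      norm_num
    have hyv : y ≠ v := by
      rintro rfl
      obtain ⟨z, hz⟩ := hne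
      exact (mem_non.1 (mem_erase.1 hz).2).2.2 (hyl z hz)
    refine ⟨y, hyW, ?_, fun e => hna e.symm, hyd, ?_⟩
    · by_contra hyv'
      have hyD : y ∈ non G W v := mem_non.2 ⟨hyW, hyv, fun e => hyv' e.symm⟩
      exact hna (hDW.2 d hd y hyD hyd.symm)
    · intro e he hed
      exact hyl e (mem_erase.2 ⟨hed, he⟩)
  choose! y hyW hyv hyd hyne hye using key
  have hyinj : ∀ d ∈ non G W v, ∀ e ∈ non G W v, d ≠ e → y d ≠ y e := by
    intro d hd e he hde heq
    have := hye e he d hd hde
    rw [← heq] at this
    exact hyd d hd this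
  have hadj : ∀ d ∈ non G W v, ∀ e ∈ non G W v, d ≠ e → G.Adj (y d) (y e) := by
    intro d hd e he hde
    have hs : (((non G W v).erase d).erase e) ⊆ non G W v :=
      (erase_subset _ _).trans (erase_subset _ _)
    have hsc : (((non G W v).erase d).erase e).card = 2 := by
      rw [card_erase_of_mem (mem_erase.2 ⟨hde.symm, he⟩), card_erase_of_mem hd, hc]
    have hC := hcon _ hs hsc
    have hL := h.link (subset_mem_faces hD hs)
    rw [hsc] at hL
    have hL2 : Sph G (W ∩ lk G (((non G W v).erase d).erase e)) 2 := hL
    have hmem : ∀ x ∈ W, (∀ z ∈ non G W v, z ≠ d → z ≠ e → G.Adj x z) →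
        x ∈ W ∩ lk G (((non G W v).erase d).erase e) := by
      intro x hx hz
      refine mem_inter.2 ⟨hx, mem_lk.2 ?_⟩
      intro z hz'
      rw [mem_erase, mem_erase] at hz'
      exact hz z hz'.2.2 hz'.2.1 hz'.1
    have hdL := hmem d (mem_non.1 hd).1 (fun z hz h1 h2 => hDW.2 d hd z hz h1.symm)
    have heL := hmem e (mem_non.1 he).1 (fun z hz h1 h2 => hDW.2 e he z hz h2.symm)
    have hydL := hmem (y d) (hyW d hd) (fun z hz h1 h2 => hye d hd z hz h1)
    have hyeL := hmem (y e) (hyW e he) (fun z hz h1 h2 => hye e he z hz h2)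
    have hsub : ({d, e, y d, y e} : Finset V) ⊆ W ∩ lk G (((non G W v).erase d).erase e) := by
      intro x hx
      simp only [mem_insert, mem_singleton] at hx
      rcases hx with rfl | rfl | rfl | rfl
      · exact hdL
      · exact heL
      · exact hydL
      · exact hyeL
    have hnD : ∀ d ∈ non G W v, y d ∉ non G W v := by
      intro d hd hh
      exact (mem_non.1 hh).2.2 (hyv d hd).symm
    have h4 : ({d, e, y d, y e} : Finset V).card = 4 := by
      rw [card_insert_of_notMem, card_insert_of_notMem, card_insert_of_notMem, card_singleton]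
      · rw [mem_singleton]
        exact hyinj d hd e he hde
      · simp only [mem_insert, mem_singleton, not_or]
        exact ⟨fun h' => hnD d hd (h' ▸ he), fun h' => hnD e he (h' ▸ he)⟩
      · simp only [mem_insert, mem_singleton, not_or]
        exact ⟨hde, fun h' => hnD d hd (h' ▸ hd), fun h' => hnD e he (h' ▸ hd)⟩
    have heq := eq_of_subset_of_card_le hsub (by omega)
    have hL1 := hL2.link1 hydL
    have hL1c := hL1.one_card
    by_contra hnadj
    have hsub2 : W ∩ lk G (((non G W v).erase d).erase e) ∩ lk G {y d} ⊆ {e} := by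
      intro x hx
      rw [mem_inter, mem_lk1] at hx
      obtain ⟨hx1, hx2⟩ := hx
      rw [← heq] at hx1
      simp only [mem_insert, mem_singleton] at hx1
      rw [mem_singleton]
      rcases hx1 with rfl | rfl | rfl | rfl
      · exact absurd hx2.symm (hyd _ hd)
      · rfl
      · exact absurd hx2 (G.loopless.irrefl _)
      · exact absurd hx2.symm hnadj
    have := card_le_card hsub2
    rw [hL1c, card_singleton] at this
    omega
  -- a 5-clique
  have hvn : v ∉ (non G W v).image y := by
    rw [mem_image]
    rintro ⟨d, hd, hdv⟩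
    have := hyv d hd
    rw [hdv] at this
    exact G.loopless.irrefl v this
  have hcl : insert v ((non G W v).image y) ∈ faces G W := by
    rw [mem_faces]
    refine ⟨insert_subset hv ?_, ?_⟩
    · intro x hx
      rw [mem_image] at hx
      obtain ⟨d, hd, rfl⟩ := hx
      exact hyW d hd
    · intro x hx z hz hxz
      rw [mem_insert, mem_image] at hx hz
      rcases hx with rfl | ⟨d, hd, rfl⟩ <;> rcases hz with rfl | ⟨e, he, rfl⟩
      · exact absurd rfl hxz
      · exact (hyv e he).symm
      · exact hyv d hd
      · exact hadj d hd e he (fun h' => hxz (by rw [h']))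
  have hcard : (insert v ((non G W v).image y)).card = 5 := by
    rw [card_insert_of_notMem hvn, card_image_of_injOn, hc]
    intro d hd e he hde
    by_contra hne
    exact hyinj d hd e he hne hde
  have := h.le _ hcl
  omega

lemma lam_empty : lam G (∅ : Finset V) = 1 := by
  simp [lam, faces_empty_eq]

/-- The case `k = 2` with a clique of four non-neighbours. -/
lemma cd_four {W : Finset V} (h : Sph G W 4) {v : V} (hv : v ∈ W)
    (hD : non G W v ∈ faces G W) (hc : (non G W v).card = 4) : 0 ≤ lam G W := by
  have h4 : Sph G W (2 * 2) := h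
  obtain ⟨s0, hs0, hs0c, hs0l⟩ := long_edge h hv hD hc
  rw [lam_formula h (by decide) hv, ← sum_neg_distrib]
  have hterm : ∀ s ∈ faces G (non G W v), s.card = 2 →
      -((1 / 2 : ℚ) ^ s.card * lam G (W ∩ lk G s)) = (((W ∩ lk G s).card : ℚ) - 4) / 16 := by
    intro s hs hs2
    have hL := h.link (faces_mono (non_subset W v) hs)
    rw [hs2] at hL
    have hL2 : Sph G (W ∩ lk G s) 2 := hL
    rw [hL2.lam_two, hs2]
    ring
  have hlink : ∀ s ∈ faces G (non G W v), s.card = 2 → 4 ≤ (W ∩ lk G s).card := by
    intro s hs hs2
    have hL := h.link (faces_mono (non_subset W v) hs)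
    rw [hs2] at hL
    exact hL.two_mul_le
  have hDterm : -((1 / 2 : ℚ) ^ (non G W v).card * lam G (W ∩ lk G (non G W v))) = - 1 / 16 := by
    have hL := h.link hD
    rw [hc] at hL
    have h0 : W ∩ lk G (non G W v) = ∅ := hL.zero
    rw [h0, lam_empty, hc]
    norm_num
  have hs0f : s0 ∈ faces G (non G W v) := by
    rw [mem_faces]
    refine ⟨hs0, ?_⟩
    intro x hx y hy hxy
    exact (mem_faces.1 hD).2 x (hs0 hx) y (hs0 hy) hxy
  have hDf : non G W v ∈ faces G (non G W v) := mem_faces.2 ⟨subset_refl _, (mem_faces.1 hD).2⟩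
  have hne : s0 ≠ non G W v := by
    intro e
    rw [e] at hs0c
    omega
  have hsub : ({s0, non G W v} : Finset (Finset V)) ⊆ (faces G (non G W v)).erase ∅ := by
    intro s hs
    rw [mem_insert, mem_singleton] at hs
    rw [mem_erase]
    rcases hs with rfl | rfl
    · refine ⟨?_, hs0f⟩
      rintro rfl
      simp at hs0c
    · refine ⟨?_, hDf⟩
      intro e
      rw [e] at hc
      simp at hc
  refine le_trans ?_ (sum_le_sum_of_subset_of_nonneg hsub ?_)
  · rw [sum_pair hne, hDterm, hterm s0 hs0f hs0c]
    have : (5 : ℚ) ≤ ((W ∩ lk G s0).card : ℚ) := by exact_mod_cast hs0l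
    linarith
  · intro s hs hs'
    rw [mem_erase] at hs
    rw [mem_insert, mem_singleton, not_or] at hs'
    have hsD := (mem_faces.1 hs.2).1
    have h1 : 0 < s.card := card_pos.2 (nonempty_iff_ne_empty.2 hs.1)
    have h2 : s.card < 4 := by
      rw [← hc]
      exact card_lt_card (Finset.ssubset_iff_subset_ne.2 ⟨hsD, hs'.2⟩)
    rcases Nat.even_or_odd s.card with he | ho
    · have h3 : s.card = 2 := by
        obtain ⟨c, hc'⟩ := he
        omega
      rw [hterm s hs.2 h3]
      have : (4 : ℚ) ≤ ((W ∩ lk G s).card : ℚ) := by exact_mod_cast hlink s hs.2 h3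
      linarith
    · rw [h4.term_odd (faces_mono (non_subset W v) hs.2) ho]
      simp

/-- **Charney-Davis for at most `5 k + 3` vertices.** -/
theorem cd_few : ∀ (k : ℕ) (W : Finset V), Sph G W (2 * k) → W.card ≤ 5 * k + 3 →
    0 ≤ (-1 : ℚ) ^ k * lam G W := by
  intro k
  induction k with
  | zero =>
    intro W h _
    rw [h.zero, lam_empty]
    norm_num
  | succ k ih =>
    intro W h hcard
    have hk : 1 ≤ k + 1 := by omega
    obtain ⟨v0, hv0⟩ := h.nonempty (by omega)
    by_cases hSF : SF G W
    swap
    · -- a suspension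
      unfold SF at hSF
      push Not at hSF
      obtain ⟨v, hv, hv2⟩ := hSF
      refine cd_good h hk hv ?_ ?_
      · intro s hs
        have := card_le_card (mem_faces.1 hs).1
        omega
      · intro s hs hs2
        have := card_le_card (mem_faces.1 hs).1
        omega
    -- edge links
    have hedge : ∀ s ∈ faces G W, s.card = 2 → 0 ≤ (-1 : ℚ) ^ k * lam G (W ∩ lk G s) := by
      intro s hs hs2
      have h1 := edge_count h hSF hs hs2
      have hL := h.link hs
      rw [hs2, show 2 * (k + 1) - 2 = 2 * k by omega] at hL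
      exact ih _ hL (by omega)
    by_cases hgood : ∃ v ∈ W, ∀ s ∈ faces G (non G W v), s.card < 4
    · obtain ⟨v, hv, hD⟩ := hgood
      exact cd_good h hk hv hD (fun s hs hs2 => hedge s (faces_mono (non_subset W v) hs) hs2)
    push Not at hgood
    obtain ⟨v, hv, hmin⟩ := exists_min (G := G) (h.nonempty (by omega))
    obtain ⟨κ, hκ, hκ4⟩ := hgood v hv
    have hκD := (mem_faces.1 hκ).1
    have hκc := card_le_card hκD
    rcases mindeg h hSF hv hmin with hS | ⟨a, b, w, w', M, d⟩
    · obtain ⟨b1, -, b3⟩ := bound _ _ (h.link1 hv) hS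
      have hcs := card_split (G := G) hv
      have hD4 : (non G W v).card = 4 := by omega
      have hκeq : κ = non G W v := eq_of_subset_of_card_le hκD (by omega)
      have hDf : non G W v ∈ faces G W := by
        rw [hκeq] at hκ
        exact faces_mono (non_subset W v) hκ
      have hle := h.le _ hDf
      have b4 := b3 (by omega)
      have hL := h.link hDf
      rw [hD4] at hL
      have hL2 := hL.two_mul_le
      have hLsub : W ∩ lk G (non G W v) ⊆
          (W ∩ lk G {v}).filter (fun x => 4 ≤ (non G (W ∩ lk G {v}) x).card) := by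
        intro x hx
        rw [mem_inter, mem_lk] at hx
        have hDne : (non G W v).Nonempty := by
          rw [← card_pos]
          omega
        have hxS : x ∈ W ∩ lk G {v} := by
          refine mem_inter.2 ⟨hx.1, mem_lk1.2 ?_⟩
          by_contra hna
          obtain ⟨z, hz⟩ := hDne
          by_cases hxv : x = v
          · subst hxv
            exact (mem_non.1 hz).2.2 (hx.2 z hz)
          · have : x ∈ non G W v := mem_non.2 ⟨hx.1, hxv, fun e => hna e.symm⟩
            exact G.loopless.irrefl x (hx.2 x this)
        rw [mem_filter]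
        refine ⟨hxS, ?_⟩
        have h1 := non_link_card hxS
        have h2 := hmin x hx.1
        have h3 : non G W v \ lk G {x} = ∅ := by
          rw [sdiff_eq_empty_iff_subset]
          intro z hz
          exact mem_lk1.2 (hx.2 z hz).symm
        rw [h3, card_empty] at h1
        omega
      have hL3 := card_le_card hLsub
      have hk2 : k = 1 := by omega
      subst hk2
      have := cd_four h hv hDf hD4
      norm_num
      exact this
    · exfalso
      obtain ⟨b1, -, -⟩ := bound _ _ d.sph d.sfM
      have hcd := d.card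
      have hn1 : w ∉ κ := by
        intro hwκ
        have h1 := d.adj_le hmin
        have h2 : κ.erase w ⊆ (non G W v).filter (fun y => G.Adj w y) := by
          intro y hy
          rw [mem_erase] at hy
          exact mem_filter.2 ⟨hκD hy.2, (mem_faces.1 hκ).2 w hwκ y hy.2 hy.1.symm⟩
        have h3 := card_le_card h2
        rw [card_erase_of_mem hwκ] at h3
        omega
      have hn2 : w' ∉ κ := by
        intro hwκ
        have h1 := d.symm.adj_le hmin
        have h2 : κ.erase w' ⊆ (non G W v).filter (fun y => G.Adj w' y) := by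
          intro y hy
          rw [mem_erase] at hy
          exact mem_filter.2 ⟨hκD hy.2, (mem_faces.1 hκ).2 w' hwκ y hy.2 hy.1.symm⟩
        have h3 := card_le_card h2
        rw [card_erase_of_mem hwκ] at h3
        omega
      have h6 : insert w (insert w' κ) ⊆ non G W v :=
        insert_subset d.hw (insert_subset d.hw' hκD)
      have h7 := card_le_card h6
      rw [card_insert_of_notMem, card_insert_of_notMem hn2] at h7
      · omega
      · rw [mem_insert, not_or]
        exact ⟨d.ne, hn1⟩

end Pool.Agent.Lib.MP_fd533b_co
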