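import Mathlib
import Pool.Agent.Lib.MP_fd533b_co.Bound

/-! Join-irreducible spheres: a vertex with irreducible link, and `f_0 ≥ 3 n - 1`. -/

set_option linter.unusedSectionVars false
set_option linter.style.longLine false

namespace Pool.Agent.Lib.MP_fd533b_co

open Finset

variable {V : Type*} [Fintype V] [DecidableEq V]

/-- `A` is closed in `W` under taking non-neighbours. -/
def NClosed (G : SimpleGraph V) [DecidableRel G.Adj] (W A : Finset V) : Prop :=
  ∀ x ∈ A, ∀ y ∈ non G W x, y ∈ A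

/-- `W` is nonempty and not a join of two nonempty parts. -/
def Irr (G : SimpleGraph V) [DecidableRel G.Adj] (W : Finset V) : Prop :=
  W.Nonempty ∧ ∀ A ⊆ W, A.Nonempty → NClosed G W A → A = W

/-- The join factor of `S` containing `x`. -/
noncomputable def comp (G : SimpleGraph V) [DecidableRel G.Adj] (S : Finset V) (x : V) : Finset V :=
  (Set.toFinite {y | y ∈ S ∧ ∀ A ⊆ S, x ∈ A → NClosed G S A → y ∈ A}).toFinset

variable {G : SimpleGraph V} [DecidableRel G.Adj]

lemma mem_comp {S : Finset V} {x y : V} :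
    y ∈ comp G S x ↔ y ∈ S ∧ ∀ A ⊆ S, x ∈ A → NClosed G S A → y ∈ A := by
  unfold comp
  rw [Set.Finite.mem_toFinset]
  rfl

lemma comp_subset (S : Finset V) (x : V) : comp G S x ⊆ S := by
  intro y hy
  exact (mem_comp.1 hy).1

lemma self_mem_comp {S : Finset V} {x : V} (hx : x ∈ S) : x ∈ comp G S x :=
  mem_comp.2 ⟨hx, fun _ _ h _ => h⟩

lemma comp_closed (S : Finset V) (x : V) : NClosed G S (comp G S x) := by
  intro y hy z hz
  rw [mem_comp] at hy ⊢
  refine ⟨(mem_non.1 hz).1, ?_⟩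
  intro A hA hxA hc
  exact hc y (hy.2 A hA hxA hc) z hz

lemma comp_irr {S : Finset V} {x : V} (hx : x ∈ S) : Irr G (comp G S x) := by
  refine ⟨⟨x, self_mem_comp hx⟩, ?_⟩
  intro A hA hne hc
  have hAS : A ⊆ S := hA.trans (comp_subset S x)
  have hAc : NClosed G S A := by
    intro y hy z hz
    refine hc y hy z ?_
    have h1 := comp_closed S x y (hA hy) z hz
    rw [mem_non] at hz ⊢
    exact ⟨h1, hz.2⟩
  by_cases hxA : x ∈ A
  · refine subset_antisymm hA ?_
    intro y hy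
    exact (mem_comp.1 hy).2 A hAS hxA hAc
  · exfalso
    obtain ⟨a, ha⟩ := hne
    have h1 : NClosed G S (comp G S x \ A) := by
      intro y hy z hz
      rw [mem_sdiff] at hy ⊢
      refine ⟨comp_closed S x y hy.1 z hz, ?_⟩
      intro hzA
      exact hy.2 (hAc z hzA y (non_symm (comp_subset S x hy.1) hz))
    have h2 := (mem_comp.1 (hA ha)).2 (comp G S x \ A) (sdiff_subset.trans (comp_subset S x))
      (mem_sdiff.2 ⟨self_mem_comp hx, hxA⟩) h1
    exact (mem_sdiff.1 h2).2 ha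

lemma irr_subset_comp {S X : Finset V} {x : V} (hX : Irr G X) (hXS : X ⊆ S) (hx : x ∈ X) :
    X ⊆ comp G S x := by
  have h1 : X ∩ comp G S x = X := by
    refine hX.2 _ inter_subset_left ⟨x, mem_inter.2 ⟨hx, self_mem_comp (hXS hx)⟩⟩ ?_
    intro y hy z hz
    rw [mem_inter] at hy ⊢
    refine ⟨(mem_non.1 hz).1, comp_closed S x y hy.2 z ?_⟩
    rw [mem_non] at hz ⊢
    exact ⟨hXS hz.1, hz.2⟩
  intro y hy
  rw [← h1] at hy
  exact (mem_inter.1 hy).2

/-- If `X` is joined to `U`, `U` contains an edge and every neighbour of `U` is in `X ∪ U`,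
then `W = X ∪ U`. -/
lemma join_closed : ∀ {n : ℕ} {W X U : Finset V}, Sph G W n → X ⊆ W → U ⊆ W →
    (∀ x ∈ X, ∀ u ∈ U, G.Adj x u) → (∃ u ∈ U, ∃ y ∈ U, G.Adj u y) →
    (∀ u ∈ U, ∀ z ∈ W, G.Adj u z → z ∈ X ∪ U) → X ∪ U = W := by
  intro n
  induction n with
  | zero =>
    intro W X U h _ hU _ hp _
    obtain ⟨u, hu, -⟩ := hp
    have := hU hu
    rw [h.zero] at this
    simp at this
  | succ n ih =>
    intro W X U h hX hU hadj hp hcl
    obtain ⟨u0, hu0, y0, hy0, huy⟩ := hp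
    have hn : 1 ≤ n := by
      have := h.le _ (pair_mem_faces (hU hu0) (hU hy0) huy)
      rw [card_pair huy.ne] at this
      omega
    have hcon := h.con ∅ (empty_mem_faces _) (by simp; omega)
    rw [lk_empty, inter_univ] at hcon
    refine hcon.2 _ (union_subset hX hU) ⟨u0, mem_union_right _ hu0⟩ ?_
    intro x hx y hy hxy
    rw [mem_union] at hx
    rcases hx with hx | hx
    · have h1 := ih (h.link1 (hX hx)) (inter_subset_inter_right hX : X ∩ lk G {x} ⊆ W ∩ lk G {x})
        (fun u hu => mem_inter.2 ⟨hU hu, mem_lk1.2 (hadj x hx u hu).symm⟩)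
        (fun z hz u hu => hadj z (mem_inter.1 hz).1 u hu) ⟨u0, hu0, y0, hy0, huy⟩ ?_
      · have : y ∈ W ∩ lk G {x} := mem_inter.2 ⟨hy, mem_lk1.2 hxy.symm⟩
        rw [← h1, mem_union, mem_inter] at this
        rw [mem_union]
        tauto
      · intro u hu z hz huz
        rw [mem_inter] at hz
        have := hcl u hu z hz.1 huz
        rw [mem_union, mem_inter]
        rw [mem_union] at this
        tauto
    · exact hcl x hx y hy hxy

/-- An irreducible sphere of rank at least two has a vertex with irreducible link. -/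
lemma irr_link {n : ℕ} {W : Finset V} (h : Sph G W n) (hn : 2 ≤ n) (hI : Irr G W) :
    ∃ v ∈ W, Irr G (W ∩ lk G {v}) := by
  -- choose `v`, `x0` with the largest factor
  have hne : (W.biUnion (fun v => (W ∩ lk G {v}).image (fun x => (v, x)))).Nonempty := by
    obtain ⟨v, hv⟩ := h.nonempty (by omega)
    obtain ⟨x, hx⟩ := (h.link1 hv).nonempty (by omega)
    exact ⟨(v, x), mem_biUnion.2 ⟨v, hv, mem_image.2 ⟨x, hx, rfl⟩⟩⟩
  obtain ⟨⟨v, x0⟩, hvx, hmax⟩ := exists_max_image _
    (fun p : V × V => (comp G (W ∩ lk G {p.1}) p.2).card) hne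
  have hmem : ∀ v x : V, (v, x) ∈ W.biUnion (fun v => (W ∩ lk G {v}).image (fun x => (v, x))) ↔
      v ∈ W ∧ x ∈ W ∩ lk G {v} := by
    intro v x
    rw [mem_biUnion]
    constructor
    · rintro ⟨w, hw, hx⟩
      rw [mem_image] at hx
      obtain ⟨y, hy, hyx⟩ := hx
      rw [Prod.mk.injEq] at hyx
      obtain ⟨rfl, rfl⟩ := hyx
      exact ⟨hw, hy⟩
    · rintro ⟨hv, hx⟩
      exact ⟨v, hv, mem_image.2 ⟨x, hx, rfl⟩⟩
  rw [hmem] at hvx
  obtain ⟨hv, hx0⟩ := hvx
  refine ⟨v, hv, ?_⟩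
  set X := comp G (W ∩ lk G {v}) x0 with hXdef
  have hXI : Irr G X := comp_irr hx0
  have hXS : X ⊆ W ∩ lk G {v} := comp_subset _ _
  have hXc : NClosed G (W ∩ lk G {v}) X := comp_closed _ _
  by_cases hXeq : X = W ∩ lk G {v}
  · rwa [← hXeq]
  exfalso
  have hmax' : ∀ y ∈ W, ∀ x ∈ W ∩ lk G {y}, (comp G (W ∩ lk G {y}) x).card ≤ X.card := by
    intro y hy x hx
    exact hmax (y, x) ((hmem y x).2 ⟨hy, hx⟩)
  have hXW : X ⊆ W := hXS.trans inter_subset_left
  have hvX : ∀ x ∈ X, G.Adj v x := fun x hx => (mem_lk1.1 (mem_inter.1 (hXS hx)).2).symm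
  -- the attached vertices
  have hA : ∃ a ∈ W, a ∉ X ∧ ∃ x ∈ X, a ∈ non G W x := by
    by_contra hcon
    push Not at hcon
    have hcl : NClosed G W X := by
      intro x hx y hy
      by_contra hyX
      exact hcon y (mem_non.1 hy).1 hyX x hx hy
    have := hI.2 X hXW hXI.1 hcl
    have hvX' : v ∈ X := by rw [this]; exact hv
    exact G.loopless.irrefl v (hvX v hvX')
  classical
  let U := W.filter (fun u => (∀ x ∈ X, G.Adj u x) ∧
    ∀ a ∈ W, a ∉ X → (∃ x ∈ X, a ∈ non G W x) → ¬ G.Adj u a)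
  have hU : ∀ u, u ∈ U ↔ u ∈ W ∧ (∀ x ∈ X, G.Adj u x) ∧
      ∀ a ∈ W, a ∉ X → (∃ x ∈ X, a ∈ non G W x) → ¬ G.Adj u a := by
    intro u
    exact mem_filter
  have hvU : v ∈ U := by
    rw [hU]
    refine ⟨hv, hvX, ?_⟩
    rintro a haW haX ⟨x, hx, hax⟩ hva
    have haS : a ∈ W ∩ lk G {v} := mem_inter.2 ⟨haW, mem_lk1.2 hva.symm⟩
    refine haX (hXc x hx a ?_)
    rw [mem_non] at hax ⊢
    exact ⟨haS, hax.2⟩
  have hUcl : ∀ u ∈ U, ∀ z ∈ W, G.Adj u z → z ∈ X ∪ U := by
    intro u hu z hz huz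
    rw [mem_union]
    by_cases hzX : z ∈ X
    · exact Or.inl hzX
    right
    rw [hU] at hu ⊢
    have hzA : ¬ ∃ x ∈ X, z ∈ non G W x := fun hh => hu.2.2 z hz hzX hh huz
    have hzadj : ∀ x ∈ X, G.Adj z x := by
      intro x hx
      by_contra hna
      refine hzA ⟨x, hx, mem_non.2 ⟨hz, ?_, fun e => hna e.symm⟩⟩
      rintro rfl
      exact hzX hx
    refine ⟨hz, hzadj, ?_⟩
    rintro a haW haX ⟨x, hx, hax⟩ hza
    have hXSz : X ⊆ W ∩ lk G {z} := fun y hy => mem_inter.2 ⟨hXW hy, mem_lk1.2 (hzadj y hy).symm⟩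
    have h1 : X ⊆ comp G (W ∩ lk G {z}) x := irr_subset_comp hXI hXSz hx
    have haS : a ∈ W ∩ lk G {z} := mem_inter.2 ⟨haW, mem_lk1.2 hza.symm⟩
    have h2 : a ∈ comp G (W ∩ lk G {z}) x := by
      refine comp_closed _ _ x (h1 hx) a ?_
      rw [mem_non] at hax ⊢
      exact ⟨haS, hax.2⟩
    have h3 : (insert a X).card ≤ (comp G (W ∩ lk G {z}) x).card :=
      card_le_card (insert_subset h2 h1)
    rw [card_insert_of_notMem haX] at h3
    have h4 := hmax' z hz x (hXSz hx)
    omega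
  have hpair : ∃ u ∈ U, ∃ y ∈ U, G.Adj u y := by
    have hss : X ⊂ W ∩ lk G {v} := Finset.ssubset_iff_subset_ne.2 ⟨hXS, hXeq⟩
    obtain ⟨y, hyS, hyX⟩ := exists_of_ssubset hss
    have hvy : G.Adj v y := (mem_lk1.1 (mem_inter.1 hyS).2).symm
    have := hUcl v hvU y (mem_inter.1 hyS).1 hvy
    rw [mem_union] at this
    exact ⟨v, hvU, y, this.resolve_left hyX, hvy⟩
  have hW := join_closed h hXW (filter_subset _ _) (fun x hx u hu => (((hU u).1 hu).2.1 x hx).symm)
    hpair hUcl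
  obtain ⟨a, haW, haX, x, hx, hax⟩ := hA
  rw [← hW, mem_union] at haW
  rcases haW with haW | haW
  · exact haX haW
  · exact (mem_non.1 hax).2.2 (((hU a).1 haW).2.1 x hx).symm

lemma irr_sf {n : ℕ} {W : Finset V} (h : Sph G W n) (hn : 2 ≤ n) (hI : Irr G W) : SF G W := by
  intro x hx
  by_contra hlt
  have h1 := card_pos.2 (h.non_nonempty hx)
  have h2 : (non G W x).card = 1 := by omega
  obtain ⟨y, hy⟩ := card_eq_one.1 h2
  have hy' := h.non_single hx hy
  have hyW : y ∈ W := by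
    have : y ∈ non G W x := by rw [hy]; exact mem_singleton_self y
    exact (mem_non.1 this).1
  have h3 := hI.2 {x, y} (by
    intro z hz
    rw [mem_insert, mem_singleton] at hz
    rcases hz with rfl | rfl <;> assumption) ⟨x, by simp⟩ (by
    intro z hz u hu
    rw [mem_insert, mem_singleton] at hz ⊢
    rcases hz with rfl | rfl
    · rw [hy, mem_singleton] at hu
      exact Or.inr hu
    · rw [hy', mem_singleton] at hu
      exact Or.inl hu)
  have h4 := h.two_mul_le
  have h5 : ({x, y} : Finset V).card ≤ 2 := card_le_two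
  rw [h3] at h5
  omega

/-- An irreducible sphere of rank `n` has at least `3 n - 1` vertices. -/
theorem three_mul_le : ∀ {n : ℕ} {W : Finset V}, Sph G W n → Irr G W → 3 * n ≤ W.card + 1 := by
  intro n
  induction n with
  | zero => intro W _ _; omega
  | succ n ih =>
    intro W h hI
    rcases Nat.eq_zero_or_pos n with rfl | hn
    · rw [h.one_card]
    · obtain ⟨v, hv, hIv⟩ := irr_link h (by omega) hI
      have h1 := ih (h.link1 hv) hIv
      have h2 := irr_sf h (by omega) hI v hv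
      have h3 := card_split (G := G) hv
      omega

end Pool.Agent.Lib.MP_fd533b_co
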