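import Mathlib
import Pool.Agent.Lib.MP_fd533b_co.Irr
import Pool.Agent.Lib.MP_fd533b_co.FewMain

/-! Joins: ranks and multiplicativity of `λ`. -/

set_option linter.unusedSectionVars false
set_option linter.style.longLine false

namespace Pool.Agent.Lib.MP_fd533b_co

open Finset

variable {V : Type*} [Fintype V] [DecidableEq V] {G : SimpleGraph V} [DecidableRel G.Adj]

/-- A face of `B` of largest size. -/
lemma exists_facet (B : Finset V) : ∃ σ ∈ faces G B, ∀ τ ∈ faces G B, τ.card ≤ σ.card :=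
  exists_max_image _ (fun s : Finset V => s.card) ⟨∅, empty_mem_faces B⟩

lemma link_facet {A B σ : Finset V} (hadj : ∀ a ∈ A, ∀ b ∈ B, G.Adj a b)
    (hσ : σ ∈ faces G B) (hmax : ∀ τ ∈ faces G B, τ.card ≤ σ.card) :
    (A ∪ B) ∩ lk G σ = A := by
  ext x
  rw [mem_inter, mem_union, mem_lk]
  constructor
  · rintro ⟨hx | hx, hl⟩
    · exact hx
    · exfalso
      have hxσ : x ∉ σ := fun hh => G.loopless.irrefl x (hl x hh)
      have h1 : insert x σ ∈ faces G B := by
        rw [mem_faces] at hσ ⊢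
        refine ⟨insert_subset hx hσ.1, ?_⟩
        intro y hy z hz hyz
        rw [mem_insert] at hy hz
        rcases hy with rfl | hy <;> rcases hz with rfl | hz
        · exact absurd rfl hyz
        · exact hl z hz
        · exact (hl y hy).symm
        · exact hσ.2 y hy z hz hyz
      have h2 := hmax _ h1
      rw [card_insert_of_notMem hxσ] at h2
      omega
  · intro hx
    exact ⟨Or.inl hx, fun y hy => hadj x hx y ((mem_faces.1 hσ).1 hy)⟩

/-- The parts of a join which is a sphere are spheres. -/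
lemma join_ranks {n : ℕ} {A B : Finset V} (h : Sph G (A ∪ B) n)
    (hadj : ∀ a ∈ A, ∀ b ∈ B, G.Adj a b) :
    ∃ p q, p + q = n ∧ Sph G A p ∧ Sph G B q := by
  obtain ⟨σ, hσ, hσm⟩ := exists_facet (G := G) B
  obtain ⟨τ, hτ, hτm⟩ := exists_facet (G := G) A
  have h1 := link_facet hadj hσ hσm
  have h2 := link_facet (G := G) (A := B) (B := A) (fun b hb a ha => (hadj a ha b hb).symm) hτ hτm
  rw [union_comm] at h2
  have hσW : σ ∈ faces G (A ∪ B) := faces_mono subset_union_right hσ
  have hτW : τ ∈ faces G (A ∪ B) := faces_mono subset_union_left hτ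
  have hA := h.link hσW
  have hB := h.link hτW
  rw [h1] at hA
  rw [h2] at hB
  have h3 := hA.link hτ
  have h4 : A ∩ lk G τ = ∅ := by
    have := link_facet (G := G) (A := ∅) (B := A) (by simp) hτ hτm
    rwa [empty_union] at this
  rw [h4] at h3
  have h5 : n - σ.card - τ.card = 0 := by
    by_contra hne
    have := h3.nonempty (by omega)
    simp at this
  have h6 := hA.le τ hτ
  have h7 := h.le σ hσW
  refine ⟨n - σ.card, n - τ.card, by omega, hA, hB⟩

lemma lam_join {A B : Finset V} (hadj : ∀ a ∈ A, ∀ b ∈ B, G.Adj a b) :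
    lam G (A ∪ B) = lam G A * lam G B := by
  have hdis : Disjoint A B := by
    rw [Finset.disjoint_left]
    intro x hx hx'
    exact G.loopless.irrefl x (hadj x hx x hx')
  unfold lam
  rw [sum_mul_sum, ← sum_product']
  symm
  refine sum_bij' (fun p _ => p.1 ∪ p.2) (fun r _ => (r ∩ A, r ∩ B)) ?_ ?_ ?_ ?_ ?_
  · rintro ⟨s, t⟩ hst
    rw [mem_product] at hst
    obtain ⟨hs, ht⟩ := hst
    simp only at hs ht ⊢
    rw [mem_faces] at hs ht ⊢
    refine ⟨union_subset_union hs.1 ht.1, ?_⟩
    intro x hx y hy hxy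
    rw [mem_union] at hx hy
    rcases hx with hx | hx <;> rcases hy with hy | hy
    · exact hs.2 x hx y hy hxy
    · exact hadj x (hs.1 hx) y (ht.1 hy)
    · exact (hadj y (hs.1 hy) x (ht.1 hx)).symm
    · exact ht.2 x hx y hy hxy
  · intro r hr
    rw [mem_product]
    rw [mem_faces] at hr
    refine ⟨mem_faces.2 ⟨inter_subset_right, ?_⟩, mem_faces.2 ⟨inter_subset_right, ?_⟩⟩
    · intro x hx y hy
      exact hr.2 x (mem_inter.1 hx).1 y (mem_inter.1 hy).1
    · intro x hx y hy
      exact hr.2 x (mem_inter.1 hx).1 y (mem_inter.1 hy).1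
  · rintro ⟨s, t⟩ hst
    rw [mem_product] at hst
    have hs := (mem_faces.1 hst.1).1
    have ht := (mem_faces.1 hst.2).1
    simp only at hs ht
    simp only [Prod.mk.injEq]
    constructor
    · ext x
      rw [mem_inter, mem_union]
      constructor
      · rintro ⟨h1 | h1, h2⟩
        · exact h1
        · exact absurd (ht h1) (Finset.disjoint_left.1 hdis h2)
      · intro h1
        exact ⟨Or.inl h1, hs h1⟩
    · ext x
      rw [mem_inter, mem_union]
      constructor
      · rintro ⟨h1 | h1, h2⟩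
        · exact absurd h2 (Finset.disjoint_left.1 hdis (hs h1))
        · exact h1
      · intro h1
        exact ⟨Or.inr h1, ht h1⟩
  · intro r hr
    have := (mem_faces.1 hr).1
    simp only
    rw [← inter_union_distrib_left, inter_eq_left.2 this]
  · rintro ⟨s, t⟩ hst
    rw [mem_product] at hst
    have hs := (mem_faces.1 hst.1).1
    have ht := (mem_faces.1 hst.2).1
    simp only at hs ht
    rw [card_union_of_disjoint (disjoint_of_subset_left hs (disjoint_of_subset_right ht hdis)), pow_add]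

lemma exists_split {W : Finset V} (hne : W.Nonempty) (hI : ¬ Irr G W) :
    ∃ A B : Finset V, A ∪ B = W ∧ A.Nonempty ∧ B.Nonempty ∧ ∀ a ∈ A, ∀ b ∈ B, G.Adj a b := by
  unfold Irr at hI
  push Not at hI
  obtain ⟨A, hA, hAne, hAc, hAW⟩ := hI hne
  refine ⟨A, W \ A, union_sdiff_of_subset hA, hAne, ?_, ?_⟩
  · rw [nonempty_iff_ne_empty]
    intro he
    rw [sdiff_eq_empty_iff_subset] at he
    exact hAW (subset_antisymm hA he)
  · intro a ha b hb
    rw [mem_sdiff] at hb
    by_contra hna
    refine hb.2 (hAc a ha b (mem_non.2 ⟨hb.1, ?_, hna⟩))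
    rintro rfl
    exact hb.2 ha

lemma non_join {A B : Finset V} (hadj : ∀ a ∈ A, ∀ b ∈ B, G.Adj a b) {x : V} (hx : x ∈ A) :
    non G (A ∪ B) x = non G A x := by
  ext y
  rw [mem_non, mem_non, mem_union]
  constructor
  · rintro ⟨h1 | h1, h2, h3⟩
    · exact ⟨h1, h2, h3⟩
    · exact absurd (hadj x hx y h1) h3
  · rintro ⟨h1, h2, h3⟩
    exact ⟨Or.inl h1, h2, h3⟩

lemma sf_join_left {A B : Finset V} (hadj : ∀ a ∈ A, ∀ b ∈ B, G.Adj a b)
    (h : SF G (A ∪ B)) : SF G A := by
  intro x hx
  rw [← non_join hadj hx]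
  exact h x (mem_union_left _ hx)

lemma sf_join_right {A B : Finset V} (hadj : ∀ a ∈ A, ∀ b ∈ B, G.Adj a b)
    (h : SF G (A ∪ B)) : SF G B := by
  refine sf_join_left (G := G) (A := B) (B := A) (fun b hb a ha => (hadj a ha b hb).symm) ?_
  rwa [union_comm]

end Pool.Agent.Lib.MP_fd533b_co
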