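import Mathlib
import Pool.Agent.Lib.MP_fd533b_co.Join

/-! A vertex with four non-neighbours forming a clique. -/

set_option linter.unusedSectionVars false
set_option linter.style.longLine false

namespace Pool.Agent.Lib.MP_fd533b_co

open Finset

variable {V : Type*} [Fintype V] [DecidableEq V] {G : SimpleGraph V} [DecidableRel G.Adj]

/-- Lower bound from one pair, if the non-neighbours of `v` contain no `4`-clique. -/
lemma cd_good_ge {k : ℕ} {W : Finset V} (h : Sph G W (2 * k)) (hk : 1 ≤ k) {v : V} (hv : v ∈ W)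
    (hD : ∀ s ∈ faces G (non G W v), s.card < 4)
    (hE : ∀ s ∈ faces G (non G W v), s.card = 2 →
      0 ≤ (-1 : ℚ) ^ (k - 1) * lam G (W ∩ lk G s))
    {f : Finset V} (hf : f ∈ faces G (non G W v)) (hfc : f.card = 2) :
    (1 / 4 : ℚ) * ((-1 : ℚ) ^ (k - 1) * lam G (W ∩ lk G f)) ≤ (-1 : ℚ) ^ k * lam G W := by
  rw [lam_formula h (even_two_mul k) hv, mul_neg, ← neg_mul, neg_one_pow_pred hk, neg_neg, mul_sum]
  have hterm : ∀ s ∈ (faces G (non G W v)).erase ∅,
      0 ≤ (-1 : ℚ) ^ (k - 1) * ((1 / 2) ^ s.card * lam G (W ∩ lk G s)) := by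
    intro s hs
    rw [mem_erase] at hs
    obtain ⟨hs0, hs⟩ := hs
    have hsW : s ∈ faces G W := faces_mono (non_subset W v) hs
    have h1 := hD s hs
    have h2 : 0 < s.card := card_pos.2 (nonempty_iff_ne_empty.2 hs0)
    rcases Nat.even_or_odd s.card with he | ho
    · have h3 : s.card = 2 := by
        obtain ⟨c, hc⟩ := he
        omega
      have h4 := hE s hs h3
      rw [h3]
      have : (-1 : ℚ) ^ (k - 1) * ((1 / 2) ^ 2 * lam G (W ∩ lk G s)) =
          (1 / 4) * ((-1 : ℚ) ^ (k - 1) * lam G (W ∩ lk G s)) := by ring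
      rw [this]
      exact mul_nonneg (by norm_num) h4
    · rw [h.term_odd hsW ho]
      simp
  have hfe : f ∈ (faces G (non G W v)).erase ∅ := by
    rw [mem_erase]
    refine ⟨?_, hf⟩
    rintro rfl
    simp at hfc
  refine le_trans (le_of_eq ?_) (single_le_sum hterm hfe)
  rw [hfc]
  ring

/-- Lower bound if the non-neighbours of `v` form a `4`-clique. -/
lemma cd_clique_ge {k : ℕ} {W : Finset V} (h : Sph G W (2 * k)) (hk : 2 ≤ k) {v : V} (hv : v ∈ W)
    (hD : non G W v ∈ faces G W) (hc : (non G W v).card = 4)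
    (hE : ∀ s ∈ faces G W, s.card = 2 → 0 ≤ (-1 : ℚ) ^ (k - 1) * lam G (W ∩ lk G s))
    {f : Finset V} (hf : f ⊆ non G W v) (hfc : f.card = 2) :
    (1 / 4 : ℚ) * ((-1 : ℚ) ^ (k - 1) * lam G (W ∩ lk G f)) -
      (1 / 16) * ((-1 : ℚ) ^ (k - 2) * lam G (W ∩ lk G (non G W v))) ≤ (-1 : ℚ) ^ k * lam G W := by
  rw [lam_formula h (even_two_mul k) hv, mul_neg, ← neg_mul,
    neg_one_pow_pred (by omega : 1 ≤ k), neg_neg, mul_sum]
  have hDf : non G W v ∈ faces G (non G W v) := mem_faces.2 ⟨subset_refl _, (mem_faces.1 hD).2⟩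
  have hff : f ∈ faces G (non G W v) := subset_mem_faces hDf hf
  have hne : f ≠ non G W v := by
    intro e
    rw [e] at hfc
    omega
  have hsub : ({f, non G W v} : Finset (Finset V)) ⊆ (faces G (non G W v)).erase ∅ := by
    intro s hs
    rw [mem_insert, mem_singleton] at hs
    rw [mem_erase]
    rcases hs with rfl | rfl
    · refine ⟨?_, hff⟩
      rintro rfl
      simp at hfc
    · refine ⟨?_, hDf⟩
      intro e
      rw [e] at hc
      simp at hc
  refine le_trans (le_of_eq ?_) (sum_le_sum_of_subset_of_nonneg hsub ?_)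
  · rw [sum_pair hne, hfc, hc]
    have : (-1 : ℚ) ^ (k - 1) = - (-1) ^ (k - 2) := by
      rw [neg_one_pow_pred (by omega : 1 ≤ k - 1)]
      congr 2
    rw [this]
    ring
  · intro s hs hs'
    rw [mem_erase] at hs
    rw [mem_insert, mem_singleton, not_or] at hs'
    have hsD := (mem_faces.1 hs.2).1
    have hsW : s ∈ faces G W := faces_mono (non_subset W v) hs.2
    have h1 : 0 < s.card := card_pos.2 (nonempty_iff_ne_empty.2 hs.1)
    have h2 : s.card < 4 := by
      rw [← hc]
      exact card_lt_card (Finset.ssubset_iff_subset_ne.2 ⟨hsD, hs'.2⟩)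
    rcases Nat.even_or_odd s.card with he | ho
    · have h3 : s.card = 2 := by
        obtain ⟨c, hc'⟩ := he
        omega
      have h4 := hE s hsW h3
      rw [h3]
      have : (-1 : ℚ) ^ (k - 1) * ((1 / 2) ^ 2 * lam G (W ∩ lk G s)) =
          (1 / 4) * ((-1 : ℚ) ^ (k - 1) * lam G (W ∩ lk G s)) := by ring
      rw [this]
      exact mul_nonneg (by norm_num) h4
    · rw [h.term_odd hsW ho]
      simp

lemma lk_singleton_union {W s : Finset V} {v : V} :
    W ∩ lk G {v} ∩ lk G s = W ∩ lk G (insert v s) := by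
  rw [insert_eq, lk_union, inter_assoc]

/-- A vertex of the link of `v` with only two non-neighbours in that link. -/
lemma cd_deg2 {k : ℕ} {W : Finset V} (h : Sph G W (2 * k)) (hk : 3 ≤ k)
    (hdeg : ∀ x ∈ W, 4 ≤ (non G W x).card) {v : V} (hv : v ∈ W)
    (hD : non G W v ∈ faces G W) (hc : (non G W v).card = 4) {x : V} (hx : x ∈ W ∩ lk G {v})
    (hx2 : (non G (W ∩ lk G {v}) x).card = 2)
    (hE2 : ∀ s ∈ faces G W, s.card = 2 → 0 ≤ (-1 : ℚ) ^ (k - 1) * lam G (W ∩ lk G s))
    (hE4 : ∀ e ∈ faces G W, e.card = 2 → ∀ x ∈ W ∩ lk G e,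
      ∀ s ∈ faces G (non G (W ∩ lk G e) x), s.card = 2 →
        0 ≤ (-1 : ℚ) ^ (k - 2) * lam G (W ∩ lk G e ∩ lk G s)) :
    0 ≤ (-1 : ℚ) ^ k * lam G W := by
  have hxW := (mem_inter.1 hx).1
  have hxv : G.Adj x v := mem_lk1.1 (mem_inter.1 hx).2
  have hDcl := (mem_faces.1 hD).2
  have h1 := non_link_card hx
  have h2 := non_sdiff_card W v x (G := G)
  have h3 := hdeg x hxW
  have h4 := h.T_nonempty hv hx
  have h4' := card_pos.2 h4
  -- T has exactly two elements
  have hT2 : (non G W v ∩ lk G {x}).card = 2 := by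
    by_contra hne
    have hT1 : (non G W v ∩ lk G {x}).card = 1 := by omega
    obtain ⟨w, hw⟩ := card_eq_one.1 hT1
    have hwm : w ∈ non G W v ∩ lk G {x} := by rw [hw]; exact mem_singleton_self w
    have hwD := (mem_inter.1 hwm).1
    have hwx : G.Adj w x := mem_lk1.1 (mem_inter.1 hwm).2
    have hL := h.link1 hxW
    have hvL : v ∈ W ∩ lk G {x} := mem_inter.2 ⟨hv, mem_lk1.2 hxv.symm⟩
    have hnon : non G (W ∩ lk G {x}) v = {w} := by rw [non_link1, hw]
    have hnon' := hL.non_single hvL hnon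
    have hsub : non G W w ⊆ insert v (non G (W ∩ lk G {v}) x) := by
      intro y hy
      rw [mem_insert]
      have hy' := mem_non.1 hy
      by_cases hyx : G.Adj y x
      · left
        have : y ∈ non G (W ∩ lk G {x}) w :=
          mem_non.2 ⟨mem_inter.2 ⟨hy'.1, mem_lk1.2 hyx⟩, hy'.2⟩
        rw [hnon', mem_singleton] at this
        exact this
      · right
        have hyx' : y ≠ x := by
          rintro rfl
          exact hy'.2.2 hwx
        have : y ∈ non G W x := mem_non.2 ⟨hy'.1, hyx', fun e => hyx e.symm⟩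
        rw [non_link_eq hx, mem_union] at this
        rcases this with e | e
        · exact e
        · exact absurd (hDcl w hwD y (mem_sdiff.1 e).1 hy'.2.1.symm) hy'.2.2
    have h5 := card_le_card hsub
    have h6 := card_insert_le v (non G (W ∩ lk G {v}) x)
    have h7 := hdeg w (mem_non.1 hwD).1
    omega
  set T := non G W v ∩ lk G {x} with hTdef
  have hTD : T ⊆ non G W v := inter_subset_left
  have hTf : T ∈ faces G W := subset_mem_faces hD hTD
  have hsd : non G W v \ lk G {x} = non G W v \ T := by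
    rw [hTdef, sdiff_inter_self_left]
  have hsdc : (non G W v \ T).card = 2 := by
    rw [card_sdiff_of_subset hTD]
    omega
  -- the link of T
  have hΛ : Sph G (W ∩ lk G T) (2 * (k - 1)) := by
    have := h.link hTf
    rw [hT2] at this
    rwa [show 2 * k - 2 = 2 * (k - 1) by omega] at this
  have hxΛ : x ∈ W ∩ lk G T := by
    refine mem_inter.2 ⟨hxW, mem_lk.2 ?_⟩
    intro y hy
    exact (mem_lk1.1 (mem_inter.1 hy).2).symm
  have hnΛ : non G (W ∩ lk G T) x ⊆ non G (W ∩ lk G {v}) x ∪ (non G W v \ T) := by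
    intro y hy
    rw [← hsd, ← non_link_eq hx]
    rw [mem_non] at hy ⊢
    exact ⟨(mem_inter.1 hy.1).1, hy.2⟩
  have hff : non G W v \ T ∈ faces G (non G (W ∩ lk G T) x) := by
    rw [mem_faces]
    refine ⟨?_, ?_⟩
    · intro y hy
      have hyD := (mem_sdiff.1 hy).1
      have hyn : y ∈ non G W x := by
        rw [non_link_eq hx, hsd]
        exact mem_union_right _ hy
      rw [mem_non] at hyn ⊢
      refine ⟨mem_inter.2 ⟨hyn.1, mem_lk.2 ?_⟩, hyn.2⟩
      intro z hz
      refine hDcl y hyD z (hTD hz) ?_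
      rintro rfl
      exact (mem_sdiff.1 hy).2 hz
    · intro y hy z hz hyz
      exact hDcl y (mem_sdiff.1 hy).1 z (mem_sdiff.1 hz).1 hyz
  have hno4 : ∀ s ∈ faces G (non G (W ∩ lk G T) x), s.card < 4 := by
    intro s hs
    by_contra hs4
    push Not at hs4
    have hsub := (mem_faces.1 hs).1.trans hnΛ
    have hc4 : (non G (W ∩ lk G {v}) x ∪ (non G W v \ T)).card ≤ 4 := by
      refine le_trans (card_union_le _ _) (by omega)
    have hseq : s = non G (W ∩ lk G {v}) x ∪ (non G W v \ T) :=
      eq_of_subset_of_card_le hsub (by omega)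
    -- the two non-neighbours of x lie in the link of D
    have hpq : ∀ y ∈ non G (W ∩ lk G {v}) x, y ∈ W ∩ lk G (non G W v) := by
      intro y hy
      have hys : y ∈ s := by
        rw [hseq]
        exact mem_union_left _ hy
      have hyΛ := (mem_non.1 ((mem_faces.1 hs).1 hys)).1
      refine mem_inter.2 ⟨(mem_inter.1 hyΛ).1, mem_lk.2 ?_⟩
      intro z hz
      by_cases hzT : z ∈ T
      · exact mem_lk.1 (mem_inter.1 hyΛ).2 z hzT
      · have hzs : z ∈ s := by
          rw [hseq]
          exact mem_union_right _ (mem_sdiff.2 ⟨hz, hzT⟩)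
        refine (mem_faces.1 hs).2 y hys z hzs ?_
        rintro rfl
        have hyv := mem_lk1.1 (mem_inter.1 (mem_non.1 hy).1).2
        exact (mem_non.1 hz).2.2 hyv.symm
    have hL := h.link hD
    rw [hc] at hL
    obtain ⟨p, q, hpqne, hpqeq⟩ := card_eq_two.1 hx2
    have hpL : p ∈ W ∩ lk G (non G W v) := hpq p (by rw [hpqeq]; simp)
    have hqL : q ∈ W ∩ lk G (non G W v) := hpq q (by rw [hpqeq]; simp)
    -- a face ρ of the link of D which is not in the star of p or q
    have hρ : ∃ ρ ∈ faces G (W ∩ lk G (non G W v)), ρ.card ≤ 2 ∧ p ∉ ρ ∧ q ∉ ρ ∧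
        p ∉ lk G ρ ∧ q ∉ lk G ρ := by
      obtain ⟨p', hp'⟩ := hL.non_nonempty hpL
      rw [mem_non] at hp'
      obtain ⟨hp'L, hp'p, hpp'⟩ := hp'
      by_cases hqp' : G.Adj q p'
      · have hL1 := hL.link1 hp'L
        have hqL1 : q ∈ W ∩ lk G (non G W v) ∩ lk G {p'} := mem_inter.2 ⟨hqL, mem_lk1.2 hqp'⟩
        obtain ⟨q', hq'⟩ := hL1.non_nonempty hqL1
        rw [mem_non, mem_inter, mem_lk1] at hq'
        obtain ⟨⟨hq'L, hq'p'⟩, hq'q, hqq'⟩ := hq'
        refine ⟨{p', q'}, pair_mem_faces hp'L hq'L hq'p'.symm, card_le_two, ?_, ?_, ?_, ?_⟩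
        · rw [mem_insert, mem_singleton, not_or]
          refine ⟨hp'p.symm, ?_⟩
          rintro rfl
          exact hpp' hq'p'
        · rw [mem_insert, mem_singleton, not_or]
          exact ⟨hqp'.ne, hq'q.symm⟩
        · intro hh
          exact hpp' (mem_lk.1 hh p' (by simp))
        · intro hh
          exact hqq' (mem_lk.1 hh q' (by simp))
      · by_cases hqe : q = p'
        · -- q = p': then q is not in the link of {q}; p is not adjacent to q
          exfalso
          -- p and q are joined, being in the clique s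
          have hps : p ∈ s := by
            rw [hseq, hpqeq]
            simp
          have hqs : q ∈ s := by
            rw [hseq, hpqeq]
            simp
          have := (mem_faces.1 hs).2 p hps q hqs hpqne
          rw [hqe] at this
          exact hpp' this
        · refine ⟨{p'}, single_mem_faces hp'L, by simp, ?_, ?_, ?_, ?_⟩
          · rw [mem_singleton]
            exact hp'p.symm
          · rw [mem_singleton]
            exact hqe
          · intro hh
            exact hpp' (mem_lk1.1 hh)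
          · intro hh
            exact hqp' (mem_lk1.1 hh)
    obtain ⟨ρ, hρf, hρc, hpρ, hqρ, hpl, hql⟩ := hρ
    have hDne : (non G W v).Nonempty := by
      rw [← card_pos]
      omega
    -- elements of the link of D are joined to v
    have hLv : ∀ y ∈ W ∩ lk G (non G W v), G.Adj y v := by
      intro y hy
      by_contra hna
      obtain ⟨z, hz⟩ := hDne
      have hyl := mem_lk.1 (mem_inter.1 hy).2
      by_cases hyv : y = v
      · subst hyv
        exact (mem_non.1 hz).2.2 (hyl z hz)
      · have : y ∈ non G W v := mem_non.2 ⟨(mem_inter.1 hy).1, hyv, fun e => hna e.symm⟩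
        exact G.loopless.irrefl y (hyl y this)
    have hxL : x ∉ lk G (non G W v) := by
      intro hh
      have : non G W v \ T = ∅ := by
        rw [← hsd, sdiff_eq_empty_iff_subset]
        intro z hz
        exact mem_lk1.2 (mem_lk.1 hh z hz).symm
      rw [this] at hsdc
      simp at hsdc
    have hρW : insert v ρ ∈ faces G W := by
      rw [mem_faces] at hρf ⊢
      refine ⟨insert_subset hv (hρf.1.trans inter_subset_left), ?_⟩
      intro y hy z hz hyz
      rw [mem_insert] at hy hz
      rcases hy with rfl | hy <;> rcases hz with rfl | hz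
      · exact absurd rfl hyz
      · exact (hLv z (hρf.1 hz)).symm
      · exact hLv y (hρf.1 hy)
      · exact hρf.2 y hy z hz hyz
    have hL' := h.link hρW
    have hxρ : x ∈ W ∩ lk G (insert v ρ) := by
      refine mem_inter.2 ⟨hxW, mem_lk.2 ?_⟩
      intro y hy
      rw [mem_insert] at hy
      rcases hy with rfl | hy
      · exact hxv
      · have hyL := (mem_faces.1 hρf).1 hy
        by_contra hna
        have hyx : y ≠ x := by
          rintro rfl
          exact hxL (mem_inter.1 hyL).2
        have hyn : y ∈ non G W x := mem_non.2 ⟨(mem_inter.1 hyL).1, hyx, hna⟩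
        rw [non_link_eq hx, mem_union, hpqeq, mem_insert, mem_singleton] at hyn
        rcases hyn with (rfl | rfl) | e
        · exact hpρ hy
        · exact hqρ hy
        · exact G.loopless.irrefl y (mem_lk.1 (mem_inter.1 hyL).2 y (mem_sdiff.1 e).1)
    obtain ⟨y, hy⟩ := hL'.non_nonempty hxρ
    rw [mem_non, mem_inter] at hy
    have hyl := mem_lk.1 hy.1.2
    have hyn : y ∈ non G W x := mem_non.2 ⟨hy.1.1, hy.2⟩
    rw [non_link_eq hx, mem_union, hpqeq, mem_insert, mem_singleton] at hyn
    rcases hyn with (rfl | rfl) | e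
    · exact hpl (mem_lk.2 fun z hz => hyl z (mem_insert_of_mem hz))
    · exact hql (mem_lk.2 fun z hz => hyl z (mem_insert_of_mem hz))
    · exact (mem_non.1 (mem_sdiff.1 e).1).2.2 (hyl v (mem_insert_self _ _)).symm
  have hEΛ : ∀ s ∈ faces G (non G (W ∩ lk G T) x), s.card = 2 →
      0 ≤ (-1 : ℚ) ^ (k - 1 - 1) * lam G (W ∩ lk G T ∩ lk G s) := by
    intro s hs hs2
    rw [Nat.sub_sub]
    exact hE4 T hTf hT2 x hxΛ s hs hs2
  have key := cd_good_ge hΛ (by omega) hxΛ hno4 hEΛ hff hsdc
  have hDeq : W ∩ lk G T ∩ lk G (non G W v \ T) = W ∩ lk G (non G W v) := by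
    rw [inter_assoc, ← lk_union, union_sdiff_of_subset hTD]
  rw [hDeq, Nat.sub_sub] at key
  have key2 := cd_clique_ge h (by omega) hv hD hc hE2 hTD hT2
  have key3 : (1 / 4 : ℚ) * ((1 / 4 : ℚ) * ((-1 : ℚ) ^ (k - (1 + 1)) * lam G (W ∩ lk G (non G W v)))) ≤
      (1 / 4 : ℚ) * ((-1 : ℚ) ^ (k - 1) * lam G (W ∩ lk G T)) :=
    mul_le_mul_of_nonneg_left key (by norm_num)
  have e : (1 + 1 : ℕ) = 2 := rfl
  rw [e] at key3
  linarith

end Pool.Agent.Lib.MP_fd533b_co
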