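import Mathlib
import Pool.Agent.Lib.MP_fd533b_co.Tight

/-! Rank 4 (dimension 3): at most 14 vertices. -/

set_option linter.unusedSectionVars false
set_option linter.style.longLine false

namespace Pool.Agent.Lib.MP_fd533b_co

open Finset

variable {V : Type*} [Fintype V] [DecidableEq V] {G : SimpleGraph V} [DecidableRel G.Adj]

/-- In rank 4, every facet has an edge whose link has at least five vertices, unless some
vertex has a unique non-neighbour. -/
lemma long_edge_sf {W : Finset V} (h : Sph G W 4) (hSF : SF G W) {κ : Finset V}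
    (hκ : κ ∈ faces G W) (hc : κ.card = 4) :
    ∃ s ⊆ κ, s.card = 2 ∧ 5 ≤ (W ∩ lk G s).card := by
  by_contra hcon
  push Not at hcon
  have hDW := mem_faces.1 hκ
  have key : ∀ d ∈ κ, ∃ y ∈ W, ¬ G.Adj y d ∧ y ≠ d ∧ ∀ e ∈ κ, e ≠ d → G.Adj y e := by
    intro d hd
    have hρ : κ.erase d ∈ faces G W := subset_mem_faces hκ (erase_subset _ _)
    have hρc : (κ.erase d).card = 3 := by rw [card_erase_of_mem hd, hc]
    have hL := h.link hρ
    rw [hρc] at hL
    have hL1 : Sph G (W ∩ lk G (κ.erase d)) 1 := hL
    have hdL : d ∈ W ∩ lk G (κ.erase d) := by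
      refine mem_inter.2 ⟨hDW.1 hd, mem_lk.2 ?_⟩
      intro x hx
      rw [mem_erase] at hx
      exact hDW.2 d hd x hx.2 hx.1.symm
    obtain ⟨y, hy⟩ := hL1.non_nonempty hdL
    rw [mem_non, mem_inter, mem_lk] at hy
    obtain ⟨⟨hyW, hyl⟩, hyd, hna⟩ := hy
    exact ⟨y, hyW, fun e => hna e.symm, hyd, fun e he hed => hyl e (mem_erase.2 ⟨hed, he⟩)⟩
  choose! y hyW hyd hyne hye using key
  have hyinj : ∀ d ∈ κ, ∀ e ∈ κ, d ≠ e → y d ≠ y e := by
    intro d hd e he hde heq
    have := hye e he d hd hde
    rw [← heq] at this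
    exact hyd d hd this
  have hnD : ∀ d ∈ κ, y d ∉ κ := by
    intro d hd hh
    exact hyd d hd (hDW.2 (y d) hh d hd (hyne d hd))
  -- the link of {d, e}
  have hlink : ∀ d ∈ κ, ∀ e ∈ κ, d ≠ e → ∀ z ∈ W ∩ lk G {d, e},
      (z ∈ κ ∧ z ≠ d ∧ z ≠ e) ∨ ∃ c ∈ κ, c ≠ d ∧ c ≠ e ∧ z = y c := by
    intro d hd e he hde
    have hs : ({d, e} : Finset V) ⊆ κ := by
      intro x hx
      rw [mem_insert, mem_singleton] at hx
      rcases hx with rfl | rfl <;> assumption
    have hC := hcon _ hs (card_pair hde)
    have hsub : ((κ.erase d).erase e) ∪ ((κ.erase d).erase e).image y ⊆ W ∩ lk G {d, e} := by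
      intro x hx
      rw [mem_union, mem_image] at hx
      rw [mem_inter, mem_lk]
      rcases hx with hx | ⟨c, hc', rfl⟩
      · rw [mem_erase, mem_erase] at hx
        refine ⟨hDW.1 hx.2.2, ?_⟩
        intro z hz
        rw [mem_insert, mem_singleton] at hz
        rcases hz with rfl | rfl
        · exact hDW.2 x hx.2.2 z hd hx.2.1
        · exact hDW.2 x hx.2.2 z he hx.1
      · rw [mem_erase, mem_erase] at hc'
        refine ⟨hyW c hc'.2.2, ?_⟩
        intro z hz
        rw [mem_insert, mem_singleton] at hz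
        rcases hz with rfl | rfl
        · exact hye c hc'.2.2 z hd hc'.2.1.symm
        · exact hye c hc'.2.2 z he hc'.1.symm
    have hcc : ((κ.erase d).erase e).card = 2 := by
      rw [card_erase_of_mem (mem_erase.2 ⟨hde.symm, he⟩), card_erase_of_mem hd, hc]
    have hcard : (((κ.erase d).erase e) ∪ ((κ.erase d).erase e).image y).card = 4 := by
      rw [card_union_of_disjoint, card_image_of_injOn, hcc]
      · intro a ha b hb hab
        rw [mem_coe, mem_erase, mem_erase] at ha hb
        by_contra hne
        exact hyinj a ha.2.2 b hb.2.2 hne hab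
      · rw [Finset.disjoint_left]
        intro x hx hx'
        rw [mem_erase, mem_erase] at hx
        rw [mem_image] at hx'
        obtain ⟨c, hc', rfl⟩ := hx'
        rw [mem_erase, mem_erase] at hc'
        exact hnD c hc'.2.2 hx.2.2
    have heq := eq_of_subset_of_card_le hsub (by omega)
    intro z hz
    rw [← heq, mem_union, mem_image] at hz
    rcases hz with hz | ⟨c, hc', rfl⟩
    · rw [mem_erase, mem_erase] at hz
      exact Or.inl ⟨hz.2.2, hz.2.1, hz.1⟩
    · rw [mem_erase, mem_erase] at hc'
      exact Or.inr ⟨c, hc'.2.2, hc'.2.1, hc'.1, rfl⟩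
  have hadj : ∀ d ∈ κ, ∀ e ∈ κ, d ≠ e → G.Adj (y d) (y e) := by
    intro d hd e he hde
    -- choose the other two elements
    have hcc : ((κ.erase d).erase e).card = 2 := by
      rw [card_erase_of_mem (mem_erase.2 ⟨hde.symm, he⟩), card_erase_of_mem hd, hc]
    obtain ⟨a, b, hab, habeq⟩ := card_eq_two.1 hcc
    have ha : a ∈ (κ.erase d).erase e := by rw [habeq]; simp
    have hb : b ∈ (κ.erase d).erase e := by rw [habeq]; simp
    rw [mem_erase, mem_erase] at ha hb
    obtain ⟨hae, had, haκ⟩ := ha
    obtain ⟨hbe, hbd, hbκ⟩ := hb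
    have hs : ({a, b} : Finset V) ∈ faces G W :=
      pair_mem_faces (hDW.1 haκ) (hDW.1 hbκ) (hDW.2 a haκ b hbκ hab)
    have hL := h.link hs
    rw [card_pair hab] at hL
    have hL2 : Sph G (W ∩ lk G {a, b}) 2 := hL
    have hmem : ∀ x ∈ W, G.Adj x a → G.Adj x b → x ∈ W ∩ lk G {a, b} := by
      intro x hx h1 h2
      refine mem_inter.2 ⟨hx, mem_lk.2 ?_⟩
      intro z hz
      rw [mem_insert, mem_singleton] at hz
      rcases hz with rfl | rfl <;> assumption
    have hydL := hmem (y d) (hyW d hd) (hye d hd a haκ had) (hye d hd b hbκ hbd)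
    have hL1 := hL2.link1 hydL
    have hL1c := hL1.one_card
    by_contra hnadj
    have hsub2 : W ∩ lk G {a, b} ∩ lk G {y d} ⊆ {e} := by
      intro x hx
      rw [mem_inter, mem_lk1] at hx
      obtain ⟨hx1, hx2⟩ := hx
      rw [mem_singleton]
      rcases hlink a haκ b hbκ hab x hx1 with ⟨h1, h2, h3⟩ | ⟨c, h1, h2, h3, rfl⟩
      · by_contra hxe
        have hxd : x ≠ d := by
          rintro rfl
          exact hyd x hd hx2.symm
        have : x ∈ (κ.erase d).erase e := mem_erase.2 ⟨hxe, mem_erase.2 ⟨hxd, h1⟩⟩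
        rw [habeq, mem_insert, mem_singleton] at this
        rcases this with e' | e'
        · exact h2 e'
        · exact h3 e'
      · exfalso
        by_cases hcd : c = d
        · subst hcd
          exact G.loopless.irrefl _ hx2
        by_cases hce : c = e
        · subst hce
          exact hnadj hx2.symm
        have : c ∈ (κ.erase d).erase e := mem_erase.2 ⟨hce, mem_erase.2 ⟨hcd, h1⟩⟩
        rw [habeq, mem_insert, mem_singleton] at this
        rcases this with e' | e'
        · exact h2 e'
        · exact h3 e'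
    have := card_le_card hsub2
    rw [hL1c, card_singleton] at this
    omega
  obtain ⟨d, hd⟩ : κ.Nonempty := by rw [← card_pos]; omega
  obtain ⟨e, he⟩ : (κ.erase d).Nonempty := by
    rw [← card_pos, card_erase_of_mem hd]; omega
  rw [mem_erase] at he
  obtain ⟨hed, he⟩ := he
  have hdW := hDW.1 hd
  have heW := hDW.1 he
  have hde : G.Adj d e := hDW.2 d hd e he hed.symm
  have hL1 : Sph G (W ∩ lk G {d}) 3 := h.link1 hdW
  have heL : e ∈ W ∩ lk G {d} := mem_inter.2 ⟨heW, mem_lk1.2 hde.symm⟩
  have hyeL : y e ∈ W ∩ lk G {d} := mem_inter.2 ⟨hyW e he, mem_lk1.2 (hye e he d hd hed.symm)⟩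
  have hll : W ∩ lk G {d} ∩ lk G {e} = W ∩ lk G {d, e} := by
    rw [lk_singleton_union]
  have hsub1 : W ∩ lk G {d} ∩ lk G {e} ⊆ W ∩ lk G {d} ∩ lk G {y e} := by
    intro z hz
    refine mem_inter.2 ⟨(mem_inter.1 hz).1, mem_lk1.2 ?_⟩
    rw [hll] at hz
    rcases hlink d hd e he hed.symm z hz with ⟨h1, h2, h3⟩ | ⟨c, h1, h2, h3, rfl⟩
    · exact (hye e he z h1 h3).symm
    · exact hadj c h1 e he h3
  have heq1 := (hL1.link1 hyeL).eq_of_subset (hL1.link1 heL) hsub1
  have hsusp1 := hL1.eq_susp heL hyeL (hyne e he).symm heq1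
  have hsub2 : W ∩ lk G {d} ⊆ W ∩ lk G {y d} := by
    intro z hz
    refine mem_inter.2 ⟨(mem_inter.1 hz).1, mem_lk1.2 ?_⟩
    rw [hsusp1, mem_insert, mem_insert, hll] at hz
    rcases hz with rfl | rfl | hz
    · exact (hye d hd z he hed).symm
    · exact hadj e he d hd hed
    · rcases hlink d hd e he hed.symm z hz with ⟨h1, h2, h3⟩ | ⟨c, h1, h2, h3, rfl⟩
      · exact (hye d hd z h1 h2).symm
      · exact hadj c h1 d hd h2
  have heq2 := (h.link1 (hyW d hd)).eq_of_subset (h.link1 hdW) hsub2
  have hsusp2 := h.eq_susp hdW (hyW d hd) (hyne d hd).symm heq2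
  have h3 : non G W d ⊆ {y d} := by
    intro z hz
    rw [mem_non] at hz
    have hzW := hz.1
    rw [hsusp2, mem_insert, mem_insert] at hzW
    rcases hzW with e' | e' | e'
    · exact absurd e' hz.2.1
    · exact mem_singleton.2 e'
    · exact absurd (mem_lk1.1 (mem_inter.1 e').2).symm hz.2.2
  have h4 := card_le_card h3
  have h5 := hSF d hdW
  rw [card_singleton] at h4
  omega

lemma cd_one {W : Finset V} (h : Sph G W 2) : 0 ≤ (-1 : ℚ) ^ 1 * lam G W := by
  rw [h.lam_two]
  have := h.two_mul_le
  have h4 : (4 : ℚ) ≤ (W.card : ℚ) := by exact_mod_cast this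
  linarith

/-- Terms of the formula in rank 4. -/
lemma term4 {W : Finset V} (h : Sph G W 4) {s : Finset V} (hs : s ∈ faces G W) (hs0 : s ≠ ∅) :
    (s.card = 4 → -((1 / 2 : ℚ) ^ s.card * lam G (W ∩ lk G s)) = -1 / 16) ∧
    (s.card = 2 → -((1 / 2 : ℚ) ^ s.card * lam G (W ∩ lk G s)) = (((W ∩ lk G s).card : ℚ) - 4) / 16) ∧
    (s.card ≠ 4 → 0 ≤ -((1 / 2 : ℚ) ^ s.card * lam G (W ∩ lk G s))) := by
  have h4 : Sph G W (2 * 2) := h
  have hle := h.le s hs
  have hpos : 0 < s.card := card_pos.2 (nonempty_iff_ne_empty.2 hs0)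
  have hL := h.link hs
  have e2 : s.card = 2 → -((1 / 2 : ℚ) ^ s.card * lam G (W ∩ lk G s)) =
      (((W ∩ lk G s).card : ℚ) - 4) / 16 := by
    intro hc
    rw [hc] at hL
    have hL2 : Sph G (W ∩ lk G s) 2 := hL
    rw [hL2.lam_two, hc]
    ring
  refine ⟨?_, e2, ?_⟩
  · intro hc
    rw [hc] at hL
    have h0 : W ∩ lk G s = ∅ := hL.zero
    rw [h0, lam_empty, hc]
    norm_num
  · intro hne
    rcases Nat.even_or_odd s.card with he | ho
    · have h3 : s.card = 2 := by
        obtain ⟨c, hc'⟩ := he
        omega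
      rw [e2 h3]
      rw [h3] at hL
      have hL2 : Sph G (W ∩ lk G s) 2 := hL
      have := hL2.two_mul_le
      have h5 : (4 : ℚ) ≤ ((W ∩ lk G s).card : ℚ) := by exact_mod_cast this
      linarith
    · rw [h4.term_odd hs ho]
      simp

/-- The case of a vertex with five non-neighbours and link with eight vertices. -/
lemma cd_five {W : Finset V} (h : Sph G W 4) (hSF : SF G W) {v : V} (hv : v ∈ W)
    (hm : (non G W v).card = 5) (hmin : ∀ x ∈ W, 5 ≤ (non G W x).card)
    (hS : (W ∩ lk G {v}).card = 8) (hκ : ∃ κ ∈ faces G (non G W v), 4 ≤ κ.card) :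
    0 ≤ lam G W := by
  have hDW : non G W v ⊆ W := non_subset W v
  -- at most three neighbours in D
  have hT : ∀ x ∈ W ∩ lk G {v}, (non G W v ∩ lk G {x}).card ≤ 3 := by
    intro x hx
    have hS3 : Sph G (W ∩ lk G {v}) 3 := h.link1 hv
    have h1 := card_split (G := G) hx
    have h2 := (hS3.link1 hx).two_mul_le
    have h3 := non_link_card hx
    have h4 := non_sdiff_card W v x (G := G)
    have h5 := hmin x (mem_inter.1 hx).1
    omega
  have hclique5 : non G W v ∉ faces G W := by
    intro hh
    have := h.le _ hh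
    omega
  rw [lam_formula h (by decide) hv, ← sum_neg_distrib]
  set F := (faces G (non G W v)).erase ∅ with hF
  set g : Finset V → ℚ := fun s => -((1 / 2 : ℚ) ^ s.card * lam G (W ∩ lk G s)) with hg
  have hFW : ∀ s ∈ F, s ∈ faces G W ∧ s ≠ ∅ ∧ s ⊆ non G W v := by
    intro s hs
    rw [hF, mem_erase] at hs
    exact ⟨faces_mono hDW hs.2, hs.1, (mem_faces.1 hs.2).1⟩
  have hsplit := sum_filter_add_sum_filter_not F (fun s => s.card = 4) g
  have hQ : ∑ s ∈ F.filter (fun s => s.card = 4), g s =
      -((F.filter (fun s => s.card = 4)).card : ℚ) / 16 := by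
    rw [sum_congr rfl (g := fun _ => (-1 / 16 : ℚ)), sum_const, nsmul_eq_mul]
    · ring
    · intro s hs
      rw [mem_filter] at hs
      obtain ⟨h1, h2, -⟩ := hFW s hs.1
      exact (term4 h h1 h2).1 hs.2
  have hnn : ∀ s ∈ F.filter (fun s => ¬ s.card = 4), 0 ≤ g s := by
    intro s hs
    rw [mem_filter] at hs
    obtain ⟨h1, h2, -⟩ := hFW s hs.1
    exact (term4 h h1 h2).2.2 hs.2
  rw [← hsplit, hQ]
  obtain ⟨κ0, hκ0, hκ04⟩ := hκ
  have hκ0W : κ0 ∈ faces G W := faces_mono hDW hκ0
  have hκ0c : κ0.card = 4 := le_antisymm (h.le _ hκ0W) hκ04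
  have hκ0D := (mem_faces.1 hκ0).1
  have memF : ∀ s, s ⊆ non G W v → s ∈ faces G W → s ≠ ∅ → s ∈ F := by
    intro s h1 h2 h3
    rw [hF, mem_erase]
    exact ⟨h3, mem_faces.2 ⟨h1, (mem_faces.1 h2).2⟩⟩
  rcases Nat.lt_or_ge (F.filter (fun s => s.card = 4)).card 2 with hq | hq
  · -- one 4-clique
    obtain ⟨s0, hs0, hs0c, hs0l⟩ := long_edge_sf h hSF hκ0W hκ0c
    have hs0f : s0 ∈ faces G W := subset_mem_faces hκ0W hs0
    have hs0ne : s0 ≠ ∅ := by
      rintro rfl
      simp at hs0c
    have hmem : s0 ∈ F.filter (fun s => ¬ s.card = 4) := by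
      rw [mem_filter]
      exact ⟨memF s0 (hs0.trans hκ0D) hs0f hs0ne, by omega⟩
    have h1 := single_le_sum hnn hmem
    have h2 : g s0 = (((W ∩ lk G s0).card : ℚ) - 4) / 16 := (term4 h hs0f hs0ne).2.1 hs0c
    rw [h2] at h1
    have h3 : (5 : ℚ) ≤ ((W ∩ lk G s0).card : ℚ) := by exact_mod_cast hs0l
    have h4 : ((F.filter (fun s => s.card = 4)).card : ℚ) ≤ 1 := by exact_mod_cast (by omega : (F.filter (fun s => s.card = 4)).card ≤ 1)
    linarith
  · -- two 4-cliques
    obtain ⟨κ, hκ, κ', hκ', hne⟩ := one_lt_card.1 (by omega : 1 < (F.filter (fun s => s.card = 4)).card)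
    rw [mem_filter] at hκ hκ'
    obtain ⟨hκf, -, hκD⟩ := hFW κ hκ.1
    obtain ⟨hκf', -, hκD'⟩ := hFW κ' hκ'.1
    have hκc := hκ.2
    have hκc' := hκ'.2
    -- κ = D \ {d}, κ' = D \ {c}
    have hd : ∃ d ∈ non G W v, κ = (non G W v).erase d := by
      have h1 : (non G W v \ κ).card = 1 := by rw [card_sdiff_of_subset hκD]; omega
      obtain ⟨d, hd⟩ := card_eq_one.1 h1
      have hdm : d ∈ non G W v \ κ := by rw [hd]; exact mem_singleton_self d
      rw [mem_sdiff] at hdm
      refine ⟨d, hdm.1, ?_⟩
      refine eq_of_subset_of_card_le ?_ ?_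
      · intro x hx
        rw [mem_erase]
        refine ⟨?_, hκD hx⟩
        rintro rfl
        exact hdm.2 hx
      · rw [card_erase_of_mem hdm.1]; omega
    have hd' : ∃ d ∈ non G W v, κ' = (non G W v).erase d := by
      have h1 : (non G W v \ κ').card = 1 := by rw [card_sdiff_of_subset hκD']; omega
      obtain ⟨d, hd⟩ := card_eq_one.1 h1
      have hdm : d ∈ non G W v \ κ' := by rw [hd]; exact mem_singleton_self d
      rw [mem_sdiff] at hdm
      refine ⟨d, hdm.1, ?_⟩
      refine eq_of_subset_of_card_le ?_ ?_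
      · intro x hx
        rw [mem_erase]
        refine ⟨?_, hκD' hx⟩
        rintro rfl
        exact hdm.2 hx
      · rw [card_erase_of_mem hdm.1]; omega
    obtain ⟨d, hdD, hκeq⟩ := hd
    obtain ⟨c, hcD, hκeq'⟩ := hd'
    have hcd : c ≠ d := by
      rintro rfl
      exact hne (hκeq.trans hκeq'.symm)
    have hκcl := (mem_faces.1 hκf).2
    have hκcl' := (mem_faces.1 hκf').2
    -- adjacency inside D except for c, d
    have hDadj : ∀ x ∈ non G W v, ∀ z ∈ non G W v, x ≠ z → ¬ (x = c ∧ z = d) → ¬ (x = d ∧ z = c) →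
        G.Adj x z := by
      intro x hx z hz hxz h1 h2
      by_cases hxd : x = d
      · have hzc : z ≠ c := fun e => h2 ⟨hxd, e⟩
        have hxc : x ≠ c := by rw [hxd]; exact hcd.symm
        exact hκcl' x (by rw [hκeq']; exact mem_erase.2 ⟨hxc, hx⟩) z
          (by rw [hκeq']; exact mem_erase.2 ⟨hzc, hz⟩) hxz
      · by_cases hzd : z = d
        · have hxc : x ≠ c := fun e => h1 ⟨e, hzd⟩
          have hzc : z ≠ c := by rw [hzd]; exact hcd.symm
          exact hκcl' x (by rw [hκeq']; exact mem_erase.2 ⟨hxc, hx⟩) z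
            (by rw [hκeq']; exact mem_erase.2 ⟨hzc, hz⟩) hxz
        · exact hκcl x (by rw [hκeq]; exact mem_erase.2 ⟨hxd, hx⟩) z
            (by rw [hκeq]; exact mem_erase.2 ⟨hzd, hz⟩) hxz
    have hncd : ¬ G.Adj c d := by
      intro hadj
      apply hclique5
      rw [mem_faces]
      refine ⟨hDW, ?_⟩
      intro x hx z hz hxz
      by_cases h1 : x = c ∧ z = d
      · rw [h1.1, h1.2]; exact hadj
      by_cases h2 : x = d ∧ z = c
      · rw [h2.1, h2.2]; exact hadj.symm
      exact hDadj x hx z hz hxz h1 h2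
    have hQ2 : (F.filter (fun s => s.card = 4)).card ≤ 2 := by
      have hsub : F.filter (fun s => s.card = 4) ⊆ {κ, κ'} := by
        intro s hs
        rw [mem_filter] at hs
        obtain ⟨hsf, -, hsD⟩ := hFW s hs.1
        rw [mem_insert, mem_singleton]
        by_cases hds : d ∈ s
        · right
          by_cases hcs : c ∈ s
          · exact absurd ((mem_faces.1 hsf).2 c hcs d hds hcd) hncd
          · refine eq_of_subset_of_card_le ?_ (by omega)
            intro x hx
            rw [hκeq', mem_erase]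
            refine ⟨?_, hsD hx⟩
            rintro rfl
            exact hcs hx
        · left
          refine eq_of_subset_of_card_le ?_ (by omega)
          intro x hx
          rw [hκeq, mem_erase]
          refine ⟨?_, hsD hx⟩
          rintro rfl
          exact hds hx
      exact le_trans (card_le_card hsub) card_le_two
    -- the common triangle
    have hτc : (((non G W v).erase d).erase c).card = 3 := by
      rw [card_erase_of_mem (mem_erase.2 ⟨hcd, hcD⟩), card_erase_of_mem hdD, hm]
    have hlong : ∀ s ∈ powersetCard 2 (((non G W v).erase d).erase c), (1 / 16 : ℚ) ≤ g s := by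
      intro s hs
      rw [mem_powersetCard] at hs
      obtain ⟨hsτ, hsc⟩ := hs
      have hsκ : s ⊆ κ := by rw [hκeq]; exact hsτ.trans (erase_subset _ _)
      have hsf : s ∈ faces G W := subset_mem_faces hκf hsκ
      have hsne : s ≠ ∅ := by
        rintro rfl
        simp at hsc
      have hsD : s ⊆ non G W v := hsκ.trans hκD
      have hcns : c ∉ s := fun hh => (mem_erase.1 (hsτ hh)).1 rfl
      have hdns : d ∉ s := fun hh => (mem_erase.1 (mem_erase.1 (hsτ hh)).2).1 rfl
      have h2 : g s = (((W ∩ lk G s).card : ℚ) - 4) / 16 := (term4 h hsf hsne).2.1 hsc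
      rw [h2]
      have h5 : 5 ≤ (W ∩ lk G s).card := by
        by_contra hlt
        have hL := h.link hsf
        rw [hsc] at hL
        have hL2 : Sph G (W ∩ lk G s) 2 := hL
        have h4c : (W ∩ lk G s).card = 4 := by
          have := hL2.two_mul_le
          omega
        have hone : ∀ x ∈ W ∩ lk G s, (non G (W ∩ lk G s) x).card = 1 := by
          intro x hx
          have h6 := card_split (G := G) hx
          have h7 : (W ∩ lk G s ∩ lk G {x}).card = 2 := (hL2.link1 hx).one_card
          omega
        -- the third vertex t of the triangle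
        have htc : ((((non G W v).erase d).erase c) \ s).card = 1 := by
          rw [card_sdiff_of_subset hsτ]; omega
        obtain ⟨t, ht⟩ := card_eq_one.1 htc
        have htm : t ∈ (((non G W v).erase d).erase c) \ s := by rw [ht]; exact mem_singleton_self t
        rw [mem_sdiff, mem_erase, mem_erase] at htm
        obtain ⟨⟨htc', htd, htD⟩, hts⟩ := htm
        have hmem : ∀ x ∈ non G W v, x ∉ s → x ∈ W ∩ lk G s := by
          intro x hx hxs
          refine mem_inter.2 ⟨hDW hx, mem_lk.2 ?_⟩
          intro z hz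
          refine hDadj x hx z (hsD hz) ?_ ?_ ?_
          · rintro rfl
            exact hxs hz
          · rintro ⟨-, rfl⟩
            exact hdns hz
          · rintro ⟨-, rfl⟩
            exact hcns hz
        have htL := hmem t htD hts
        have hcL := hmem c hcD hcns
        have hdL := hmem d hdD hdns
        obtain ⟨r, hr⟩ := card_eq_one.1 (hone t htL)
        have hrm : r ∈ non G (W ∩ lk G s) t := by rw [hr]; exact mem_singleton_self r
        rw [mem_non] at hrm
        obtain ⟨hrL, hrt, htr⟩ := hrm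
        have htcadj : G.Adj t c := hDadj t htD c hcD htc' (fun e => htc' e.1) (fun e => htd e.1)
        have htdadj : G.Adj t d := hDadj t htD d hdD htd (fun e => htc' e.1) (fun e => htd e.1)
        have hrc : r ≠ c := by
          rintro rfl
          exact htr htcadj
        have hrd : r ≠ d := by
          rintro rfl
          exact htr htdadj
        -- non c = {d}
        have hnc : non G (W ∩ lk G s) c = {d} := by
          obtain ⟨z, hz⟩ := card_eq_one.1 (hone c hcL)
          have : d ∈ non G (W ∩ lk G s) c := mem_non.2 ⟨hdL, hcd.symm, hncd⟩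
          rw [hz, mem_singleton] at this
          rw [hz, this]
        have hnd : non G (W ∩ lk G s) d = {c} := hL2.non_single hcL hnc
        have hrc' : G.Adj c r := by
          by_contra hna
          have : r ∈ non G (W ∩ lk G s) c := mem_non.2 ⟨hrL, hrc, hna⟩
          rw [hnc, mem_singleton] at this
          exact hrd this
        have hrd' : G.Adj d r := by
          by_contra hna
          have : r ∈ non G (W ∩ lk G s) d := mem_non.2 ⟨hrL, hrd, hna⟩
          rw [hnd, mem_singleton] at this
          exact hrc this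
        have hrW := (mem_inter.1 hrL).1
        have hrl := mem_lk.1 (mem_inter.1 hrL).2
        have hrs : r ∉ s := fun hh => G.loopless.irrefl r (hrl r hh)
        have hrD : r ∉ non G W v := by
          intro hh
          have : r ∈ (((non G W v).erase d).erase c) \ s :=
            mem_sdiff.2 ⟨mem_erase.2 ⟨hrc, mem_erase.2 ⟨hrd, hh⟩⟩, hrs⟩
          rw [ht, mem_singleton] at this
          exact hrt this
        have hrv : r ≠ v := by
          rintro rfl
          exact (mem_non.1 hcD).2.2 hrc'.symm
        have hrS : r ∈ W ∩ lk G {v} := by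
          refine mem_inter.2 ⟨hrW, mem_lk1.2 ?_⟩
          by_contra hna
          exact hrD (mem_non.2 ⟨hrW, hrv, fun e => hna e.symm⟩)
        have h8 := hT r hrS
        have h9 : insert c (insert d s) ⊆ non G W v ∩ lk G {r} := by
          intro x hx
          rw [mem_insert, mem_insert] at hx
          rw [mem_inter, mem_lk1]
          rcases hx with rfl | rfl | hx
          · exact ⟨hcD, hrc'⟩
          · exact ⟨hdD, hrd'⟩
          · exact ⟨hsD hx, (hrl x hx).symm⟩
        have h10 := card_le_card h9
        rw [card_insert_of_notMem, card_insert_of_notMem hdns] at h10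
        · omega
        · rw [mem_insert, not_or]
          exact ⟨hcd, hcns⟩
      have h3 : (5 : ℚ) ≤ ((W ∩ lk G s).card : ℚ) := by exact_mod_cast h5
      linarith
    have hsub : powersetCard 2 (((non G W v).erase d).erase c) ⊆ F.filter (fun s => ¬ s.card = 4) := by
      intro s hs
      rw [mem_powersetCard] at hs
      rw [mem_filter]
      have hsκ : s ⊆ κ := by rw [hκeq]; exact hs.1.trans (erase_subset _ _)
      refine ⟨memF s (hsκ.trans hκD) (subset_mem_faces hκf hsκ) ?_, by omega⟩
      rintro rfl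
      simp at hs
    have h1 := sum_le_sum_of_subset_of_nonneg hsub (fun s hs _ => hnn s hs)
    have h2 := card_nsmul_le_sum _ _ _ hlong
    rw [card_powersetCard, hτc, nsmul_eq_mul] at h2
    have h3 : ((Nat.choose 3 2 : ℕ) : ℚ) = 3 := by norm_num [Nat.choose]
    rw [h3] at h2
    have h4 : ((F.filter (fun s => s.card = 4)).card : ℚ) ≤ 2 := by exact_mod_cast hQ2
    linarith

/-- Rank 4 with at most 14 vertices. -/
theorem cd_rank4 {W : Finset V} (h : Sph G W 4) (hcard : W.card ≤ 14) : 0 ≤ lam G W := by
  have h4 : Sph G W (2 * 2) := h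
  rcases Nat.lt_or_ge W.card 14 with hlt | hge
  · have := cd_few 2 W h4 (by omega)
    norm_num at this
    exact this
  have hW : W.card = 14 := by omega
  have fin : 0 ≤ (-1 : ℚ) ^ 2 * lam G W → 0 ≤ lam G W := by
    intro hh
    norm_num at hh
    exact hh
  have hedge : ∀ s ∈ faces G W, s.card = 2 → 0 ≤ (-1 : ℚ) ^ (2 - 1) * lam G (W ∩ lk G s) := by
    intro s hs hs2
    have hL := h.link hs
    rw [hs2] at hL
    have hL2 : Sph G (W ∩ lk G s) 2 := hL
    exact cd_one hL2
  by_cases hSF : SF G W
  swap
  · unfold SF at hSF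
    push Not at hSF
    obtain ⟨v, hv, hv2⟩ := hSF
    refine fin (cd_good h4 (by norm_num) hv ?_ ?_)
    · intro s hs
      have := card_le_card (mem_faces.1 hs).1
      omega
    · intro s hs hs2
      exact hedge s (faces_mono (non_subset W v) hs) hs2
  by_cases hgood : ∃ v ∈ W, ∀ s ∈ faces G (non G W v), s.card < 4
  · obtain ⟨v, hv, hD⟩ := hgood
    exact fin (cd_good h4 (by norm_num) hv hD
      (fun s hs hs2 => hedge s (faces_mono (non_subset W v) hs) hs2))
  push Not at hgood
  obtain ⟨v, hv, hmin⟩ := exists_min (G := G) (h.nonempty (by omega))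
  obtain ⟨κ, hκ, hκ4⟩ := hgood v hv
  have hκD := (mem_faces.1 hκ).1
  have hκc := card_le_card hκD
  have hκW : κ ∈ faces G W := faces_mono (non_subset W v) hκ
  have hκ4' : κ.card = 4 := le_antisymm (h.le _ hκW) hκ4
  rcases mindeg h hSF hv hmin with hS | ⟨a, b, w, w', M, d⟩
  · obtain ⟨b1, -, -⟩ := bound _ _ (h.link1 hv) hS
    have hcs := card_split (G := G) hv
    rcases Nat.lt_or_ge (non G W v).card 5 with hm | hm
    · have hD4 : (non G W v).card = 4 := by omega
      have hκeq : κ = non G W v := eq_of_subset_of_card_le hκD (by omega)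
      rw [hκeq] at hκW
      exact cd_four h hv hκW hD4
    · have hm5 : (non G W v).card = 5 := by omega
      exact cd_five h hSF hv hm5 (fun x hx => by rw [← hm5]; exact hmin x hx) (by omega)
        ⟨κ, hκ, hκ4⟩
  · exfalso
    obtain ⟨b1, b2, -⟩ := bound _ _ d.sph d.sfM
    have hcd := d.card
    have hn1 : w ∉ κ := by
      intro hwκ
      have h1 := d.adj_le hmin
      have h2 : κ.erase w ⊆ (non G W v).filter (fun y => G.Adj w y) := by
        intro y hy
        rw [mem_erase] at hy
        exact mem_filter.2 ⟨hκD hy.2, (mem_faces.1 hκ).2 w hwκ y hy.2 hy.1.symm⟩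
      have h3 := card_le_card h2
      rw [card_erase_of_mem hwκ] at h3
      omega
    have hn2 : w' ∉ κ := by
      intro hwκ
      have h1 := d.symm.adj_le hmin
      have h2 : κ.erase w' ⊆ (non G W v).filter (fun y => G.Adj w' y) := by
        intro y hy
        rw [mem_erase] at hy
        exact mem_filter.2 ⟨hκD hy.2, (mem_faces.1 hκ).2 w' hwκ y hy.2 hy.1.symm⟩
      have h3 := card_le_card h2
      rw [card_erase_of_mem hwκ] at h3
      omega
    have h6 : insert w (insert w' κ) ⊆ non G W v :=
      insert_subset d.hw (insert_subset d.hw' hκD)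
    have hww : w ∉ insert w' κ := by
      rw [mem_insert, not_or]
      exact ⟨d.ne, hn1⟩
    have h7 := card_le_card h6
    rw [card_insert_of_notMem hww, card_insert_of_notMem hn2] at h7
    have hm6 : (non G W v).card = 6 := by omega
    have hM5 : M.card = 5 := by omega
    have hMreg := b2 (by omega)
    have hDeq : insert w (insert w' κ) = non G W v := by
      refine eq_of_subset_of_card_le h6 ?_
      rw [card_insert_of_notMem hww, card_insert_of_notMem hn2]
      omega
    obtain ⟨q, hq⟩ : κ.Nonempty := by rw [← card_pos]; omega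
    have hqD := hκD hq
    have hqW := (mem_non.1 hqD).1
    have hqw : q ≠ w := by
      rintro rfl
      exact hn1 hq
    have hqw' : q ≠ w' := by
      rintro rfl
      exact hn2 hq
    have hL := (h.link1 hqW).two_mul_le
    have hsub : W ∩ lk G {q} ⊆ (non G W v).erase q := by
      intro y hy
      rw [mem_inter, mem_lk1] at hy
      obtain ⟨hyW, hyq⟩ := hy
      rw [mem_erase]
      refine ⟨hyq.ne, ?_⟩
      rw [d.hM] at hyW
      rcases hyW with rfl | rfl | rfl | hyD | hyM
      · exact absurd hyq (mem_non.1 hqD).2.2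
      · exfalso
        have : q ∈ non G W y := by
          rw [d.na, mem_insert, mem_erase]
          exact Or.inr ⟨hqw, hqD⟩
        exact (mem_non.1 this).2.2 hyq
      · exfalso
        have : q ∈ non G W y := by
          rw [d.nb, mem_insert, mem_erase]
          exact Or.inr ⟨hqw', hqD⟩
        exact (mem_non.1 this).2.2 hyq
      · exact hyD
      · exfalso
        have h8 := d.nM y hyM
        have h9 := hmin y ((d.hM y).2 (Or.inr (Or.inr (Or.inr (Or.inr hyM)))))
        have h10 := hMreg y hyM
        have h11 : (non G W y).card ≤ (non G M y).card + (non G W v \ lk G {y}).card := by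
          rw [h8]
          exact card_union_le _ _
        have h12 : non G W v \ lk G {y} ⊆ κ := by
          intro z hz
          rw [mem_sdiff, ← hDeq, mem_insert, mem_insert, mem_lk1] at hz
          rcases hz with ⟨rfl | rfl | hz, hz2⟩
          · exact absurd (d.Mw y hyM).symm hz2
          · exact absurd (d.Mw' y hyM).symm hz2
          · exact hz
        have h13 : non G W v \ lk G {y} = κ := eq_of_subset_of_card_le h12 (by omega)
        have h14 : q ∈ non G W v \ lk G {y} := by rw [h13]; exact hq
        rw [mem_sdiff, mem_lk1] at h14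
        exact h14.2 hyq.symm
    have h15 := card_le_card hsub
    rw [card_erase_of_mem hqD] at h15
    omega

end Pool.Agent.Lib.MP_fd533b_co
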