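import Mathlib
import Pool.Agent.Lib.MP_fd533b_co.Red

/-! Spheres in which every vertex has at most four non-neighbours, or non-neighbours without a
`4`-clique. -/

set_option linter.unusedSectionVars false
set_option linter.style.longLine false

namespace Pool.Agent.Lib.MP_fd533b_co

open Finset

variable {V : Type*} [Fintype V] [DecidableEq V] {G : SimpleGraph V} [DecidableRel G.Adj]

/-- If the non-neighbours of `v` form a `4`-clique, some vertex of the link of `v` is joined to
exactly two of them. -/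
lemma exists_two {n : ℕ} {W : Finset V} (h : Sph G W n) {v : V} (hv : v ∈ W)
    (hD : non G W v ∈ faces G W) (hc : (non G W v).card = 4) :
    ∃ u ∈ W ∩ lk G {v}, (non G W v ∩ lk G {u}).card = 2 := by
  have hDcl := (mem_faces.1 hD).2
  obtain ⟨τ, hτ, hτm⟩ := exists_facet (G := G) (W ∩ lk G (non G W v))
  have hL := h.link hD
  rw [hc] at hL
  have hDne : (non G W v).Nonempty := by
    rw [← card_pos]
    omega
  have hLv : ∀ y ∈ W ∩ lk G (non G W v), G.Adj y v := by
    intro y hy
    by_contra hna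
    obtain ⟨z, hz⟩ := hDne
    have hyl := mem_lk.1 (mem_inter.1 hy).2
    by_cases hyv : y = v
    · subst hyv
      exact (mem_non.1 hz).2.2 (hyl z hz)
    · have : y ∈ non G W v := mem_non.2 ⟨(mem_inter.1 hy).1, hyv, fun e => hna e.symm⟩
      exact G.loopless.irrefl y (hyl y this)
  -- τ is a facet of the link of D
  have hLτ := hL.link hτ
  have hLe : W ∩ lk G (non G W v) ∩ lk G τ = ∅ := by
    have := link_facet (G := G) (A := ∅) (B := W ∩ lk G (non G W v)) (by simp) hτ hτm
    rwa [empty_union] at this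
  rw [hLe] at hLτ
  have hr : n - 4 - τ.card = 0 := by
    by_contra hne
    have := hLτ.nonempty (by omega)
    simp at this
  have hle4 := h.le _ hD
  have hτle := hL.le τ hτ
  have hτW : τ ∈ faces G W := faces_mono inter_subset_left hτ
  have hτL := (mem_faces.1 hτ).1
  have hW' := h.link hτW
  rw [show n - τ.card = 4 by omega] at hW'
  have hvW' : v ∈ W ∩ lk G τ := by
    refine mem_inter.2 ⟨hv, mem_lk.2 ?_⟩
    intro y hy
    exact (hLv y (hτL hy)).symm
  have hnon : non G (W ∩ lk G τ) v = non G W v := by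
    ext y
    rw [mem_non, mem_non]
    constructor
    · rintro ⟨h1, h2⟩
      exact ⟨(mem_inter.1 h1).1, h2⟩
    · rintro ⟨h1, h2⟩
      refine ⟨mem_inter.2 ⟨h1, mem_lk.2 ?_⟩, h2⟩
      intro z hz
      exact (mem_lk.1 (mem_inter.1 (hτL hz)).2 y (mem_non.2 ⟨h1, h2⟩)).symm
  have hDf' : non G (W ∩ lk G τ) v ∈ faces G (W ∩ lk G τ) := by
    rw [mem_faces]
    refine ⟨non_subset _ _, ?_⟩
    rw [hnon]
    exact hDcl
  obtain ⟨s, hs, hs2, hs5⟩ := long_edge hW' hvW' hDf' (by rw [hnon]; exact hc)
  rw [hnon] at hs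
  have hsf : s ∈ faces G (W ∩ lk G τ) := by
    refine subset_mem_faces hDf' ?_
    rw [hnon]
    exact hs
  have hC := hW'.link hsf
  rw [hs2] at hC
  have hC2 : Sph G (W ∩ lk G τ ∩ lk G s) 2 := hC
  -- the other two elements of D
  have hsd : (non G W v \ s).card = 2 := by
    rw [card_sdiff_of_subset hs]
    omega
  obtain ⟨k, l, hkl, hkleq⟩ := card_eq_two.1 hsd
  have hkm : k ∈ non G W v \ s := by rw [hkleq]; simp
  have hlm : l ∈ non G W v \ s := by rw [hkleq]; simp
  have hmem : ∀ x ∈ non G W v \ s, x ∈ W ∩ lk G τ ∩ lk G s := by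
    intro x hx
    rw [mem_sdiff] at hx
    have hx' : x ∈ non G (W ∩ lk G τ) v := by rw [hnon]; exact hx.1
    refine mem_inter.2 ⟨(mem_non.1 hx').1, mem_lk.2 ?_⟩
    intro z hz
    refine hDcl x hx.1 z (hs hz) ?_
    rintro rfl
    exact hx.2 hz
  have hkC := hmem k hkm
  have hlC := hmem l hlm
  have hklad : G.Adj k l := hDcl k (mem_sdiff.1 hkm).1 l (mem_sdiff.1 hlm).1 hkl
  -- a vertex of the cycle joined to neither k nor l
  have hk2 := (hC2.link1 hkC).one_card
  have hl2 := (hC2.link1 hlC).one_card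
  have hex : ∃ u ∈ W ∩ lk G τ ∩ lk G s, ¬ G.Adj u k ∧ ¬ G.Adj u l ∧ u ≠ k ∧ u ≠ l := by
    by_contra hcon
    push Not at hcon
    have hsub : W ∩ lk G τ ∩ lk G s ⊆
        (W ∩ lk G τ ∩ lk G s ∩ lk G {k}) ∪ (W ∩ lk G τ ∩ lk G s ∩ lk G {l}) := by
      intro x hx
      rw [mem_union, mem_inter, mem_inter (a := x) (s₂ := lk G {l}), mem_lk1, mem_lk1]
      by_cases h1 : G.Adj x k
      · exact Or.inl ⟨hx, h1⟩
      by_cases h2 : G.Adj x l
      · exact Or.inr ⟨hx, h2⟩
      exfalso
      by_cases h3 : x = k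
      · subst h3
        exact h2 hklad
      · have h4 := hcon x hx h1 h2 h3
        subst h4
        exact h1 hklad.symm
    have h1 := card_le_card hsub
    have h2 := card_union_le (W ∩ lk G τ ∩ lk G s ∩ lk G {k}) (W ∩ lk G τ ∩ lk G s ∩ lk G {l})
    omega
  obtain ⟨u, huC, huk, hul, hukne, hulne⟩ := hex
  rw [mem_inter, mem_inter, mem_lk, mem_lk] at huC
  obtain ⟨⟨huW, huτ⟩, hus⟩ := huC
  obtain ⟨z, hz⟩ : s.Nonempty := by rw [← card_pos]; omega
  have huv : u ≠ v := by
    rintro rfl
    exact (mem_non.1 (hs hz)).2.2 (hus z hz)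
  have hus' : u ∉ s := fun hh => G.loopless.irrefl u (hus u hh)
  have huD : u ∉ non G W v := by
    intro hh
    have : u ∈ non G W v \ s := mem_sdiff.2 ⟨hh, hus'⟩
    rw [hkleq, mem_insert, mem_singleton] at this
    rcases this with e | e
    · exact hukne e
    · exact hulne e
  have huS : u ∈ W ∩ lk G {v} := by
    refine mem_inter.2 ⟨huW, mem_lk1.2 ?_⟩
    by_contra hna
    exact huD (mem_non.2 ⟨huW, huv, fun e => hna e.symm⟩)
  refine ⟨u, huS, ?_⟩
  have : non G W v ∩ lk G {u} = s := by
    ext x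
    rw [mem_inter, mem_lk1]
    constructor
    · rintro ⟨h1, h2⟩
      by_contra hxs
      have : x ∈ non G W v \ s := mem_sdiff.2 ⟨h1, hxs⟩
      rw [hkleq, mem_insert, mem_singleton] at this
      rcases this with rfl | rfl
      · exact huk h2.symm
      · exact hul h2.symm
    · intro hx
      exact ⟨hs hx, (hus x hx).symm⟩
  rw [this, hs2]

lemma non_inter_subset (W A : Finset V) (x : V) : non G (W ∩ A) x ⊆ non G W x := by
  intro y hy
  rw [mem_non] at hy ⊢
  exact ⟨(mem_inter.1 hy.1).1, hy.2⟩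

/-- **Charney-Davis** if every vertex whose non-neighbours contain a `4`-clique has at most four
non-neighbours. -/
theorem cd_fourNon : ∀ (k : ℕ) (W : Finset V), Sph G W (2 * k) →
    (∀ x ∈ W, ∀ t ∈ faces G (non G W x), t.card = 4 → (non G W x).card ≤ 4) →
    0 ≤ (-1 : ℚ) ^ k * lam G W := by
  intro k
  induction k using Nat.strong_induction_on with
  | _ k ih =>
    intro W h hcl
    rcases Nat.eq_zero_or_pos k with rfl | hk
    · rw [h.zero, lam_empty]
      norm_num
    -- the class is closed under links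
    have hclass : ∀ A : Finset V, ∀ x ∈ W ∩ A, ∀ t ∈ faces G (non G (W ∩ A) x), t.card = 4 →
        (non G (W ∩ A) x).card ≤ 4 := by
      intro A x hx t ht h4
      exact le_trans (card_le_card (non_inter_subset W A x))
        (hcl x (mem_inter.1 hx).1 t (faces_mono (non_inter_subset W A x) ht) h4)
    have hE2 : ∀ s ∈ faces G W, s.card = 2 → 0 ≤ (-1 : ℚ) ^ (k - 1) * lam G (W ∩ lk G s) := by
      intro s hs hs2
      have hL := h.link hs
      rw [hs2, show 2 * k - 2 = 2 * (k - 1) by omega] at hL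
      exact ih (k - 1) (by omega) _ hL (hclass _)
    by_cases hgood : ∃ v ∈ W, ∀ s ∈ faces G (non G W v), s.card < 4
    · obtain ⟨v, hv, hD⟩ := hgood
      exact cd_good h (by omega) hv hD
        (fun s hs hs2 => hE2 s (faces_mono (non_subset W v) hs) hs2)
    push Not at hgood
    have hdeg : ∀ x ∈ W, (non G W x).card = 4 ∧ non G W x ∈ faces G W := by
      intro x hx
      obtain ⟨κ, hκ, hκ4⟩ := hgood x hx
      obtain ⟨κ', hκ'κ, hκ'c⟩ := exists_subset_card_eq hκ4
      have hκ' := subset_mem_faces hκ hκ'κ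
      have h1 := hcl x hx κ' hκ' hκ'c
      have h2 := card_le_card (mem_faces.1 hκ').1
      have h3 : κ' = non G W x := eq_of_subset_of_card_le (mem_faces.1 hκ').1 (by omega)
      refine ⟨by omega, ?_⟩
      rw [← h3]
      exact faces_mono (non_subset W x) hκ'
    obtain ⟨v, hv⟩ := h.nonempty (by omega)
    obtain ⟨hv4, hvf⟩ := hdeg v hv
    have hle := h.le _ hvf
    by_cases hk2 : k = 2
    · subst hk2
      have := cd_four h hv hvf hv4
      norm_num
      exact this
    obtain ⟨u, hu, hu2⟩ := exists_two h hv hvf hv4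
    have h1 := non_link_card hu
    have h2 := non_sdiff_card W v u (G := G)
    have h3 := (hdeg u (mem_inter.1 hu).1).1
    refine cd_deg2 h (by omega) (fun x hx => by rw [(hdeg x hx).1]) hv hvf hv4 hu (by omega) hE2 ?_
    intro e he he2 x hx s hs hs2
    have hsW : s ∈ faces G (W ∩ lk G e) := faces_mono (non_subset _ _) hs
    have hL := (h.link he).link hsW
    rw [he2, hs2, show 2 * k - 2 - 2 = 2 * (k - 2) by omega] at hL
    refine ih (k - 2) (by omega) _ hL ?_
    rw [inter_assoc]
    exact hclass _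

end Pool.Agent.Lib.MP_fd533b_co
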