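import Mathlib
import Pool.Agent.Lib.MP_fd533b_co.Red

/-! Every counterexample has a join-irreducible counterexample as the link of a face. -/

set_option linter.unusedSectionVars false
set_option linter.style.longLine false

namespace Pool.Agent.Lib.MP_fd533b_co

open Finset

variable {V : Type*} [Fintype V] [DecidableEq V] {G : SimpleGraph V} [DecidableRel G.Adj]

lemma rank_unique {W : Finset V} {p q : ℕ} (hp : Sph G W p) (hq : Sph G W q) : p = q := by
  obtain ⟨σ, hσ, hσm⟩ := exists_facet (G := G) W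
  have he : W ∩ lk G σ = ∅ := by
    have := link_facet (G := G) (A := ∅) (B := W) (by simp) hσ hσm
    rwa [empty_union] at this
  have h1 := hp.link hσ
  have h2 := hq.link hσ
  rw [he] at h1 h2
  have h3 : p - σ.card = 0 := by
    by_contra hne
    have := h1.nonempty (by omega)
    simp at this
  have h4 : q - σ.card = 0 := by
    by_contra hne
    have := h2.nonempty (by omega)
    simp at this
  have h5 := hp.le σ hσ
  have h6 := hq.le σ hσ
  omega

/-- The irreducible counterexample can be taken to be the link of a face. -/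
theorem reduction_link {k : ℕ} {W : Finset V} (h : Sph G W (2 * k))
    (hneg : (-1 : ℚ) ^ k * lam G W < 0) :
    ∃ (k' : ℕ) (s : Finset V), s ∈ faces G W ∧ s.card + 2 * k' = 2 * k ∧
      (-1 : ℚ) ^ k' * lam G (W ∩ lk G s) < 0 ∧ Irr G (W ∩ lk G s) ∧ 2 ≤ k' ∧
      6 * k' + 2 ≤ (W ∩ lk G s).card ∧ 5 * k' + 5 ≤ (W ∩ lk G s).card ∧
      (W ∩ lk G s).card + 5 * k ≤ W.card + 5 * k' := by
  obtain ⟨k', s, W', hs, hW', hj, hsph, hI, hn, h2, h6, h5, hc⟩ := reduction _ k W rfl h hneg
  obtain ⟨σ, hσ, hσm⟩ := exists_facet (G := G) ((W ∩ lk G s) \ W')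
  have hlf := link_facet (G := G) hj hσ hσm
  rw [union_sdiff_of_subset hW'] at hlf
  have hσs : σ ∈ faces G (W ∩ lk G s) := faces_mono sdiff_subset hσ
  have hu := union_mem_faces hs hσs
  have hlk : W ∩ lk G (s ∪ σ) = W' := by rw [lk_union, ← inter_assoc, hlf]
  have hL := h.link hu
  rw [hlk] at hL
  have hr := rank_unique hL hsph
  have hle := h.le _ hu
  refine ⟨k', s ∪ σ, hu, by omega, ?_⟩
  rw [hlk]
  exact ⟨hn, hI, h2, h6, h5, hc⟩

end Pool.Agent.Lib.MP_fd533b_co
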