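import Mathlib
import Pool.Agent.Lib.MP_fd533b_co.Red3

/-! Spheres in which the links of the faces of codimension two have `4` or at least `m + 4`
vertices. -/

set_option linter.unusedSectionVars false
set_option linter.style.longLine false

namespace Pool.Agent.Lib.MP_fd533b_co

open Finset

variable {V : Type*} [Fintype V] [DecidableEq V] {G : SimpleGraph V} [DecidableRel G.Adj]

/-- Each link of a face with `n - 2` vertices has `4` or at least `m` vertices. -/
def Long (G : SimpleGraph V) [DecidableRel G.Adj] (m : ℕ) (W : Finset V) (n : ℕ) : Prop :=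
  ∀ σ ∈ faces G W, σ.card + 2 = n → (W ∩ lk G σ).card = 4 ∨ m ≤ (W ∩ lk G σ).card

lemma card_union_link {W s σ : Finset V} (hσ : σ ∈ faces G (W ∩ lk G s)) :
    (s ∪ σ).card = s.card + σ.card := by
  refine card_union_of_disjoint ?_
  rw [Finset.disjoint_left]
  intro x hx hx'
  exact G.loopless.irrefl x (mem_lk.1 (mem_inter.1 ((mem_faces.1 hσ).1 hx')).2 x hx)

lemma Long.link {m n : ℕ} {W s : Finset V} (h : Long G m W n) (hs : s ∈ faces G W) :
    Long G m (W ∩ lk G s) (n - s.card) := by
  intro σ hσ hc
  have h1 := h (s ∪ σ) (union_mem_faces hs hσ) (by rw [card_union_link hσ]; omega)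
  rwa [lk_union, ← inter_assoc] at h1

lemma Long.left {m n p : ℕ} {A B : Finset V} (hL : Long G m (A ∪ B) n) (h : Sph G (A ∪ B) n)
    (hadj : ∀ a ∈ A, ∀ b ∈ B, G.Adj a b) (hA : Sph G A p) : Long G m A p := by
  intro σ hσ hc
  obtain ⟨τ, hτ, hτm⟩ := exists_facet (G := G) B
  have h1 := link_facet hadj hτ hτm
  have hτW : τ ∈ faces G (A ∪ B) := faces_mono subset_union_right hτ
  have h2 := h.link hτW
  rw [h1] at h2
  have h3 := rank_unique hA h2
  have h4 := hL.link hτW
  rw [h1, ← h3] at h4
  exact h4 σ hσ hc

lemma long_deg {m : ℕ} : ∀ {n : ℕ} {W : Finset V} {x : V}, Sph G W n → Long G m W n → x ∈ W →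
    2 ≤ (non G W x).card → m ≤ (non G W x).card + 3 := by
  intro n
  induction n with
  | zero =>
    intro W x h _ hx _
    rw [h.zero] at hx
    simp at hx
  | succ n ih =>
    intro W x h hL hx h2
    have hS := h.link1 hx
    have hsp := card_split (G := G) hx
    rcases Nat.eq_zero_or_pos n with rfl | hn
    · have := h.one_card
      omega
    by_cases hn1 : n = 1
    · subst hn1
      have h1 := hL ∅ (empty_mem_faces _) (by simp)
      rw [lk_empty, inter_univ] at h1
      have h3 := hS.one_card
      omega
    by_cases hex : ∃ y ∈ W ∩ lk G {x}, 2 ≤ (non G W x ∩ lk G {y}).card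
    · obtain ⟨y, hy, hy2⟩ := hex
      have hyW := (mem_inter.1 hy).1
      have hxy := mem_lk1.1 (mem_inter.1 hy).2
      have hLy := hL.link (single_mem_faces hyW)
      rw [card_singleton, Nat.add_sub_cancel] at hLy
      have hxL : x ∈ W ∩ lk G {y} := mem_inter.2 ⟨hx, mem_lk1.2 hxy.symm⟩
      have h3 := ih (h.link1 hyW) hLy hxL (by rw [non_link1]; exact hy2)
      rw [non_link1] at h3
      have h4 := card_le_card (inter_subset_left (s₁ := non G W x) (s₂ := lk G {y}))
      omega
    push Not at hex
    exfalso
    obtain ⟨y0, hy0⟩ := hS.nonempty (by omega)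
    obtain ⟨w, hw⟩ := h.T_nonempty hx hy0
    have huniq : ∀ y ∈ W ∩ lk G {x}, ∀ a ∈ non G W x ∩ lk G {y}, ∀ b ∈ non G W x ∩ lk G {y},
        a = b := by
      intro y hy a ha b hb
      by_contra hab
      have h3 : ({a, b} : Finset V) ⊆ non G W x ∩ lk G {y} := by
        intro z hz
        rw [mem_insert, mem_singleton] at hz
        rcases hz with rfl | rfl <;> assumption
      have h4 := card_le_card h3
      rw [card_pair hab] at h4
      have := hex y hy
      omega
    have hwN := (mem_inter.1 hw).1
    have hwW := (mem_non.1 hwN).1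
    have hcon := h.con {x} (single_mem_faces hx) (by rw [card_singleton]; omega)
    have hA := hcon.2 ((W ∩ lk G {x}).filter (fun y => G.Adj w y)) (filter_subset _ _)
      ⟨y0, mem_filter.2 ⟨hy0, mem_lk1.1 (mem_inter.1 hw).2⟩⟩ (by
        intro y hy y' hy' hyy'
        rw [mem_filter] at hy ⊢
        refine ⟨hy', ?_⟩
        have hyW := (mem_inter.1 hy.1).1
        have hxy := mem_lk1.1 (mem_inter.1 hy.1).2
        have hxL : x ∈ W ∩ lk G {y} := mem_inter.2 ⟨hx, mem_lk1.2 hxy.symm⟩
        have hy'L : y' ∈ W ∩ lk G {y} ∩ lk G {x} :=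
          mem_inter.2 ⟨mem_inter.2 ⟨(mem_inter.1 hy').1, mem_lk1.2 hyy'.symm⟩, (mem_inter.1 hy').2⟩
        obtain ⟨w', hw'⟩ := (h.link1 hyW).T_nonempty hxL hy'L
        rw [non_link1, mem_inter] at hw'
        have := huniq y hy.1 w (mem_inter.2 ⟨hwN, mem_lk1.2 hy.2⟩) w' hw'.1
        rw [this]
        exact mem_lk1.1 hw'.2)
    have hsub : W ∩ lk G {x} ⊆ W ∩ lk G {w} := by
      intro y hy
      have hy' := hy
      rw [← hA, mem_filter] at hy'
      exact mem_inter.2 ⟨(mem_inter.1 hy).1, mem_lk1.2 hy'.2.symm⟩
    have heq := (h.link1 hwW).eq_of_subset hS hsub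
    have hsus := h.eq_susp hx hwW (mem_non.1 hwN).2.1.symm heq
    have hN : non G W x ⊆ {w} := by
      intro z hz
      rw [mem_singleton]
      have hz' := mem_non.1 hz
      have hzW := hz'.1
      rw [hsus, mem_insert, mem_insert] at hzW
      rcases hzW with e | e | e
      · exact absurd e hz'.2.1
      · exact e
      · exact absurd (mem_lk1.1 (mem_inter.1 e).2).symm hz'.2.2
    have := card_le_card hN
    rw [card_singleton] at this
    omega

lemma long_irr {m : ℕ} : ∀ {n : ℕ} {W : Finset V}, 1 ≤ n → Sph G W n → Irr G W →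
    Long G (m + 4) W n → (m + 2) * n ≤ W.card + m := by
  intro n
  induction n with
  | zero => intro W h1; omega
  | succ n ih =>
    intro W _ h hI hL
    rcases Nat.eq_zero_or_pos n with rfl | hn
    · rw [h.one_card]
      omega
    · obtain ⟨v, hv, hIv⟩ := irr_link h (by omega) hI
      have hLv := hL.link (single_mem_faces hv)
      rw [card_singleton, Nat.add_sub_cancel] at hLv
      have h1 := ih hn (h.link1 hv) hIv hLv
      have h2 := irr_sf h (by omega) hI v hv
      have h3 := card_split (G := G) hv
      have h4 := long_deg h hL hv h2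
      rw [Nat.mul_succ]
      omega

lemma long_bound {m : ℕ} : ∀ (N : ℕ) {n : ℕ} {W : Finset V}, W.card = N → Sph G W n → SF G W →
    Long G (m + 4) W n → (m + 4) * n ≤ 2 * W.card := by
  intro N
  induction N using Nat.strong_induction_on with
  | _ N ih =>
    intro n W hN h hSF hL
    rcases Nat.eq_zero_or_pos n with rfl | hn
    · omega
    by_cases hI : Irr G W
    · by_cases hn1 : n = 1
      · subst hn1
        obtain ⟨x, hx⟩ := h.nonempty hn
        have h1 := hSF x hx
        have h2 := h.one_card
        have h3 := card_split (G := G) hx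
        omega
      · have h1 := long_irr hn h hI hL
        have h2 : m * 2 ≤ m * n := Nat.mul_le_mul_left m (by omega)
        have h3 : (m + 4) * n = m * n + 4 * n := by ring
        have h4 : (m + 2) * n = m * n + 2 * n := by ring
        omega
    · obtain ⟨A, B, hAB, hA, hB, hadj⟩ := exists_split (h.nonempty hn) hI
      subst hAB
      obtain ⟨p, q, hpq, hSA, hSB⟩ := join_ranks h hadj
      have hdis : Disjoint A B := by
        rw [Finset.disjoint_left]
        intro x hx hx'
        exact G.loopless.irrefl x (hadj x hx x hx')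
      have hcardAB := card_union_of_disjoint hdis
      have hApos := card_pos.2 hA
      have hBpos := card_pos.2 hB
      have hadj' : ∀ b ∈ B, ∀ a ∈ A, G.Adj b a := fun b hb a ha => (hadj a ha b hb).symm
      have h1 := ih A.card (by omega) rfl hSA (sf_join_left hadj hSF) (hL.left h hadj hSA)
      have hL' := hL
      have h' := h
      rw [union_comm] at hL' h'
      have h2 := ih B.card (by omega) rfl hSB (sf_join_right hadj hSF) (hL'.left h' hadj' hSB)
      rw [← hpq, Nat.mul_add]
      omega

lemma long_edge_count {m n : ℕ} {W : Finset V} (h : Sph G W n) (hSF : SF G W) (hL : Long G (m + 4) W n)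
    {s : Finset V} (hs : s ∈ faces G W) (h2 : s.card = 2) :
    (W ∩ lk G s).card + (m + 4) ≤ W.card := by
  obtain ⟨x, y, hxy, rfl⟩ := card_eq_two.1 h2
  rw [mem_faces] at hs
  have hx : x ∈ W := hs.1 (by simp)
  have hy : y ∈ W := hs.1 (by simp)
  have hadj : G.Adj x y := hs.2 x (by simp) y (by simp) hxy
  obtain ⟨z, hz⟩ := h.T_nonempty hy (mem_inter.2 ⟨hx, mem_lk1.2 hadj⟩)
  rw [mem_inter, mem_non, mem_lk1] at hz
  obtain ⟨⟨hzW, hzy, hyz⟩, hzx⟩ := hz
  have hx2 := long_deg h hL hx (hSF x hx)
  have hzn : z ∉ non G W x := by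
    rw [mem_non]
    rintro ⟨-, -, h4⟩
    exact h4 hzx.symm
  have hyn : y ∉ insert z (non G W x) := by
    rw [mem_insert, mem_non]
    rintro (e | e)
    · exact hzy e.symm
    · exact e.2.2 hadj
  have hxn : x ∉ insert y (insert z (non G W x)) := by
    rw [mem_insert, mem_insert, mem_non]
    rintro (e | e | e)
    · exact hxy e
    · subst e
      exact G.loopless.irrefl _ hzx
    · exact e.2.1 rfl
  have hsub : insert x (insert y (insert z (non G W x))) ⊆ W :=
    insert_subset hx (insert_subset hy (insert_subset hzW (non_subset W x)))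
  have hdis : Disjoint (W ∩ lk G {x, y}) (insert x (insert y (insert z (non G W x)))) := by
    rw [Finset.disjoint_left]
    intro u hu hu'
    rw [mem_inter, mem_lk] at hu
    have hux := hu.2 x (by simp)
    have huy := hu.2 y (by simp)
    rw [mem_insert, mem_insert, mem_insert, mem_non] at hu'
    rcases hu' with rfl | rfl | rfl | e
    · exact G.loopless.irrefl _ hux
    · exact G.loopless.irrefl _ huy
    · exact hyz huy.symm
    · exact e.2.2 hux.symm
  have hc := card_le_card (union_subset (inter_subset_left (s₁ := W) (s₂ := lk G {x, y})) hsub)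
  rw [card_union_of_disjoint hdis, card_insert_of_notMem hxn, card_insert_of_notMem hyn,
    card_insert_of_notMem hzn] at hc
  omega

end Pool.Agent.Lib.MP_fd533b_co
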