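import Mathlib
import Pool.Agent.Lib.MP_fd533b_co.Long

/-! The reduction for spheres without short links in codimension two. -/

set_option linter.unusedSectionVars false
set_option linter.style.longLine false

namespace Pool.Agent.Lib.MP_fd533b_co

open Finset

variable {V : Type*} [Fintype V] [DecidableEq V] {G : SimpleGraph V} [DecidableRel G.Adj]

/-- Every counterexample has a join-irreducible counterexample with many vertices as a join
factor of the link of a face. -/
theorem reductionL (m : ℕ) : ∀ (N : ℕ) (k : ℕ) (W : Finset V), W.card = N → Sph G W (2 * k) →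
    Long G (m + 4) W (2 * k) → (-1 : ℚ) ^ k * lam G W < 0 →
    ∃ (k' : ℕ) (s W' : Finset V), s ∈ faces G W ∧ W' ⊆ W ∩ lk G s ∧
      (∀ x ∈ W', ∀ y ∈ (W ∩ lk G s) \ W', G.Adj x y) ∧ Sph G W' (2 * k') ∧ Irr G W' ∧
      (-1 : ℚ) ^ k' * lam G W' < 0 ∧ 2 ≤ k' ∧ 6 * k' + 2 ≤ W'.card ∧ 5 * k' + 5 ≤ W'.card ∧
      W'.card + (m + 4) * k ≤ W.card + (m + 4) * k' ∧ Bad G W' ∧
      Long G (m + 4) W' (2 * k') := by
  intro N
  induction N using Nat.strong_induction_on with
  | _ N ih =>
    intro k W hN h hL0 hneg
    -- passing to a link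
    have pass : ∀ (e : Finset V), e ∈ faces G W → e.Nonempty → ∀ j : ℕ,
        Sph G (W ∩ lk G e) (2 * j) → Long G (m + 4) (W ∩ lk G e) (2 * j) →
        (-1 : ℚ) ^ j * lam G (W ∩ lk G e) < 0 →
        (W ∩ lk G e).card + (m + 4) * k ≤ W.card + (m + 4) * j →
        ∃ (k' : ℕ) (s W' : Finset V), s ∈ faces G W ∧ W' ⊆ W ∩ lk G s ∧
        (∀ x ∈ W', ∀ y ∈ (W ∩ lk G s) \ W', G.Adj x y) ∧ Sph G W' (2 * k') ∧ Irr G W' ∧
        (-1 : ℚ) ^ k' * lam G W' < 0 ∧ 2 ≤ k' ∧ 6 * k' + 2 ≤ W'.card ∧ 5 * k' + 5 ≤ W'.card ∧
        W'.card + (m + 4) * k ≤ W.card + (m + 4) * k' ∧ Bad G W' ∧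
      Long G (m + 4) W' (2 * k') := by
      intro e he hne j hj hjL hjneg hjc
      have hlt : (W ∩ lk G e).card < N := by
        rw [← hN]
        obtain ⟨x, hx⟩ := hne
        refine card_lt_card (Finset.ssubset_iff_subset_ne.2 ⟨inter_subset_left, ?_⟩)
        intro heq
        have hxW := (mem_faces.1 he).1 hx
        rw [← heq, mem_inter, mem_lk] at hxW
        exact G.loopless.irrefl x (hxW.2 x hx)
      obtain ⟨k', s, W', hs, hW', hjoin, hsph, hI, hn, h2, h6, h5, hc, hB, hLg⟩ :=
        ih _ hlt j _ rfl hj hjL hjneg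
      have hlk : W ∩ lk G (e ∪ s) = W ∩ lk G e ∩ lk G s := by rw [lk_union, inter_assoc]
      refine ⟨k', e ∪ s, W', union_mem_faces he hs, ?_, ?_, hsph, hI, hn, h2, h6, h5, by omega, hB, hLg⟩
      · rw [hlk]; exact hW'
      · rw [hlk]; exact hjoin
    by_cases hSF : SF G W
    swap
    · exact absurd (cd_of_not_sf h hSF) (not_le.2 hneg)
    have hk1 : 1 ≤ k := by
      by_contra hk0
      have : k = 0 := by omega
      subst this
      rw [h.zero, lam_empty] at hneg
      norm_num at hneg
    have hne : W.Nonempty := h.nonempty (by omega)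
    by_cases hI : Irr G W
    swap
    · -- a join
      obtain ⟨A, B, hAB, hA, hB, hadj⟩ := exists_split hne hI
      subst hAB
      obtain ⟨p, q, hpq, hSA, hSB⟩ := join_ranks h hadj
      have hdis : Disjoint A B := by
        rw [Finset.disjoint_left]
        intro x hx hx'
        exact G.loopless.irrefl x (hadj x hx x hx')
      have hcardAB := card_union_of_disjoint hdis
      have hApos := card_pos.2 hA
      have hBpos := card_pos.2 hB
      have hsfA := sf_join_left hadj hSF
      have hsfB := sf_join_right hadj hSF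
      have hadj' : ∀ b ∈ B, ∀ a ∈ A, G.Adj b a := fun b hb a ha => (hadj a ha b hb).symm
      have hLA := hL0.left h hadj hSA
      have hLB : Long G (m + 4) B q := by
        have hL' := hL0
        have h' := h
        rw [union_comm] at hL' h'
        exact hL'.left h' hadj' hSB
      have hbA := long_bound _ rfl hSA hsfA hLA
      have hbB := long_bound _ rfl hSB hsfB hLB
      rcases Nat.even_or_odd p with hp | hp
      swap
      · rw [lam_join hadj, hSA.lam_odd hp] at hneg
        simp at hneg
      obtain ⟨p', hp'⟩ := hp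
      have hq' : q = 2 * (k - p') := by omega
      have hp'' : p = 2 * p' := by omega
      subst hp''
      subst hq'
      have hmk : (m + 4) * k = (m + 4) * p' + (m + 4) * (k - p') := by
        rw [← Nat.mul_add]
        congr 1
        omega
      rw [show (m + 4) * (2 * p') = 2 * ((m + 4) * p') by ring] at hbA
      rw [show (m + 4) * (2 * (k - p')) = 2 * ((m + 4) * (k - p')) by ring] at hbB
      have hprod : ((-1 : ℚ) ^ p' * lam G A) * ((-1 : ℚ) ^ (k - p') * lam G B) < 0 := by
        have : (-1 : ℚ) ^ k = (-1) ^ p' * (-1) ^ (k - p') := by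
          rw [← pow_add]
          congr 1
          omega
        rw [lam_join hadj, this] at hneg
        linarith [hneg, show (-1 : ℚ) ^ p' * lam G A * ((-1) ^ (k - p') * lam G B) =
          (-1) ^ p' * (-1) ^ (k - p') * (lam G A * lam G B) by ring]
      -- transfer from a factor
      have trans : ∀ A' B' : Finset V, A' ∪ B' = A ∪ B → (∀ a ∈ A', ∀ b ∈ B', G.Adj a b) →
          ∀ j : ℕ, Sph G A' (2 * j) → Long G (m + 4) A' (2 * j) →
          (-1 : ℚ) ^ j * lam G A' < 0 → A'.card < N →
          A'.card + (m + 4) * k ≤ (A ∪ B).card + (m + 4) * j →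
          ∃ (k' : ℕ) (s W' : Finset V), s ∈ faces G (A ∪ B) ∧ W' ⊆ (A ∪ B) ∩ lk G s ∧
          (∀ x ∈ W', ∀ y ∈ ((A ∪ B) ∩ lk G s) \ W', G.Adj x y) ∧ Sph G W' (2 * k') ∧ Irr G W' ∧
          (-1 : ℚ) ^ k' * lam G W' < 0 ∧ 2 ≤ k' ∧ 6 * k' + 2 ≤ W'.card ∧ 5 * k' + 5 ≤ W'.card ∧
          W'.card + (m + 4) * k ≤ (A ∪ B).card + (m + 4) * k' ∧ Bad G W' ∧
          Long G (m + 4) W' (2 * k') := by
        intro A' B' hun hadj1 j hj hjL hjneg hlt hjc
        obtain ⟨k', s, W', hs, hW', hjoin, hsph, hI', hn, h2, h6, h5, hc, hBd, hLg⟩ :=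
          ih _ hlt j _ rfl hj hjL hjneg
        have hA' : A' ⊆ A ∪ B := by rw [← hun]; exact subset_union_left
        refine ⟨k', s, W', faces_mono hA' hs, ?_, ?_, hsph, hI', hn, h2, h6, h5, by omega, hBd, hLg⟩
        · exact hW'.trans (inter_subset_inter_right hA')
        · intro x hx y hy
          rw [mem_sdiff, mem_inter, ← hun, mem_union] at hy
          obtain ⟨⟨hy1 | hy1, hy2⟩, hy3⟩ := hy
          · exact hjoin x hx y (mem_sdiff.2 ⟨mem_inter.2 ⟨hy1, hy2⟩, hy3⟩)
          · exact hadj1 x (mem_inter.1 (hW' hx)).1 y hy1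
      rcases lt_or_ge ((-1 : ℚ) ^ p' * lam G A) 0 with hAneg | hApos'
      · exact trans A B rfl hadj p' hSA hLA hAneg (by omega) (by omega)
      · have hBneg : (-1 : ℚ) ^ (k - p') * lam G B < 0 := by
          by_contra hge
          push Not at hge
          exact absurd (mul_nonneg hApos' hge) (not_le.2 hprod)
        exact trans B A (union_comm B A) hadj' (k - p') hSB hLB hBneg (by omega) (by omega)
    -- irreducible
    have hk2 : 2 ≤ k := by
      by_contra hk0
      have : k = 1 := by omega
      subst this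
      exact absurd (cd_one h) (not_le.2 hneg)
    by_contra hcon
    have hE2 : ∀ s ∈ faces G W, s.card = 2 → 0 ≤ (-1 : ℚ) ^ (k - 1) * lam G (W ∩ lk G s) := by
      intro s hs hs2
      by_contra hlt
      push Not at hlt
      have hL := h.link hs
      rw [hs2, show 2 * k - 2 = 2 * (k - 1) by omega] at hL
      have hec := long_edge_count h hSF hL0 hs hs2
      have hLs := hL0.link hs
      rw [hs2, show 2 * k - 2 = 2 * (k - 1) by omega] at hLs
      have hmk : (m + 4) * k = (m + 4) * (k - 1) + (m + 4) := by
        rw [← Nat.mul_succ]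
        congr 1
        omega
      exact hcon (pass s hs (by rw [← card_pos]; omega) (k - 1) hL hLs hlt (by omega))
    have hE4 : ∀ e ∈ faces G W, e.card = 2 → ∀ x ∈ W ∩ lk G e,
      ∀ s ∈ faces G (non G (W ∩ lk G e) x), s.card = 2 →
        0 ≤ (-1 : ℚ) ^ (k - 2) * lam G (W ∩ lk G e ∩ lk G s) := by
      intro e he he2 x hx s hs hs2
      by_contra hlt
      push Not at hlt
      have hΛ := h.link he
      rw [he2, show 2 * k - 2 = 2 * (k - 1) by omega] at hΛ
      have hsΛ : s ∈ faces G (W ∩ lk G e) := faces_mono (non_subset _ _) hs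
      have hL := hΛ.link hsΛ
      rw [hs2, show 2 * (k - 1) - 2 = 2 * (k - 2) by omega] at hL
      have hsx := (mem_faces.1 hs).1
      have hSFΛ : SF G (W ∩ lk G e) := by
        by_contra hns
        have hns' := hns
        unfold SF at hns
        push Not at hns
        obtain ⟨p, hp, hp2⟩ := hns
        have hp1 := card_pos.2 (hΛ.non_nonempty hp)
        obtain ⟨q, hq⟩ := card_eq_one.1 (by omega : (non G (W ∩ lk G e) p).card = 1)
        have hq' := hΛ.non_single hp hq
        -- p, q are not in s
        have hnot : ∀ p q : V, non G (W ∩ lk G e) p = {q} → non G (W ∩ lk G e) q = {p} →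
            p ∉ s := by
          intro p q hq hq' hps
          have h1 := hsx hps
          have h2 := non_symm hx h1
          rw [hq, mem_singleton] at h2
          subst h2
          rw [hq'] at hsx
          have := card_le_card hsx
          rw [card_singleton] at this
          omega
        have hps := hnot p q hq hq'
        have hqs := hnot q p hq' hq
        have hpL : p ∈ W ∩ lk G e ∩ lk G s := by
          refine mem_inter.2 ⟨hp, mem_lk.2 ?_⟩
          intro z hz
          by_contra hna
          have hzn : z ∈ non G (W ∩ lk G e) p :=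
            mem_non.2 ⟨(mem_faces.1 hsΛ).1 hz, by rintro rfl; exact hps hz, hna⟩
          rw [hq, mem_singleton] at hzn
          subst hzn
          exact hqs hz
        have hnsL : ¬ SF G (W ∩ lk G e ∩ lk G s) := by
          intro hsf
          have h1 := hsf p hpL
          have h2 : non G (W ∩ lk G e ∩ lk G s) p ⊆ non G (W ∩ lk G e) p := by
            intro z hz
            rw [mem_non] at hz ⊢
            exact ⟨(mem_inter.1 hz.1).1, hz.2⟩
          have h3 := card_le_card h2
          omega
        exact absurd (cd_of_not_sf hL hnsL) (not_le.2 hlt)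
      have hLe := hL0.link he
      rw [he2, show 2 * k - 2 = 2 * (k - 1) by omega] at hLe
      have hLs := hLe.link hsΛ
      rw [hs2, show 2 * (k - 1) - 2 = 2 * (k - 2) by omega] at hLs
      have hec := long_edge_count h hSF hL0 he he2
      have hec2 := long_edge_count hΛ hSFΛ hLe hsΛ hs2
      have hmk : (m + 4) * k = (m + 4) * (k - 2) + 2 * (m + 4) := by
        rw [Nat.mul_comm 2, ← Nat.mul_add]
        congr 1
        omega
      have hlk : W ∩ lk G (e ∪ s) = W ∩ lk G e ∩ lk G s := by rw [lk_union, inter_assoc]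
      rw [← hlk] at hL hlt hec2 hLs
      refine hcon (pass (e ∪ s) (union_mem_faces he hsΛ) ?_ (k - 2) hL hLs hlt (by omega))
      obtain ⟨y, hy⟩ : e.Nonempty := by rw [← card_pos]; omega
      exact ⟨y, mem_union_left _ hy⟩
    have hbad : ∀ x ∈ W, ∃ t ∈ faces G (non G W x), t.card = 4 := by
      intro x hx
      by_contra hno
      push Not at hno
      refine absurd (cd_good h (by omega) hx ?_ ?_) (not_le.2 hneg)
      · intro s hs
        by_contra hlt
        push Not at hlt
        obtain ⟨t, hts, ht4⟩ := exists_subset_card_eq hlt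
        exact hno t (subset_mem_faces hs hts) ht4
      · intro s hs hs2
        exact hE2 s (faces_mono (non_subset W x) hs) hs2
    have hdeg : ∀ x ∈ W, 4 ≤ (non G W x).card := by
      intro x hx
      obtain ⟨t, ht, ht4⟩ := hbad x hx
      have := card_le_card (mem_faces.1 ht).1
      omega
    have hdense : 4 * W.card < ∑ x ∈ W, (non G W x).card := by
      by_contra hle
      push Not at hle
      have heq : ∀ x ∈ W, (non G W x).card = 4 := by
        have h1 : ∑ x ∈ W, (non G W x).card = ∑ x ∈ W, 4 := by
          refine le_antisymm ?_ (sum_le_sum hdeg)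
          rw [sum_const, smul_eq_mul, mul_comm]
          exact hle
        exact fun x hx => ((sum_eq_sum_iff_of_le (fun i hi => hdeg i hi)).1 h1.symm x hx).symm
      have hcl : ∀ x ∈ W, non G W x ∈ faces G W := by
        intro x hx
        obtain ⟨t, ht, ht4⟩ := hbad x hx
        have h3 : t = non G W x :=
          eq_of_subset_of_card_le (mem_faces.1 ht).1 (by rw [heq x hx]; omega)
        rw [← h3]
        exact faces_mono (non_subset W x) ht
      obtain ⟨v, hv⟩ := hne
      by_cases hk3 : k = 2
      · subst hk3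
        have := cd_four h hv (hcl v hv) (heq v hv)
        norm_num at hneg
        exact absurd this (not_le.2 hneg)
      obtain ⟨u, hu, hu2⟩ := exists_two h hv (hcl v hv) (heq v hv)
      have h1 := non_link_card hu
      have h2 := non_sdiff_card W v u (G := G)
      have h3 := heq u (mem_inter.1 hu).1
      have h4 := heq v hv
      exact absurd (cd_deg2 h (by omega) hdeg hv (hcl v hv) h4 hu (by omega) hE2 hE4)
        (not_le.2 hneg)
    by_cases hbig : 6 * k + 2 ≤ W.card ∧ 5 * k + 5 ≤ W.card
    · refine hcon ⟨k, ∅, W, empty_mem_faces _, ?_, ?_, h, hI, hneg, hk2, hbig.1, hbig.2, le_refl _,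
        ⟨hbad, hdense⟩, hL0⟩
      · rw [lk_empty, inter_univ]
      · intro x hx y hy
        rw [lk_empty, inter_univ, sdiff_self] at hy
        simp at hy
    by_cases hk3 : k = 2
    · subst hk3
      have h14 : W.card ≤ 14 := by omega
      have h4 : Sph G W 4 := h
      have := cd_rank4 h4 h14
      norm_num at hneg
      exact absurd this (not_le.2 hneg)
    exact absurd (cd_irr h (by omega) hI (by omega) hE2 hE4) (not_le.2 hneg)

/-- Lower bound for the number of vertices of the irreducible counterexample. -/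
lemma long_size {m k : ℕ} {W : Finset V} (h : Sph G W (2 * k)) (hI : Irr G W)
    (hL : Long G (m + 4) W (2 * k)) (hneg : (-1 : ℚ) ^ k * lam G W < 0) (hk : 2 ≤ k)
    (hbad : Bad G W) (hm : 1 ≤ m) : (m + 4) * k + max 4 m ≤ W.card := by
  obtain ⟨v, hv, hIv⟩ := irr_link h (by omega) hI
  have hS := h.link1 hv
  have hLv := hL.link (single_mem_faces hv)
  rw [card_singleton] at hLv
  have h1 := long_irr (by omega) hS hIv hLv
  have h2 := card_split (G := G) hv
  obtain ⟨t, ht, ht4⟩ := hbad.1 v hv
  have h3 := card_le_card (mem_faces.1 ht).1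
  have h4 := long_deg h hL hv (by omega)
  obtain ⟨j, rfl⟩ : ∃ j, k = j + 2 := ⟨k - 2, by omega⟩
  have e1 : (m + 2) * (2 * (j + 2) - 1) = 2 * (m * j) + 4 * j + 3 * m + 6 := by
    rw [show 2 * (j + 2) - 1 = 2 * j + 3 by omega]
    ring
  have e2 : (m + 4) * (j + 2) = m * j + 4 * j + 2 * m + 8 := by ring
  rw [e1] at h1
  rw [e2]
  rcases Nat.eq_zero_or_pos j with rfl | hj
  · -- rank four: at least five non-neighbours
    have h5 : 5 ≤ (non G W v).card := by
      by_contra hlt
      have h6 : (non G W v).card = 4 := by omega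
      have h7 : t = non G W v := eq_of_subset_of_card_le (mem_faces.1 ht).1 (by omega)
      have h8 : non G W v ∈ faces G W := by
        rw [← h7]
        exact faces_mono (non_subset W v) ht
      have h9 : Sph G W 4 := h
      have := cd_four h9 hv h8 h6
      norm_num at hneg
      exact absurd this (not_le.2 hneg)
    simp only [mul_zero] at h1 ⊢
    omega
  · have hmj : m ≤ m * j := Nat.le_mul_of_pos_right m hj
    omega

/-- **Charney-Davis for complexes without short links in codimension two.** -/
theorem cd_long {m k : ℕ} {W : Finset V} (hm : 1 ≤ m) (h : Sph G W (2 * k))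
    (hL : Long G (m + 4) W (2 * k)) (hcard : W.card < (m + 4) * k + max 4 m) :
    0 ≤ (-1 : ℚ) ^ k * lam G W := by
  by_contra hneg
  push Not at hneg
  obtain ⟨k', s, W', -, -, -, hsph, hI, hn, h2, -, -, hc, hB, hLg⟩ :=
    reductionL m _ k W rfl h hL hneg
  have := long_size hsph hI hLg hn h2 hB hm
  omega

end Pool.Agent.Lib.MP_fd533b_co
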