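import Mathlib
import Pool.Agent.Lib.MP_fd533b_co.Long2

/-! The structure theorem for spheres without short links in codimension two. -/

set_option linter.unusedSectionVars false
set_option linter.style.longLine false

namespace Pool.Agent.Lib.MP_fd533b_co

open Finset

variable {V : Type*} [Fintype V] [DecidableEq V] {G : SimpleGraph V} [DecidableRel G.Adj]

lemma long_five {n : ℕ} {W : Finset V} (h : Sph G W n) : Long G 5 W n := by
  intro σ hσ hc
  have h1 := h.link hσ
  rw [show n - σ.card = 2 by omega] at h1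
  have := h1.two_mul_le
  omega

/-- Sharper lower bound for the number of vertices of the irreducible counterexample. -/
lemma long_size' {m k : ℕ} {W : Finset V} (h : Sph G W (2 * k)) (hI : Irr G W)
    (hL : Long G (m + 4) W (2 * k)) (hk : 2 ≤ k) (hbad : Bad G W) :
    2 * ((m + 2) * k) + max 4 (m + 1) ≤ W.card + 2 * m + 1 := by
  obtain ⟨v, hv, hIv⟩ := irr_link h (by omega) hI
  have hS := h.link1 hv
  have hLv := hL.link (single_mem_faces hv)
  rw [card_singleton] at hLv
  have h1 := long_irr (by omega) hS hIv hLv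
  have h2 := card_split (G := G) hv
  obtain ⟨t, ht, ht4⟩ := hbad.1 v hv
  have h3 := card_le_card (mem_faces.1 ht).1
  have h4 := long_deg h hL hv (by omega)
  obtain ⟨j, rfl⟩ : ∃ j, k = j + 2 := ⟨k - 2, by omega⟩
  have e1 : (m + 2) * (2 * (j + 2) - 1) = 2 * (m * j) + 4 * j + 3 * m + 6 := by
    rw [show 2 * (j + 2) - 1 = 2 * j + 3 by omega]
    ring
  have e2 : (m + 2) * (j + 2) = m * j + 2 * j + 2 * m + 4 := by ring
  rw [e1] at h1
  rw [e2]
  omega

/-- The irreducible counterexample is the link of a face. -/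
theorem reduction_linkL {m k : ℕ} {W : Finset V} (h : Sph G W (2 * k))
    (hL : Long G (m + 4) W (2 * k)) (hneg : (-1 : ℚ) ^ k * lam G W < 0) :
    ∃ (k' : ℕ) (s : Finset V), s ∈ faces G W ∧ s.card + 2 * k' = 2 * k ∧
      (-1 : ℚ) ^ k' * lam G (W ∩ lk G s) < 0 ∧ Irr G (W ∩ lk G s) ∧ 2 ≤ k' ∧
      6 * k' + 2 ≤ (W ∩ lk G s).card ∧ 5 * k' + 5 ≤ (W ∩ lk G s).card ∧
      2 * ((m + 2) * k') + max 4 (m + 1) ≤ (W ∩ lk G s).card + 2 * m + 1 ∧
      (W ∩ lk G s).card + (m + 4) * k ≤ W.card + (m + 4) * k' ∧ Bad G (W ∩ lk G s) := by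
  obtain ⟨k', s, W', hs, hW', hj, hsph, hI, hn, h2, h6, h5, hc, hB, hLg⟩ :=
    reductionL m _ k W rfl h hL hneg
  have hsz := long_size' hsph hI hLg h2 hB
  obtain ⟨σ, hσ, hσm⟩ := exists_facet (G := G) ((W ∩ lk G s) \ W')
  have hlf := link_facet (G := G) hj hσ hσm
  rw [union_sdiff_of_subset hW'] at hlf
  have hσs : σ ∈ faces G (W ∩ lk G s) := faces_mono sdiff_subset hσ
  have hu := union_mem_faces hs hσs
  have hlk : W ∩ lk G (s ∪ σ) = W' := by rw [lk_union, ← inter_assoc, hlf]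
  have hL := h.link hu
  rw [hlk] at hL
  have hr := rank_unique hL hsph
  have hle := h.le _ hu
  refine ⟨k', s ∪ σ, hu, by omega, ?_⟩
  rw [hlk]
  exact ⟨hn, hI, h2, h6, h5, hsz, hc, hB⟩

end Pool.Agent.Lib.MP_fd533b_co
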