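import Mathlib
import Pool.Agent.Lib.MP_fd533b_co.Basic

/-! The Charney-Davis inequality for flag Eulerian complexes with good full subcomplexes. -/

namespace Pool.Agent.Lib.MP_fd533b_co

open Finset

variable {V : Type*} [Fintype V] [DecidableEq V]

/-- The clique complex of `G` is an Eulerian complex of dimension `d - 1`. -/
structure IsEulerian (G : SimpleGraph V) [DecidableRel G.Adj] (d : ℕ) : Prop where
  /-- every face has at most `d` vertices -/
  dim_le : ∀ s ∈ faces G univ, s.card ≤ d
  /-- every face lies in a face with `d` vertices -/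
  pure : ∀ s ∈ faces G univ, ∃ t ∈ faces G univ, s ⊆ t ∧ t.card = d
  /-- the link of a face `s` has the reduced Euler characteristic of a sphere of
  dimension `d - 1 - |s|` -/
  euler : ∀ s ∈ faces G univ, ∑ t ∈ faces G (lk G s), (-1 : ℤ) ^ t.card = (-1) ^ (d - s.card)

variable {G : SimpleGraph V} [DecidableRel G.Adj]

lemma union_mem_univ {s t : Finset V} (hs : s ∈ faces G univ) (ht : t ∈ faces G (lk G s)) :
    s ∪ t ∈ faces G univ := by
  refine union_mem_faces hs ?_
  rwa [univ_inter]

lemma eulerOn_link {d : ℕ} (h : IsEulerian G d) {s : Finset V} (hs : s ∈ faces G univ) :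
    EulerOn G (lk G s) (d + s.card) := by
  intro t ht
  have hu := union_mem_univ hs ht
  have hdis : Disjoint s t := disj_of_lk (W := univ) (by rwa [univ_inter])
  have h1 := h.euler _ hu
  rw [lk_union] at h1
  rw [h1, card_union_of_disjoint hdis]
  have h2 : s.card + t.card ≤ d := by
    rw [← card_union_of_disjoint hdis]
    exact h.dim_le _ hu
  obtain ⟨c, hc⟩ := Nat.exists_eq_add_of_le h2
  rw [hc, show s.card + t.card + c - (s.card + t.card) = c by omega,
    show s.card + t.card + c + s.card + t.card = c + 2 * (s.card + t.card) by ring, pow_add,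
    pow_mul]
  norm_num

/-- Main induction. -/
lemma main_aux {k : ℕ} (h : IsEulerian G (2 * k))
    (hgood : ∀ s ∈ faces G univ, Even s.card → s.card < 2 * k →
      ∃ U : Finset V, U ⊆ lk G s ∧ 0 ≤ (-1 : ℚ) ^ (k - s.card / 2) * lam G U ∧
        ∀ t ∈ faces G (lk G s \ U), t.Nonempty → 4 ∣ t.card → lam G (lk G (s ∪ t)) = 0) :
    ∀ n : ℕ, ∀ s ∈ faces G univ, s.card + 2 * n = 2 * k →
      0 ≤ (-1 : ℚ) ^ n * lam G (lk G s) := by
  intro n
  induction n using Nat.strong_induction_on with
  | _ n ih =>
    intro s hs hn
    rcases Nat.eq_zero_or_pos n with rfl | hpos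
    · -- the link is empty
      have h0 : lk G s = ∅ := by
        rw [eq_empty_iff_forall_notMem]
        intro v hv
        have hv' : ({v} : Finset V) ∈ faces G (lk G s) := by
          rw [mem_faces]
          refine ⟨singleton_subset_iff.2 hv, ?_⟩
          intro x hx y hy hxy
          rw [mem_singleton] at hx hy
          exact absurd (hx.trans hy.symm) hxy
        have h1 := h.dim_le _ (union_mem_univ hs hv')
        have hdis : Disjoint s ({v} : Finset V) :=
          disj_of_lk (W := univ) (by rwa [univ_inter])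
        rw [card_union_of_disjoint hdis, card_singleton] at h1
        omega
      rw [h0]
      have hf : faces G (∅ : Finset V) = {∅} := by
        ext t
        rw [mem_faces, mem_singleton]
        constructor
        · exact fun ht => subset_empty.1 ht.1
        · rintro rfl
          simp
      simp [lam, hf]
    · have hev : Even s.card := ⟨k - n, by omega⟩
      obtain ⟨U, hU, hU0, hU4⟩ := hgood s hs hev (by omega)
      have hkn : k - s.card / 2 = n := by omega
      rw [hkn] at hU0
      have h1 := lam_sdiff (G := G) (W := lk G s) (A := lk G s \ U) sdiff_subset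
      rw [Finset.sdiff_sdiff_eq_self hU] at h1
      rw [← add_sum_erase _ _ (empty_mem_faces (lk G s \ U))] at h1
      rw [lk_empty, inter_univ, card_empty, pow_zero, one_mul] at h1
      have h2 : (-1 : ℚ) ^ n * lam G (lk G s) = (-1 : ℚ) ^ n * lam G U +
          ∑ t ∈ (faces G (lk G s \ U)).erase ∅,
            (1 / 2 : ℚ) ^ t.card * (-((-1 : ℚ) ^ n * lam G (lk G s ∩ lk G t))) := by
        rw [h1, mul_add, mul_sum, add_assoc, ← sum_add_distrib]
        rw [sum_eq_zero, add_zero]
        intro t _
        ring
      rw [h2]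
      refine add_nonneg hU0 (sum_nonneg ?_)
      intro t ht
      rw [mem_erase] at ht
      obtain ⟨ht0, ht⟩ := ht
      have htl : t ∈ faces G (lk G s) := faces_mono sdiff_subset ht
      have hu := union_mem_univ hs htl
      have hdis : Disjoint s t := disj_of_lk (W := univ) (by rwa [univ_inter])
      have hcard : (s ∪ t).card = s.card + t.card := card_union_of_disjoint hdis
      rw [← lk_union]
      refine mul_nonneg (by positivity) ?_
      have htne : t.Nonempty := nonempty_iff_ne_empty.2 ht0
      rcases Nat.even_or_odd t.card with he | ho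
      · by_cases h4 : 4 ∣ t.card
        · rw [hU4 t ht htne h4]
          simp
        · obtain ⟨i, hi⟩ := he
          have hipos : 0 < t.card := card_pos.2 htne
          have hiodd : Odd i := by
            rcases Nat.even_or_odd i with ⟨j, hj⟩ | hodd
            · exact absurd ⟨j, by omega⟩ h4
            · exact hodd
          have hle := h.dim_le _ hu
          rw [hcard] at hle
          have hnew := ih (n - i) (by omega) (s ∪ t) hu (by rw [hcard]; omega)
          have hsign : -((-1 : ℚ) ^ n * lam G (lk G (s ∪ t))) =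
              (-1 : ℚ) ^ (n - i) * lam G (lk G (s ∪ t)) := by
            have : (-1 : ℚ) ^ n = (-1) ^ (n - i) * (-1) ^ i := by
              rw [← pow_add]; congr 1; omega
            rw [this, hiodd.neg_one_pow]
            ring
          rw [hsign]
          exact hnew
      · have hz : lam G (lk G (s ∪ t)) = 0 := by
          refine lam_eq_zero (eulerOn_link h hu) ?_
          rw [hcard]
          obtain ⟨a, ha⟩ := hev
          obtain ⟨b, hb⟩ := ho
          exact ⟨k + a + b, by omega⟩
        rw [hz]
        simp

theorem charneyDavis_of_good {k : ℕ} (h : IsEulerian G (2 * k))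
    (hgood : ∀ s ∈ faces G univ, Even s.card → s.card < 2 * k →
      ∃ U : Finset V, U ⊆ lk G s ∧ 0 ≤ (-1 : ℚ) ^ (k - s.card / 2) * lam G U ∧
        ∀ t ∈ faces G (lk G s \ U), t.Nonempty → 4 ∣ t.card → lam G (lk G (s ∪ t)) = 0) :
    0 ≤ (-1 : ℚ) ^ k * lam G univ := by
  have := main_aux h hgood k ∅ (empty_mem_faces _) (by simp)
  rwa [lk_empty] at this

/-- One good vertex in each link of an even face. -/
theorem charneyDavis_of_vertex {k : ℕ} (h : IsEulerian G (2 * k))
    (hgood : ∀ s ∈ faces G univ, Even s.card → s.card < 2 * k →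
      ∃ v ∈ lk G s, ∀ t ∈ faces G (lk G s), t.card = 4 → ∃ x ∈ t, x = v ∨ G.Adj v x) :
    0 ≤ (-1 : ℚ) ^ k * lam G univ := by
  refine charneyDavis_of_good h fun s hs hev hlt => ?_
  obtain ⟨v, hv, hv4⟩ := hgood s hs hev hlt
  have hv' : ({v} : Finset V) ∈ faces G (lk G s) := by
    rw [mem_faces]
    refine ⟨singleton_subset_iff.2 hv, ?_⟩
    intro x hx y hy hxy
    rw [mem_singleton] at hx hy
    exact absurd (hx.trans hy.symm) hxy
  have hu := union_mem_univ hs hv'
  have hdis : Disjoint s ({v} : Finset V) := disj_of_lk (W := univ) (by rwa [univ_inter])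
  refine ⟨lk G (s ∪ {v}), ?_, ?_, ?_⟩
  · rw [lk_union]
    exact inter_subset_left
  · have hz : lam G (lk G (s ∪ {v})) = 0 := by
      refine lam_eq_zero (eulerOn_link h hu) ?_
      rw [card_union_of_disjoint hdis, card_singleton]
      obtain ⟨a, ha⟩ := hev
      exact ⟨k + a, by omega⟩
    rw [hz]
    simp
  · intro t ht htne h4
    exfalso
    have htl : t ∈ faces G (lk G s) := faces_mono sdiff_subset ht
    have hge : 4 ≤ t.card := Nat.le_of_dvd (card_pos.2 htne) h4
    have hna : ∀ x ∈ t, ¬ G.Adj v x := by
      intro x hx hadj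
      have hx' := (mem_faces.1 ht).1 hx
      rw [mem_sdiff, lk_union, mem_inter] at hx'
      refine hx'.2 ⟨hx'.1, ?_⟩
      rw [mem_lk]
      intro y hy
      rw [mem_singleton] at hy
      rw [hy]
      exact hadj.symm
    have hvt : v ∉ t := by
      intro hvt
      obtain ⟨x, hx, hxv⟩ := exists_mem_ne (by omega : 1 < t.card) v
      exact hna x hx ((mem_faces.1 ht).2 v hvt x hx hxv.symm)
    obtain ⟨t', ht't, ht'c⟩ := exists_subset_card_eq hge
    obtain ⟨x, hx, hx'⟩ := hv4 t' (subset_mem_faces htl ht't) ht'c
    rcases hx' with rfl | hx'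
    · exact hvt (ht't hx)
    · exact hna x (ht't hx) hx'

/-- The `K_{1,4}`-free case. -/
theorem charneyDavis_of_forall {k : ℕ} (h : IsEulerian G (2 * k))
    (hgood : ∀ v : V, ∀ t ∈ faces G univ, t.card = 4 → ∃ x ∈ t, x = v ∨ G.Adj v x) :
    0 ≤ (-1 : ℚ) ^ k * lam G univ := by
  refine charneyDavis_of_vertex h fun s hs hev hlt => ?_
  obtain ⟨r, hr, hsr, hrc⟩ := h.pure s hs
  have hne : (r \ s).Nonempty := by
    rw [← card_pos, card_sdiff_of_subset hsr]
    omega
  obtain ⟨v, hv⟩ := hne
  have hvl : r \ s ∈ faces G (lk G s) := by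
    have := sdiff_mem_link hr hsr
    rwa [univ_inter] at this
  refine ⟨v, (mem_faces.1 hvl).1 hv, fun t ht htc => hgood v t ?_ htc⟩
  exact faces_mono (subset_univ _) ht

end Pool.Agent.Lib.MP_fd533b_co
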