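import Mathlib

/-! Edge sets with a family of even subsets covering each edge at most twice (MacLane families):
heredity. -/

set_option linter.unusedSectionVars false
set_option linter.style.longLine false

namespace Pool.Agent.Lib.MP_fd533b_co

namespace Surf

open Finset Module

variable {V : Type*} [Fintype V] [DecidableEq V]

/-- The cycle space (over the field with two elements) of the set `E` of edges. -/
def Z (E : Finset (Sym2 V)) : Submodule (ZMod 2) (Sym2 V → ZMod 2) where
  carrier := {z | (∀ e, e ∉ E → z e = 0) ∧ ∀ v, ∑ w, z s(v, w) = 0}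
  add_mem' := by
    rintro a b ⟨ha, ha'⟩ ⟨hb, hb'⟩
    refine ⟨fun e he => by simp [ha e he, hb e he], fun v => by
      simp only [Pi.add_apply, sum_add_distrib, ha' v, hb' v, add_zero]⟩
  zero_mem' := by simp
  smul_mem' := by
    rintro c a ⟨ha, ha'⟩
    refine ⟨fun e he => by simp [ha e he], fun v => by
      simp only [Pi.smul_apply, smul_eq_mul, ← mul_sum, ha' v, mul_zero]⟩

lemma mem_Z {E : Finset (Sym2 V)} {z : Sym2 V → ZMod 2} :
    z ∈ Z E ↔ (∀ e, e ∉ E → z e = 0) ∧ ∀ v, ∑ w, z s(v, w) = 0 := Iff.rfl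

lemma mem_Z_erase {E : Finset (Sym2 V)} {z : Sym2 V → ZMod 2} {e0 : Sym2 V} :
    z ∈ Z (E.erase e0) ↔ z ∈ Z E ∧ z e0 = 0 := by
  rw [mem_Z, mem_Z]
  constructor
  · rintro ⟨h1, h2⟩
    exact ⟨⟨fun e he => h1 e (fun hh => he (mem_of_mem_erase hh)), h2⟩, h1 e0 (by simp)⟩
  · rintro ⟨⟨h1, h2⟩, h3⟩
    refine ⟨fun e he => ?_, h2⟩
    by_cases hee : e = e0
    · rw [hee]; exact h3
    · exact h1 e (fun hh => he (mem_erase.2 ⟨hee, hh⟩))

lemma Z_erase_le (E : Finset (Sym2 V)) (e0 : Sym2 V) : Z (E.erase e0) ≤ Z E := fun _ hz =>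
  (mem_Z_erase.1 hz).1

variable {ι : Type*} [Fintype ι] [DecidableEq ι]

/-- The number of members of the family that contain `e`. -/
def mult (B : ι → Sym2 V → ZMod 2) (e : Sym2 V) : ℕ := (univ.filter (fun i => B i e ≠ 0)).card

/-- A MacLane family of codimension at most `g` for the edge set `E`. -/
structure Fam (E : Finset (Sym2 V)) (g : ℕ) (B : ι → Sym2 V → ZMod 2) : Prop where
  mem : ∀ i, B i ∈ Z E
  two : ∀ e, mult B e ≤ 2
  codim : finrank (ZMod 2) (Z E) ≤ finrank (ZMod 2) (Submodule.span (ZMod 2) (Set.range B)) + g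

lemma zmod_eq_one {a : ZMod 2} (h : a ≠ 0) : a = 1 := by
  revert h
  revert a
  decide

lemma add_self_zmod (a : ZMod 2) : a + a = 0 := by
  revert a
  decide

lemma Fam.span_le {E : Finset (Sym2 V)} {g : ℕ} {B : ι → Sym2 V → ZMod 2} (h : Fam E g B) :
    Submodule.span (ZMod 2) (Set.range B) ≤ Z E := by
  rw [Submodule.span_le]
  rintro _ ⟨i, rfl⟩
  exact h.mem i

lemma Fam.erase {E : Finset (Sym2 V)} {g : ℕ} {B : ι → Sym2 V → ZMod 2} (h : Fam E g B)
    (e0 : Sym2 V) : ∃ B' : ι → Sym2 V → ZMod 2, Fam (E.erase e0) g B' := by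
  -- it suffices to have a family spanning the part of the span which vanishes at `e0`
  have key : ∀ B' : ι → Sym2 V → ZMod 2, (∀ i, B' i ∈ Z (E.erase e0)) → (∀ e, mult B' e ≤ 2) →
      (∀ z ∈ Submodule.span (ZMod 2) (Set.range B), z e0 = 0 →
        z ∈ Submodule.span (ZMod 2) (Set.range B')) → Fam (E.erase e0) g B' := by
    intro B' h1 h2 h3
    refine ⟨h1, h2, ?_⟩
    have hle : Submodule.span (ZMod 2) (Set.range B) ⊓ Z (E.erase e0) ≤
        Submodule.span (ZMod 2) (Set.range B') := by
      rintro z ⟨hz1, hz2⟩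
      exact h3 z hz1 (mem_Z_erase.1 hz2).2
    have hsup : Submodule.span (ZMod 2) (Set.range B) ⊔ Z (E.erase e0) ≤ Z E :=
      sup_le h.span_le (Z_erase_le E e0)
    have e1 := Submodule.finrank_sup_add_finrank_inf_eq
      (Submodule.span (ZMod 2) (Set.range B)) (Z (E.erase e0))
    have e2 := Submodule.finrank_mono hle
    have e3 := Submodule.finrank_mono hsup
    have e4 := h.codim
    omega
  by_cases hS : (univ.filter (fun i => B i e0 ≠ 0)) = ∅
  · refine ⟨B, key B ?_ h.two (fun z hz _ => hz)⟩
    intro i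
    rw [mem_Z_erase]
    refine ⟨h.mem i, ?_⟩
    by_contra hne
    have : i ∈ univ.filter (fun i => B i e0 ≠ 0) := mem_filter.2 ⟨mem_univ _, hne⟩
    rw [hS] at this
    simp at this
  -- the two members containing `e0`
  have hcard := h.two e0
  unfold mult at hcard
  obtain ⟨i0, j0, hij⟩ : ∃ i0 j0, (univ.filter (fun i => B i e0 ≠ 0)) = {i0, j0} := by
    have hpos := card_pos.2 (nonempty_iff_ne_empty.2 hS)
    rcases Nat.lt_or_ge (univ.filter (fun i => B i e0 ≠ 0)).card 2 with hlt | hge
    · obtain ⟨a, ha⟩ := card_eq_one.1 (by omega : (univ.filter (fun i => B i e0 ≠ 0)).card = 1)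
      exact ⟨a, a, by rw [ha]; simp⟩
    · obtain ⟨a, b, -, hab⟩ := card_eq_two.1 (by omega : (univ.filter (fun i => B i e0 ≠ 0)).card = 2)
      exact ⟨a, b, hab⟩
  have hmem : ∀ i, B i e0 ≠ 0 ↔ i = i0 ∨ i = j0 := by
    intro i
    have : i ∈ univ.filter (fun i => B i e0 ≠ 0) ↔ i ∈ ({i0, j0} : Finset ι) := by rw [hij]
    simpa using this
  have hi1 : B i0 e0 = 1 := zmod_eq_one ((hmem i0).2 (Or.inl rfl))
  have hj1 : B j0 e0 = 1 := zmod_eq_one ((hmem j0).2 (Or.inr rfl))
  let B' : ι → Sym2 V → ZMod 2 := fun i => if i = i0 then B i0 + B j0 else if i = j0 then 0 else B i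
  have hB'i : B' i0 = B i0 + B j0 := by simp [B']
  have hB'j : i0 ≠ j0 → B' j0 = 0 := by
    intro hne
    simp [B', hne.symm]
  have hB'o : ∀ i, i ≠ i0 → i ≠ j0 → B' i = B i := by
    intro i h1 h2
    simp [B', h1, h2]
  refine ⟨B', key B' ?_ ?_ ?_⟩
  · intro i
    rw [mem_Z_erase]
    by_cases h1 : i = i0
    · subst h1
      rw [hB'i]
      refine ⟨(Z E).add_mem (h.mem _) (h.mem _), ?_⟩
      rw [Pi.add_apply, hi1, hj1]
      decide
    by_cases h2 : i = j0
    · subst h2
      rw [hB'j (fun e => h1 e.symm)]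
      exact ⟨(Z E).zero_mem, rfl⟩
    · rw [hB'o i h1 h2]
      refine ⟨h.mem i, ?_⟩
      by_contra hne
      rcases (hmem i).1 hne with e | e
      · exact h1 e
      · exact h2 e
  · intro e
    refine le_trans ?_ (h.two e)
    unfold mult
    by_cases hb : B' i0 e = 0
    · refine card_le_card ?_
      intro i hi
      rw [mem_filter] at hi ⊢
      refine ⟨mem_univ _, ?_⟩
      have h1 : i ≠ i0 := by
        rintro rfl
        exact hi.2 hb
      have h2 : i ≠ j0 := by
        rintro rfl
        apply hi.2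
        rw [hB'j (fun e => h1 e.symm)]
        rfl
      rw [hB'o i h1 h2] at hi
      exact hi.2
    · have hne : i0 ≠ j0 := by
        rintro rfl
        apply hb
        rw [hB'i, Pi.add_apply]
        exact add_self_zmod _
      have hor : B i0 e ≠ 0 ∨ B j0 e ≠ 0 := by
        by_contra hcon
        push Not at hcon
        apply hb
        rw [hB'i, Pi.add_apply, hcon.1, hcon.2, add_zero]
      set T := univ.filter (fun i => B i e ≠ 0) with hT
      have hsub : univ.filter (fun i => B' i e ≠ 0) ⊆ insert i0 ((T.erase i0).erase j0) := by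
        intro i hi
        rw [mem_filter] at hi
        rw [mem_insert, mem_erase, mem_erase, hT, mem_filter]
        by_cases h1 : i = i0
        · exact Or.inl h1
        right
        have h2 : i ≠ j0 := by
          rintro rfl
          apply hi.2
          rw [hB'j hne]
          rfl
        rw [hB'o i h1 h2] at hi
        exact ⟨h2, h1, mem_univ _, hi.2⟩
      have h3 := card_le_card hsub
      have h4 := card_insert_le i0 ((T.erase i0).erase j0)
      have h5 : ((T.erase i0).erase j0).card + 1 ≤ T.card := by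
        rcases hor with ho | ho
        · have hm : i0 ∈ T := by rw [hT, mem_filter]; exact ⟨mem_univ _, ho⟩
          have e1 := card_erase_of_mem hm
          have e2 := card_pos.2 ⟨i0, hm⟩
          have e3 := card_le_card (erase_subset j0 (T.erase i0))
          omega
        · have hm : j0 ∈ T := by rw [hT, mem_filter]; exact ⟨mem_univ _, ho⟩
          have e1 : (T.erase i0).erase j0 ⊆ T.erase j0 := by
            rw [erase_right_comm]
            exact erase_subset _ _
          have e2 := card_le_card e1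
          have e3 := card_erase_of_mem hm
          have e4 := card_pos.2 ⟨j0, hm⟩
          omega
      omega
  · intro z hz hz0
    rw [Submodule.mem_span_range_iff_exists_fun] at hz ⊢
    obtain ⟨c, hc⟩ := hz
    have hsum : ∑ i, c i * B i e0 = 0 := by
      have := congrFun hc e0
      rw [Finset.sum_apply] at this
      rw [hz0] at this
      simpa using this
    have hsum2 : ∑ i ∈ ({i0, j0} : Finset ι), c i = 0 := by
      rw [← hij, sum_filter]
      refine Eq.trans ?_ hsum
      refine sum_congr rfl ?_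
      intro i _
      by_cases hb : B i e0 = 0
      · simp [hb]
      · rw [if_pos hb, zmod_eq_one hb, mul_one]
    refine ⟨c, ?_⟩
    rw [← hc, ← sub_eq_zero, ← sum_sub_distrib]
    have hdiff : ∀ i, i ∉ ({i0, j0} : Finset ι) → c i • B' i - c i • B i = 0 := by
      intro i hi
      rw [mem_insert, mem_singleton, not_or] at hi
      rw [hB'o i hi.1 hi.2, sub_self]
    rw [← sum_subset (subset_univ ({i0, j0} : Finset ι)) (fun i _ hi => hdiff i hi)]
    by_cases hne : i0 = j0
    · subst hne
      rw [pair_eq_singleton, sum_singleton] at hsum2 ⊢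
      rw [hsum2, zero_smul, zero_smul, sub_zero]
    · rw [sum_pair hne] at hsum2 ⊢
      have hcc : c j0 = c i0 := by
        have h1 : c i0 = - c j0 := eq_neg_of_add_eq_zero_left hsum2
        rw [h1, ZMod.neg_eq_self_mod_two]
      rw [hB'i, hB'j hne, hcc, smul_zero, smul_add]
      abel

lemma Fam.mono {g : ℕ} : ∀ (n : ℕ) (E E' : Finset (Sym2 V))
    (B : ι → Sym2 V → ZMod 2), Fam E g B → E' ⊆ E → (E \ E').card = n →
    ∃ B' : ι → Sym2 V → ZMod 2, Fam E' g B' := by
  intro n
  induction n with
  | zero =>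
    intro E E' B h hsub hc
    have : E = E' := by
      refine subset_antisymm ?_ hsub
      rw [card_eq_zero, sdiff_eq_empty_iff_subset] at hc
      exact hc
    subst this
    exact ⟨B, h⟩
  | succ n ih =>
    intro E E' B h hsub hc
    obtain ⟨e0, he0⟩ : (E \ E').Nonempty := by rw [← card_pos]; omega
    obtain ⟨B1, hB1⟩ := h.erase e0
    rw [mem_sdiff] at he0
    refine ih (E.erase e0) E' B1 hB1 ?_ ?_
    · intro e he
      rw [mem_erase]
      refine ⟨?_, hsub he⟩
      rintro rfl
      exact he0.2 he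
    · have : (E.erase e0) \ E' = (E \ E').erase e0 := by
        ext e
        simp only [mem_sdiff, mem_erase]
        tauto
      rw [this, card_erase_of_mem (mem_sdiff.2 he0)]
      omega

end Surf

end Pool.Agent.Lib.MP_fd533b_co
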