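import Mathlib
import Pool.Agent.Lib.MP_fd533b_co.Surface
import Pool.Agent.Lib.MP_fd533b_co.Red3

/-! Complement graphs with a MacLane family of codimension at most two. -/

set_option linter.unusedSectionVars false
set_option linter.style.longLine false

namespace Pool.Agent.Lib.MP_fd533b_co

namespace Surf

open Finset Module

variable {V : Type*} [Fintype V] [DecidableEq V]

section basic

variable {E : Finset (Sym2 V)} {z : Sym2 V → ZMod 2}

lemma mem_of_ne (hz : z ∈ Z E) {e : Sym2 V} (h : z e ≠ 0) : e ∈ E := by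
  by_contra he
  exact h (hz.1 e he)

/-- Another edge of an even set at the same vertex. -/
lemma exists_other (hz : z ∈ Z E) {v w : V} (h : z s(v, w) ≠ 0) : ∃ w', w' ≠ w ∧ z s(v, w') ≠ 0 := by
  by_contra hcon
  push Not at hcon
  have h1 := hz.2 v
  rw [sum_eq_single w (fun b _ hb => hcon b hb) (fun hh => absurd (mem_univ w) hh)] at h1
  exact h h1

lemma exists_edge (hz0 : z ≠ 0) : ∃ x y, z s(x, y) ≠ 0 := by
  by_contra hcon
  push Not at hcon
  apply hz0
  funext e
  induction e with
  | _ x y => exact hcon x y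

variable (hE : ∀ v, s(v, v) ∉ E)
include hE

lemma ne_of_ne (hz : z ∈ Z E) {x y : V} (h : z s(x, y) ≠ 0) : x ≠ y := by
  rintro rfl
  exact hE x (mem_of_ne hz h)

lemma three_vertices (hz : z ∈ Z E) (hz0 : z ≠ 0) :
    3 ≤ (univ.filter (fun v => ∃ w, z s(v, w) ≠ 0)).card := by
  obtain ⟨x, y, hxy⟩ := exists_edge hz0
  obtain ⟨w, hwy, hxw⟩ := exists_other hz hxy
  have h1 := ne_of_ne hE hz hxy
  have h2 := ne_of_ne hE hz hxw
  have h3 : ({x, y, w} : Finset V).card = 3 := by
    rw [card_eq_three]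
    exact ⟨x, y, w, h1, h2, fun e => hwy e.symm, rfl⟩
  rw [← h3]
  refine card_le_card ?_
  intro v hv
  rw [mem_insert, mem_insert, mem_singleton] at hv
  rw [mem_filter]
  refine ⟨mem_univ _, ?_⟩
  rcases hv with rfl | rfl | rfl
  · exact ⟨y, hxy⟩
  · exact ⟨x, by rwa [Sym2.eq_swap]⟩
  · exact ⟨x, by rwa [Sym2.eq_swap]⟩

lemma three_edges (hz : z ∈ Z E) (hz0 : z ≠ 0) : 3 ≤ (E.filter (fun e => z e ≠ 0)).card := by
  obtain ⟨x, y, hxy⟩ := exists_edge hz0
  obtain ⟨w, hwy, hxw⟩ := exists_other hz hxy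
  have hyx : z s(y, x) ≠ 0 := by rwa [Sym2.eq_swap]
  obtain ⟨u, hux, hyu⟩ := exists_other hz hyx
  have h1 := ne_of_ne hE hz hxy
  have h2 := ne_of_ne hE hz hxw
  have h4 := ne_of_ne hE hz hyu
  have h3 : ({s(x, y), s(x, w), s(y, u)} : Finset (Sym2 V)).card = 3 := by
    rw [card_eq_three]
    refine ⟨_, _, _, ?_, ?_, ?_, rfl⟩
    · rw [Ne, Sym2.eq_iff]
      rintro (⟨-, e⟩ | ⟨e, -⟩)
      · exact hwy e.symm
      · exact h2 e
    · rw [Ne, Sym2.eq_iff]
      rintro (⟨e, -⟩ | ⟨e, -⟩)
      · exact h1 e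
      · exact hux e.symm
    · rw [Ne, Sym2.eq_iff]
      rintro (⟨e, -⟩ | ⟨e, -⟩)
      · exact h1 e
      · exact hux e.symm
  rw [← h3]
  refine card_le_card ?_
  intro e he
  rw [mem_insert, mem_insert, mem_singleton] at he
  rw [mem_filter]
  rcases he with rfl | rfl | rfl
  · exact ⟨mem_of_ne hz hxy, hxy⟩
  · exact ⟨mem_of_ne hz hxw, hxw⟩
  · exact ⟨mem_of_ne hz hyu, hyu⟩

/-- In a triangle of `E` through `v` the two other vertices are joined in `E`. -/
lemma triangle (hz : z ∈ Z E) (h3 : (E.filter (fun e => z e ≠ 0)).card ≤ 3) {v w : V}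
    (h : z s(v, w) ≠ 0) : ∃ y y', z s(v, y) ≠ 0 ∧ z s(v, y') ≠ 0 ∧ y ≠ y' ∧ s(y, y') ∈ E := by
  obtain ⟨w', hw', hvw'⟩ := exists_other hz h
  refine ⟨w, w', h, hvw', hw'.symm, ?_⟩
  by_contra hno
  have h' : z s(w, v) ≠ 0 := by rwa [Sym2.eq_swap]
  have h'' : z s(w', v) ≠ 0 := by rwa [Sym2.eq_swap]
  obtain ⟨u, huv, hwu⟩ := exists_other hz h'
  obtain ⟨u', huv', hwu'⟩ := exists_other hz h''
  have e1 := ne_of_ne hE hz h
  have e2 := ne_of_ne hE hz hvw'
  have e3 := ne_of_ne hE hz hwu
  have e4 := ne_of_ne hE hz hwu'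
  have hu : u ≠ w' := by
    rintro rfl
    exact hno (mem_of_ne hz hwu)
  have hu' : u' ≠ w := by
    rintro rfl
    apply hno
    rw [Sym2.eq_swap]
    exact mem_of_ne hz hwu'
  have h4 : ({s(v, w), s(v, w'), s(w, u), s(w', u')} : Finset (Sym2 V)).card = 4 := by
    rw [card_insert_of_notMem, card_insert_of_notMem, card_insert_of_notMem, card_singleton]
    · rw [mem_singleton, Sym2.eq_iff]
      rintro (⟨e, -⟩ | ⟨e, -⟩)
      · exact hw' e.symm
      · exact hu' e.symm
    · rw [mem_insert, mem_singleton, Sym2.eq_iff, Sym2.eq_iff]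
      rintro ((⟨e, -⟩ | ⟨e, -⟩) | (⟨e, -⟩ | ⟨e, -⟩))
      · exact e1 e
      · exact huv e.symm
      · exact e2 e
      · exact huv' e.symm
    · rw [mem_insert, mem_insert, mem_singleton, Sym2.eq_iff, Sym2.eq_iff, Sym2.eq_iff]
      rintro ((⟨-, e⟩ | ⟨e, -⟩) | (⟨e, -⟩ | ⟨e, -⟩) | (⟨e, -⟩ | ⟨e, -⟩))
      · exact hw' e.symm
      · exact e2 e
      · exact e1 e
      · exact huv e.symm
      · exact e2 e
      · exact huv' e.symm
  have h5 : ({s(v, w), s(v, w'), s(w, u), s(w', u')} : Finset (Sym2 V)) ⊆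
      E.filter (fun e => z e ≠ 0) := by
    intro e he
    rw [mem_insert, mem_insert, mem_insert, mem_singleton] at he
    rw [mem_filter]
    rcases he with rfl | rfl | rfl | rfl
    · exact ⟨mem_of_ne hz h, h⟩
    · exact ⟨mem_of_ne hz hvw', hvw'⟩
    · exact ⟨mem_of_ne hz hwu, hwu⟩
    · exact ⟨mem_of_ne hz hwu', hwu'⟩
  have := card_le_card h5
  omega

end basic

/-- The dimension of the cycle space. -/
lemma finrank_Z_ge {E : Finset (Sym2 V)} (hE : ∀ v, s(v, v) ∉ E) {A : Finset V} (hA : A.Nonempty)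
    (hEA : ∀ x y, s(x, y) ∈ E → x ∈ A) : E.card + 1 ≤ finrank (ZMod 2) (Z E) + A.card := by
  classical
  -- extension by zero
  let φ : (↥E → ZMod 2) →ₗ[ZMod 2] (Sym2 V → ZMod 2) :=
    { toFun := fun c e => if h : e ∈ E then c ⟨e, h⟩ else 0
      map_add' := by
        intro a b
        funext e
        by_cases h : e ∈ E <;> simp [h]
      map_smul' := by
        intro a b
        funext e
        by_cases h : e ∈ E <;> simp [h] }
  have hφ : Function.Injective φ := by
    intro a b hab
    funext e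
    have := congrFun hab e.1
    simpa [φ, e.2] using this
  let d : (Sym2 V → ZMod 2) →ₗ[ZMod 2] (V → ZMod 2) :=
    { toFun := fun z v => ∑ w, z s(v, w)
      map_add' := by
        intro a b
        funext v
        simp [sum_add_distrib]
      map_smul' := by
        intro a b
        funext v
        simp [mul_sum] }
  let D := d ∘ₗ φ
  have hφ0 : ∀ c e, e ∉ E → φ c e = 0 := by
    intro c e he
    simp [φ, he]
  have hker : (LinearMap.ker D).map φ ≤ Z E := by
    rintro _ ⟨c, hc, rfl⟩
    refine ⟨hφ0 c, ?_⟩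
    intro v
    have := congrFun (LinearMap.mem_ker.1 hc) v
    exact this
  obtain ⟨a0, ha0⟩ := hA
  let ρ : (V → ZMod 2) →ₗ[ZMod 2] (↥(A.erase a0) → ZMod 2) := LinearMap.funLeft (ZMod 2) (ZMod 2) Subtype.val
  have hρ : Function.Injective (ρ.domRestrict (LinearMap.range D)) := by
    rw [← LinearMap.ker_eq_bot, LinearMap.ker_eq_bot']
    rintro ⟨f, c, rfl⟩ hf
    have hf0 : ∀ v ∈ A.erase a0, D c v = 0 := by
      intro v hv
      have := congrFun hf ⟨v, hv⟩
      exact this
    have hoff : ∀ v, v ∉ A → D c v = 0 := by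
      intro v hv
      change ∑ w, φ c s(v, w) = 0
      refine sum_eq_zero ?_
      intro w _
      exact hφ0 c _ (fun hh => hv (hEA v w hh))
    have hsum : ∑ v, D c v = 0 := by
      change ∑ v, ∑ w, φ c s(v, w) = 0
      rw [← sum_product']
      refine sum_involution (fun p _ => (p.2, p.1)) ?_ ?_ ?_ ?_
      · rintro ⟨a, b⟩ -
        simp only
        rw [show (s(b, a) : Sym2 V) = s(a, b) from Sym2.eq_swap]
        exact add_self_zmod _
      · rintro ⟨a, b⟩ - hne heq
        rw [Prod.mk.injEq] at heq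
        have hba : b = a := heq.1
        subst hba
        exact hne (hφ0 c _ (hE _))
      · rintro ⟨a, b⟩ -
        simp
      · rintro ⟨a, b⟩ -
        rfl
    have h0 : D c a0 = 0 := by
      rw [sum_eq_single a0] at hsum
      · exact hsum
      · intro b _ hb
        by_cases hbA : b ∈ A
        · exact hf0 b (mem_erase.2 ⟨hb, hbA⟩)
        · exact hoff b hbA
      · intro hh
        exact absurd (mem_univ a0) hh
    apply Subtype.ext
    funext v
    by_cases hv : v = a0
    · rw [hv]; exact h0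
    by_cases hvA : v ∈ A
    · exact hf0 v (mem_erase.2 ⟨hv, hvA⟩)
    · exact hoff v hvA
  have h1 := LinearMap.finrank_le_finrank_of_injective hρ
  rw [Module.finrank_fintype_fun_eq_card, Fintype.card_coe, card_erase_of_mem ha0] at h1
  have h2 := LinearMap.finrank_range_add_finrank_ker D
  rw [Module.finrank_fintype_fun_eq_card, Fintype.card_coe] at h2
  have h3 := Submodule.finrank_mono hker
  rw [(Submodule.equivMapOfInjective φ hφ (LinearMap.ker D)).symm.finrank_eq] at h3
  have h4 : 0 < A.card := card_pos.2 ⟨a0, ha0⟩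
  omega

section count

variable {E : Finset (Sym2 V)} {ι : Type*} [Fintype ι] [DecidableEq ι] {B : ι → Sym2 V → ZMod 2}

/-- The family together with the sum of its members. -/
def ext (B : ι → Sym2 V → ZMod 2) : Option ι → Sym2 V → ZMod 2 := fun o => o.elim (∑ i, B i) B

lemma ext_mem {g : ℕ} (h : Fam E g B) (o : Option ι) : ext B o ∈ Z E := by
  cases o with
  | none => exact Submodule.sum_mem _ (fun i _ => h.mem i)
  | some i => exact h.mem i

lemma ext_two {g : ℕ} (h : Fam E g B) (e : Sym2 V) : mult (ext B) e ≤ 2 := by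
  have h1 : mult (ext B) e = mult B e + (if (∑ i, B i) e ≠ 0 then 1 else 0) := by
    unfold mult
    rw [card_filter, card_filter, Fintype.sum_option, add_comm]
    rfl
  rw [h1]
  have h2 := h.two e
  have h3 : (∑ i, B i) e = (mult B e : ZMod 2) := by
    unfold mult
    rw [Finset.sum_apply, card_filter, Nat.cast_sum]
    refine sum_congr rfl ?_
    intro i _
    by_cases hb : B i e = 0
    · simp [hb]
    · rw [if_pos hb, zmod_eq_one hb]
      rfl
  by_cases h4 : mult B e = 2
  · rw [h3, h4]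
    rw [if_neg]
    intro hh
    exact hh (by decide)
  · split_ifs <;> omega

open Classical in
lemma ext_card
    (hr : 1 ≤ finrank (ZMod 2) (Submodule.span (ZMod 2) (Set.range B))) :
    finrank (ZMod 2) (Submodule.span (ZMod 2) (Set.range B)) + 1 ≤
      (univ.filter (fun o => ext B o ≠ 0)).card := by
  set J := univ.filter (fun o => ext B o ≠ 0) with hJ
  have hJm : ∀ o, o ∈ J ↔ ext B o ≠ 0 := by
    intro o
    rw [hJ, mem_filter]
    simp
  have hne : J.Nonempty := by
    by_contra hemp
    rw [not_nonempty_iff_eq_empty] at hemp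
    have hall : ∀ i, B i = 0 := by
      intro i
      by_contra hb
      have : some i ∈ J := (hJm _).2 hb
      rw [hemp] at this
      simp at this
    have : Submodule.span (ZMod 2) (Set.range B) = ⊥ := by
      rw [Submodule.span_eq_bot]
      rintro _ ⟨i, rfl⟩
      exact hall i
    rw [this, finrank_bot] at hr
    omega
  obtain ⟨j0, hj0⟩ := hne
  have hsum0 : ∑ o, ext B o = 0 := by
    rw [Fintype.sum_option]
    change (∑ i, B i) + ∑ i, B i = 0
    funext e
    exact add_self_zmod _
  have hsumJ : ∑ o ∈ J, ext B o = 0 := by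
    rw [← hsum0]
    refine sum_subset (subset_univ J) ?_
    intro o _ ho
    by_contra hne
    exact ho ((hJm o).2 hne)
  have hj : ext B j0 = ∑ o ∈ J.erase j0, ext B o := by
    rw [← add_sum_erase J (ext B) hj0] at hsumJ
    have := eq_neg_of_add_eq_zero_left hsumJ
    rw [this]
    funext e
    rw [Pi.neg_apply, ZMod.neg_eq_self_mod_two]
  have hle : Submodule.span (ZMod 2) (Set.range B) ≤
      Submodule.span (ZMod 2) ((((J.erase j0).image (ext B)) : Finset (Sym2 V → ZMod 2)) : Set (Sym2 V → ZMod 2)) := by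
    rw [Submodule.span_le]
    rintro _ ⟨i, rfl⟩
    by_cases hb : B i = 0
    · rw [hb]
      exact Submodule.zero_mem _
    have hi : some i ∈ J := (hJm _).2 hb
    by_cases hij : some i = j0
    · have : B i = ext B j0 := by rw [← hij]; rfl
      rw [this, hj]
      refine Submodule.sum_mem _ ?_
      intro o ho
      exact Submodule.subset_span (mem_coe.2 (mem_image_of_mem _ ho))
    · have : B i = ext B (some i) := rfl
      rw [this]
      exact Submodule.subset_span (mem_coe.2 (mem_image_of_mem _ (mem_erase.2 ⟨hij, hi⟩)))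
  have h1 := Submodule.finrank_mono hle
  have h2 := finrank_span_finset_le_card (R := ZMod 2) ((J.erase j0).image (ext B))
  have h3 : ((J.erase j0).image (ext B)).card ≤ (J.erase j0).card := card_image_le
  rw [card_erase_of_mem hj0] at h3
  have h4 := card_pos.2 ⟨j0, hj0⟩
  unfold Set.finrank at h2
  omega

end count

end Surf

end Pool.Agent.Lib.MP_fd533b_co
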