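import Mathlib
import Pool.Agent.Lib.MP_fd533b_co.Surface2

/-! Complement graphs with a MacLane family of codimension at most two: counting. -/

set_option linter.unusedSectionVars false
set_option linter.style.longLine false

namespace Pool.Agent.Lib.MP_fd533b_co

namespace Surf

open Finset Module

variable {V : Type*} [Fintype V] [DecidableEq V] {G : SimpleGraph V} [DecidableRel G.Adj]

/-- The non-adjacent pairs inside `A`. -/
def nonE (G : SimpleGraph V) [DecidableRel G.Adj] (A : Finset V) : Finset (Sym2 V) :=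
  Gᶜ.edgeFinset.filter (fun e => ∀ v, v ∈ e → v ∈ A)

lemma mem_nonE {A : Finset V} {x y : V} :
    s(x, y) ∈ nonE G A ↔ x ∈ A ∧ y ∈ A ∧ x ≠ y ∧ ¬ G.Adj x y := by
  unfold nonE
  rw [mem_filter, SimpleGraph.mem_edgeFinset, SimpleGraph.mem_edgeSet, SimpleGraph.compl_adj]
  constructor
  · rintro ⟨⟨h1, h2⟩, h3⟩
    exact ⟨h3 x (by simp), h3 y (by simp), h1, h2⟩
  · rintro ⟨h1, h2, h3, h4⟩
    refine ⟨⟨h3, h4⟩, ?_⟩
    intro v hv
    rw [Sym2.mem_iff] at hv
    rcases hv with rfl | rfl <;> assumption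

lemma mem_nonE_iff_non {A : Finset V} {x y : V} (hx : x ∈ A) :
    s(x, y) ∈ nonE G A ↔ y ∈ non G A x := by
  rw [mem_nonE, mem_non]
  constructor
  · rintro ⟨-, h2, h3, h4⟩
    exact ⟨h2, h3.symm, h4⟩
  · rintro ⟨h2, h3, h4⟩
    exact ⟨hx, h2, h3.symm, h4⟩

lemma nonE_mono {A A' : Finset V} (h : A ⊆ A') : nonE G A ⊆ nonE G A' := by
  intro e he
  induction e with
  | _ x y =>
    rw [mem_nonE] at he ⊢
    exact ⟨h he.1, h he.2.1, he.2.2⟩

lemma handshake (A : Finset V) : ∑ x ∈ A, (non G A x).card = 2 * (nonE G A).card := by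
  have h1 := sum_card_bipartiteAbove_eq_sum_card_bipartiteBelow (s := A) (t := nonE G A)
    (fun v e => v ∈ e)
  have h2 : ∀ x ∈ A, ((nonE G A).bipartiteAbove (fun v e => v ∈ e) x).card = (non G A x).card := by
    intro x hx
    have : (nonE G A).bipartiteAbove (fun v e => v ∈ e) x = (non G A x).image (fun y => s(x, y)) := by
      ext e
      rw [mem_bipartiteAbove, mem_image]
      constructor
      · rintro ⟨he, hxe⟩
        obtain ⟨y, rfl⟩ := Sym2.mem_iff_exists.1 hxe
        exact ⟨y, (mem_nonE_iff_non hx).1 he, rfl⟩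
      · rintro ⟨y, hy, rfl⟩
        exact ⟨(mem_nonE_iff_non hx).2 hy, by simp⟩
    rw [this, card_image_of_injOn]
    intro a _ b _ hab
    simp only [Sym2.eq_iff] at hab
    rcases hab with ⟨-, e⟩ | ⟨e1, e2⟩
    · exact e
    · rw [e2, e1]
  have h3 : ∀ e ∈ nonE G A, (A.bipartiteBelow (fun v e => v ∈ e) e).card = 2 := by
    intro e he
    induction e with
    | _ x y =>
      rw [mem_nonE] at he
      have : A.bipartiteBelow (fun v e => v ∈ e) s(x, y) = {x, y} := by
        ext v
        rw [mem_bipartiteBelow, Sym2.mem_iff, mem_insert, mem_singleton]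
        constructor
        · exact fun hh => hh.2
        · rintro (rfl | rfl)
          · exact ⟨he.1, Or.inl rfl⟩
          · exact ⟨he.2.1, Or.inr rfl⟩
      rw [this, card_pair he.2.2.1]
  rw [sum_congr rfl h2, sum_congr rfl h3, sum_const, smul_eq_mul] at h1
  rw [h1, mul_comm]

variable {ι : Type*} [Fintype ι] [DecidableEq ι] {B : ι → Sym2 V → ZMod 2}

open Classical in
theorem surf_count {A : Finset V} (hA : A.Nonempty) (h : Fam (nonE G A) 2 B)
    (hbad : ∀ x ∈ A, ∃ t ∈ faces G (non G A x), t.card = 4) :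
    ∑ x ∈ A, (non G A x).card ≤ 4 * A.card := by
  set E := nonE G A with hEdef
  have hE : ∀ v, s(v, v) ∉ E := by
    intro v hv
    rw [hEdef, mem_nonE] at hv
    exact hv.2.2.1 rfl
  have hEA : ∀ x y, s(x, y) ∈ E → x ∈ A := fun x y hxy => (mem_nonE.1 hxy).1
  have hhs := handshake (G := G) A
  rw [← hEdef] at hhs
  have hdeg : ∀ x ∈ A, 4 ≤ (non G A x).card := by
    intro x hx
    obtain ⟨t, ht, ht4⟩ := hbad x hx
    have := card_le_card (mem_faces.1 ht).1
    omega
  have hsum4 : 4 * A.card ≤ ∑ x ∈ A, (non G A x).card := by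
    have := sum_le_sum hdeg
    rw [sum_const, smul_eq_mul, mul_comm] at this
    exact this
  have hdim := finrank_Z_ge hE hA hEA
  have hcod := h.codim
  have hA5 : 4 ≤ A.card := by
    obtain ⟨x, hx⟩ := hA
    exact le_trans (hdeg x hx) (card_le_card (non_subset A x))
  have hr : 1 ≤ finrank (ZMod 2) (Submodule.span (ZMod 2) (Set.range B)) := by omega
  have hJc := ext_card (B := B) hr
  set J := univ.filter (fun o => ext B o ≠ 0) with hJ
  have hJm : ∀ o ∈ J, ext B o ≠ 0 := by
    intro o ho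
    rw [hJ, mem_filter] at ho
    exact ho.2
  -- lengths
  let t : Option ι → ℕ := fun o => (E.filter (fun e => ext B o e ≠ 0)).card
  have ht3 : ∀ o ∈ J, 3 ≤ t o := fun o ho => three_edges hE (ext_mem h o) (hJm o ho)
  let J3 := J.filter (fun o => t o = 3)
  have hlen : ∑ o ∈ J, t o ≤ 2 * E.card := by
    have h1 := sum_card_bipartiteAbove_eq_sum_card_bipartiteBelow (s := J) (t := E)
      (fun o e => ext B o e ≠ 0)
    have h2 : ∑ o ∈ J, t o = ∑ e ∈ E, (J.bipartiteBelow (fun o e => ext B o e ≠ 0) e).card := by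
      rw [← h1]
      rfl
    rw [h2]
    have h3 : ∀ e ∈ E, (J.bipartiteBelow (fun o e => ext B o e ≠ 0) e).card ≤ 2 := by
      intro e _
      refine le_trans (card_le_card ?_) (ext_two h e)
      intro o ho
      rw [mem_bipartiteBelow] at ho
      exact mem_filter.2 ⟨mem_univ _, ho.2⟩
    have h4 := sum_le_sum h3
    rw [sum_const, smul_eq_mul, mul_comm] at h4
    exact h4
  have hlen2 : 4 * J.card ≤ ∑ o ∈ J, t o + J3.card := by
    have h1 : ∀ o ∈ J, 4 ≤ t o + (if t o = 3 then 1 else 0) := by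
      intro o ho
      have := ht3 o ho
      split_ifs <;> omega
    have h2 := sum_le_sum h1
    rw [sum_const, smul_eq_mul, mul_comm, sum_add_distrib, ← card_filter] at h2
    exact h2
  -- corners
  have hcorner1 : 3 * J3.card ≤
      ∑ v ∈ A, (J3.filter (fun o => ∃ w, ext B o s(v, w) ≠ 0)).card := by
    have h1 := sum_card_bipartiteAbove_eq_sum_card_bipartiteBelow (s := A) (t := J3)
      (fun v o => ∃ w, ext B o s(v, w) ≠ 0)
    have h2 : ∑ v ∈ A, (J3.filter (fun o => ∃ w, ext B o s(v, w) ≠ 0)).card =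
        ∑ o ∈ J3, (A.bipartiteBelow (fun v o => ∃ w, ext B o s(v, w) ≠ 0) o).card := by
      rw [← h1]
      rfl
    rw [h2]
    have h3 : ∀ o ∈ J3, 3 ≤ (A.bipartiteBelow (fun v o => ∃ w, ext B o s(v, w) ≠ 0) o).card := by
      intro o ho
      have hoJ := (mem_filter.1 ho).1
      refine le_trans (three_vertices hE (ext_mem h o) (hJm o hoJ)) (card_le_card ?_)
      intro v hv
      rw [mem_filter] at hv
      obtain ⟨w, hw⟩ := hv.2
      rw [mem_bipartiteBelow]
      exact ⟨hEA v w (mem_of_ne (ext_mem h o) hw), w, hw⟩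
    have h4 := sum_le_sum h3
    rw [sum_const, smul_eq_mul, mul_comm] at h4
    exact h4
  have hcorner2 : ∀ v ∈ A, (J3.filter (fun o => ∃ w, ext B o s(v, w) ≠ 0)).card + 8 ≤
      2 * (non G A v).card := by
    intro v hv
    obtain ⟨tv, htv, htv4⟩ := hbad v hv
    have htvs := (mem_faces.1 htv).1
    have h1 : J3.filter (fun o => ∃ w, ext B o s(v, w) ≠ 0) ⊆
        (non G A v \ tv).biUnion (fun y => univ.filter (fun o => ext B o s(v, y) ≠ 0)) := by
      intro o ho
      rw [mem_filter] at ho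
      obtain ⟨ho3, w, hw⟩ := ho
      have hoz := ext_mem h o
      obtain ⟨y, y', hy, hy', hyy', hyE⟩ := triangle hE hoz (le_of_eq (mem_filter.1 ho3).2) hw
      have hyn := (mem_nonE_iff_non hv).1 (mem_of_ne hoz hy)
      have hyn' := (mem_nonE_iff_non hv).1 (mem_of_ne hoz hy')
      rw [mem_biUnion]
      by_cases hyt : y ∈ tv
      · refine ⟨y', mem_sdiff.2 ⟨hyn', ?_⟩, mem_filter.2 ⟨mem_univ _, hy'⟩⟩
        intro hyt'
        exact (mem_nonE.1 hyE).2.2.2 ((mem_faces.1 htv).2 y hyt y' hyt' hyy')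
      · exact ⟨y, mem_sdiff.2 ⟨hyn, hyt⟩, mem_filter.2 ⟨mem_univ _, hy⟩⟩
    have h2 := card_le_card h1
    have h3 : ((non G A v \ tv).biUnion
        (fun y => univ.filter (fun o => ext B o s(v, y) ≠ 0))).card ≤ (non G A v \ tv).card * 2 :=
      card_biUnion_le_card_mul _ _ _ (fun y _ => ext_two h s(v, y))
    rw [card_sdiff_of_subset htvs] at h3
    have h4 := hdeg v hv
    omega
  have hcorner3 := sum_le_sum hcorner2
  rw [sum_add_distrib, sum_const, smul_eq_mul, ← mul_sum] at hcorner3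
  omega

end Surf

end Pool.Agent.Lib.MP_fd533b_co
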