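import Mathlib
import Pool.Agent.Lib.MP_fd533b_co.Surface3

/-! The inequality for sparse complement graphs and for complement graphs on surfaces of
nonnegative Euler characteristic. -/

set_option linter.unusedSectionVars false
set_option linter.style.longLine false

namespace Pool.Agent.Lib.MP_fd533b_co

open Finset Module Surf

variable {V : Type*} [Fintype V] [DecidableEq V] {G : SimpleGraph V} [DecidableRel G.Adj]

/-- Charney-Davis if every nonempty set of vertices of `W` contains a vertex without a `4`-clique
among its non-neighbours in the set, or has at most twice as many non-adjacent pairs as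
elements. -/
theorem cd_sparse {k : ℕ} {W : Finset V} (h : Sph G W (2 * k))
    (hcl : ∀ A ⊆ W, A.Nonempty → (∃ x ∈ A, ∀ t ∈ faces G (non G A x), t.card < 4) ∨
      (nonE G A).card ≤ 2 * A.card) : 0 ≤ (-1 : ℚ) ^ k * lam G W := by
  by_contra hneg
  push Not at hneg
  obtain ⟨k', s, -, -, -, -, -, -, h5, -, hbad, hdense⟩ := reduction_link3 h hneg
  have hne : (W ∩ lk G s).Nonempty := by
    rw [← card_pos]
    omega
  rcases hcl _ inter_subset_left hne with ⟨x, hx, hno⟩ | hle
  · obtain ⟨t, ht, ht4⟩ := hbad x hx
    have := hno t ht
    omega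
  · rw [handshake] at hdense
    omega

/-- Charney-Davis if the complement graph has a MacLane family of codimension at most two. -/
theorem cd_surface {k : ℕ} (h : Sph G univ (2 * k)) {ι : Type*} [Fintype ι]
    {B : ι → Sym2 V → ZMod 2} (hB : Fam (nonE G univ) 2 B) :
    0 ≤ (-1 : ℚ) ^ k * lam G univ := by
  classical
  refine cd_sparse h ?_
  intro A _ hA
  obtain ⟨B', hB'⟩ := Fam.mono _ _ (nonE G A) B hB (nonE_mono (subset_univ A)) rfl
  by_cases hbad : ∀ x ∈ A, ∃ t ∈ faces G (non G A x), t.card = 4
  · right
    have := surf_count hA hB' hbad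
    rw [handshake] at this
    omega
  · left
    push Not at hbad
    obtain ⟨x, hx, hno⟩ := hbad
    refine ⟨x, hx, ?_⟩
    intro t ht
    by_contra hlt
    push Not at hlt
    obtain ⟨t', htt', ht'⟩ := exists_subset_card_eq hlt
    exact hno t' (subset_mem_faces ht htt') ht'

end Pool.Agent.Lib.MP_fd533b_co
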